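import Pool.Agent.Helper20.SI.B2Defs
import Pool.Agent.Helper29.FT2.Class

/-!
# SI-20 B1: a line with all pairwise intersections equal to `E`, `dim E = k - 1`, is impossible for `2 ≤ k < m`

Hypothesis `hadj`: collinear points are adjacent. Every element of `l` contains `E` and is orthogonal to it.
(0) If some pair `OppMod 1` is collinear, then all are, and `α = 1`: take `T₀ ∈ l`, `T₀ = E ⊔ span {a}`; `E = E' ⊔ span {y}` with `finrank E' + 2 = k`, `y ∉ E'` (`k ≥ 2`);
`y ∉ E' ⊔ span {a}`; `exists_pp`: `z ∈ pp (E' ⊔ span {a})`, `ω z y = 1`. `A = E' ⊔ span {a} ⊔ span {z}`: totally isotropic, dimension `k` (`z ∉ T₀`, `T₀` is totally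
isotropic and contains `y`), `A ⊓ T₀ = E' ⊔ span {a}`, `OppMod 1 T₀ A` (`y ∈ T₀` is not orthogonal to `z`): collinear. `A ∉ l` (`y ∈ E`, `ω z y = 1`). For
`T ∈ l`, `T ≠ T₀`: `A ⊓ T = E'`: `e + c a + d z ∈ T`, `T ⊥ y`: `d = 0`; then `c a ∈ T` (`e ∈ E ≤ T`) and `T ⊓ T₀ = E ∌ a`: `c = 0`. So `finrank (A ⊓ T) + 2 = k`, not
collinear (`hadj`). So `#{c ∈ l | Coll B A c} = 1 = α` (`count_eq`).
(1) Suppose some `T ≠ T'` in `l` are orthogonal: `PerpAdj`, so all such pairs are collinear (`coll_perpAdj`). `X = T ⊔ T'`, totally isotropic, `finrank X = k + 1`. (1a) All elements of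
`l` are `≤ X`: choose `R ≤ X`, `finrank R = k`, `¬ E ≤ R` (a hyperplane of `X` not containing some `e ∈ E`, `e ≠ 0`: `finrank_inf_ker`, `k ≥ 2`). `R ∉ l`, and every
`A ∈ l` is `≤ X`, `A ≠ R`: `PerpAdj` (in a totally isotropic space of dimension `k + 1`), collinear: contradicts `max_clique`. (1b) Some `A ∈ l` is not `≤ X`: `exists_pp_of_not_le`:
`v ∈ pp X`, `x ∈ A`, `ω v x = 1`. `A' = A.map (sv hA 1 v) ∈ l` (`Cl.sv`), `A' ≠ A` (`v ∉ A`, else `ω v x = 0`), `A ⊓ A' = E`, and `x ∈ A`, `x + v ∈ A'`,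
`ω x (x + v) = ω x v ≠ 0`: `OppMod 1 A A'` (`adj_cases`, not `PerpAdj`). So all `OppMod 1` pairs are collinear, `α = 1` by (0). Now `R ≤ X`, `finrank R = k`, `¬ E ≤ R`: `R ∉ l`, `R` is
`PerpAdj` to `T` and `T'`, so collinear with both, so `α ≥ 2` (`FT.alpha_ge_two` or `count_eq`). Contradiction.
(2) No two different elements of `l` are orthogonal: any two are `OppMod 1` (`adj_cases`), so `α = 1` by (0). Take `T₀ = E ⊔ span {a}`, `T₁ = E ⊔ span {b}` different in `l`, scaled
`ω a b = 1`. `finrank (pp (E ⊔ span {a} ⊔ span {b})) = n - k - 1 ≥ k + 1 > finrank E`: `y` in it, `y ∉ E`. `z₀ = a + b`, `z₁ = a + b + y`, `R_i = E ⊔ span {z_i}`: totally isotropic of dimension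
`k`; `R_i ≠ T_j`, `R_i` and `T_j` are adjacent and not orthogonal (`ω a z_i = 1`, `ω b z_i = -1`): `OppMod 1`, collinear. `R₀ ≠ R₁` (`z₁ = e + c z₀` gives `c = 1` by `ω a ·`, `y ∈ E`), and
they are orthogonal (`ω z₀ z₁ = ω (a + b) y = 0`): so not both are in `l`. If `R_i ∉ l`, it is collinear with `T₀` and `T₁`: `α ≥ 2`. Contradiction.
-/

open Module Submodule Finset

set_option linter.unusedSectionVars false

namespace Pool.Agent.Helper20.SI

open Pool.Agent.Helper29.FT Pool.Agent.Helper29.FT2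

variable {F V : Type*} [Field F] [AddCommGroup V] [Module F V] [FiniteDimensional F V]
variable {ω : LinearMap.BilinForm F V}

variable [Finite F] [DecidableEq (Submodule F V)] {B : Finset (Finset (Submodule F V))}
  {k α s t μ : ℕ}

/-- every element of the line contains `E` -/
theorem b1_le (hS : IsSPG (IsoGr ω k) B α s t μ) (hs : 2 ≤ s)
    {l : Finset (Submodule F V)} (hl : l ∈ B) {E : Submodule F V}
    (hE : ∀ U ∈ l, ∀ W ∈ l, U ≠ W → U ⊓ W = E) {T : Submodule F V} (hT : T ∈ l) : E ≤ T := by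
  obtain ⟨W, hW, hWT, -⟩ := exists_third hS hs hl T T
  rw [← hE T hT W hW hWT.symm]
  exact inf_le_left

/-- if all pairs `OppMod 1` are collinear then `α = 1` -/
theorem b1_alpha (hA : ω.IsAlt) (hN : ω.Nondegenerate)
    (hS : IsSPG (IsoGr ω k) B α s t μ) (hs : 2 ≤ s) (hk2 : 2 ≤ k)
    (hadj : ∀ U W, Coll B U W → finrank F (U ⊓ W : Submodule F V) + 1 = k)
    {l : Finset (Submodule F V)} (hl : l ∈ B) {E : Submodule F V} (hdE : finrank F E + 1 = k)
    (hE : ∀ U ∈ l, ∀ W ∈ l, U ≠ W → U ⊓ W = E)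
    (hO : ∀ U W, OppMod ω k 1 U W → Coll B U W) : α = 1 := by
  have hdim : ∀ T ∈ l, finrank F T = k := fun T hT => (mem_IsoGr.mp (hS.lines_sub l hl hT)).1
  have hti : ∀ T ∈ l, TI ω T := fun T hT => (mem_IsoGr.mp (hS.lines_sub l hl hT)).2
  have hle : ∀ T ∈ l, E ≤ T := fun T hT => b1_le hS hs hl hE hT
  have hpos : 0 < #l := by
    rw [hS.line_card l hl]
    omega
  obtain ⟨T₀, hT₀⟩ := card_pos.mp hpos
  have hd₀ := hdim T₀ hT₀
  have ht₀ := hti T₀ hT₀
  obtain ⟨a, haT, haE⟩ := exists_notMem (X := T₀) (Y := E) (by omega)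
  obtain ⟨E', -, hE'E, hdE'⟩ := exists_between (F := F) (A := (⊥ : Submodule F V)) (X := E)
    (m := k - 2) bot_le (by rw [finrank_bot]; omega) (by omega)
  obtain ⟨y, hyE, hyE'⟩ := exists_notMem (X := E) (Y := E') (by omega)
  have hyT : y ∈ T₀ := hle T₀ hT₀ hyE
  have haE' : a ∉ E' := fun h => haE (hE'E h)
  have hy : y ∉ E' ⊔ span F {a} := by
    intro h
    obtain ⟨e, he, x, hx, hex⟩ := mem_sup.mp h
    obtain ⟨c, rfl⟩ := mem_span_singleton.mp hx
    have h1 : c • a ∈ E := by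
      have h2 : c • a = y - e := by rw [← hex]; abel
      rw [h2]
      exact E.sub_mem hyE (hE'E he)
    have hc : c = 0 := by
      by_contra hc
      exact haE ((E.smul_mem_iff hc).mp h1)
    rw [hc, zero_smul, add_zero] at hex
    rw [← hex] at hyE'
    exact hyE' he
  obtain ⟨z, hz, hzy⟩ := exists_pp hA hN hy
  have hYT : E' ⊔ span F {a} ≤ T₀ := by
    apply sup_le (hE'E.trans (hle T₀ hT₀))
    rw [span_singleton_le_iff_mem]
    exact haT
  have hzT : z ∉ T₀ := by
    intro h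
    rw [ht₀ z h y hyT] at hzy
    exact zero_ne_one hzy
  have hdY : finrank F (E' ⊔ span F {a} : Submodule F V) + 1 = k := by
    rw [finrank_sup_span_singleton haE', hdE']
    omega
  have hzY : z ∉ E' ⊔ span F {a} := fun h => hzT (hYT h)
  have tA : TI ω (E' ⊔ span F {a} ⊔ span F {z}) :=
    ti_sup_span hA (ht₀.mono hYT) (fun u hu => hz u hu)
  have dA : finrank F (E' ⊔ span F {a} ⊔ span F {z} : Submodule F V) = k := by
    rw [finrank_sup_span_singleton hzY, hdY]
  set A : Submodule F V := E' ⊔ span F {a} ⊔ span F {z} with hAdef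
  have hzA : z ∈ A := mem_sup_span z
  have hTA : T₀ ≠ A := by
    rintro h
    rw [← h] at hzA
    exact hzT hzA
  have hYA : E' ⊔ span F {a} ≤ A := le_sup_left
  have hAl : A ∉ l := by
    intro h
    rw [tA z hzA y (hle A h hyE)] at hzy
    exact zero_ne_one hzy
  have hopp : OppMod ω k 1 T₀ A := by
    rcases adj_cases hA hd₀ dA ht₀ tA (adj_of_le hd₀ dA hTA hYT hYA hdY) with h | h
    · exfalso
      have h1 := h.perp hyT z hzA
      rw [h1] at hzy
      exact zero_ne_one hzy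
    · exact h
  apply alpha_eq_one hS (mem_IsoGr.mpr ⟨dA, tA⟩) hl hAl hT₀ (hO _ _ hopp).symm
  intro T hT hAT
  by_contra hne
  have h1 := hadj A T hAT
  have h2 : A ⊓ T ≤ E' := by
    rintro x ⟨hxA, hxT⟩
    obtain ⟨x₁, hx₁, x₂, hx₂, rfl⟩ := mem_sup.mp hxA
    obtain ⟨d, rfl⟩ := mem_span_singleton.mp hx₂
    obtain ⟨e, he, x₃, hx₃, rfl⟩ := mem_sup.mp hx₁
    obtain ⟨c, rfl⟩ := mem_span_singleton.mp hx₃
    have h3 := hti T hT _ hxT y (hle T hT hyE)
    rw [map_add, LinearMap.add_apply, ht₀ _ (hYT hx₁) y hyT, zero_add, map_smul,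
      LinearMap.smul_apply, hzy, smul_eq_mul, mul_one] at h3
    rw [h3, zero_smul, add_zero] at hxT ⊢
    have h4 : c • a ∈ T ⊓ T₀ := by
      refine ⟨?_, T₀.smul_mem _ haT⟩
      have h5 : c • a = (e + c • a) - e := by abel
      rw [h5]
      exact T.sub_mem hxT (hle T hT (hE'E he))
    rw [hE T hT T₀ hT₀ hne] at h4
    have hc : c = 0 := by
      by_contra hc
      exact haE ((E.smul_mem_iff hc).mp h4)
    rw [hc, zero_smul, add_zero]
    exact he
  have h3 := Submodule.finrank_mono h2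
  omega

theorem b1_lt (hA : ω.IsAlt) (hN : ω.Nondegenerate) (hB : SpInvariant ω B)
    (hS : IsSPG (IsoGr ω k) B α s t μ) (hNL : NonLinear (IsoGr ω k) B) (hs : 2 ≤ s)
    (hk2 : 2 ≤ k) (hkn : 2 * k + 2 ≤ finrank F V)
    (hadj : ∀ U W, Coll B U W → finrank F (U ⊓ W : Submodule F V) + 1 = k)
    {l : Finset (Submodule F V)} (hl : l ∈ B) {E : Submodule F V} (hdE : finrank F E + 1 = k)
    (hE : ∀ U ∈ l, ∀ W ∈ l, U ≠ W → U ⊓ W = E) : False := by
  have hdim : ∀ T ∈ l, finrank F T = k := fun T hT => (mem_IsoGr.mp (hS.lines_sub l hl hT)).1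
  have hti : ∀ T ∈ l, TI ω T := fun T hT => (mem_IsoGr.mp (hS.lines_sub l hl hT)).2
  have hle : ∀ T ∈ l, E ≤ T := fun T hT => b1_le hS hs hl hE hT
  have hcl := cl_of_line hB hS hl
  have hinf : ∀ T ∈ l, ∀ T' ∈ l, T ≠ T' → finrank F (T ⊓ T' : Submodule F V) + 1 = k := by
    intro T hT T' hT' hne
    rw [hE T hT T' hT' hne, hdE]
  have hsup : ∀ T ∈ l, ∀ T' ∈ l, T ≠ T' → finrank F (T ⊔ T' : Submodule F V) = k + 1 := by
    intro T hT T' hT' hne
    have h1 := Submodule.finrank_sup_add_finrank_inf_eq T T'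
    have h2 := hinf T hT T' hT' hne
    have h3 := hdim T hT
    have h4 := hdim T' hT'
    omega
  by_cases hperp : ∃ T ∈ l, ∃ T' ∈ l, T ≠ T' ∧ T ≤ pp ω T'
  · obtain ⟨T, hT, T', hT', hne, hTT'⟩ := hperp
    have hPA : PerpAdj ω k T T' := ⟨hdim T hT, hdim T' hT', hti T hT, hti T' hT',
      hinf T hT T' hT' hne, hTT'⟩
    have hP : ∀ U W, PerpAdj ω k U W → Coll B U W := fun U W h =>
      coll_perpAdj hA hN hB ⟨hne, l, hl, hT, hT'⟩ hPA h
    have tX : TI ω (T ⊔ T') := ti_sup hA (hti T hT) (hti T' hT') hTT'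
    have dX := hsup T hT T' hT' hne
    -- a hyperplane of `X` not containing `E`
    have hE0 : E ≠ ⊥ := by
      rintro rfl
      rw [finrank_bot] at hdE
      omega
    obtain ⟨e, heE, he0⟩ := Submodule.exists_mem_ne_zero_of_ne_bot hE0
    obtain ⟨f, hf, -⟩ := exists_form (F := F) (⊥ : Submodule F V) (x := e)
      (by rwa [Submodule.mem_bot])
    have heX : e ∈ T ⊔ T' := le_sup_left (a := T) (hle T hT heE)
    have dR := finrank_inf_ker heX (f := f) (by rw [hf]; exact one_ne_zero)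
    set R : Submodule F V := (T ⊔ T') ⊓ LinearMap.ker f with hR
    have heR : e ∉ R := by
      intro h
      have h1 := LinearMap.mem_ker.mp h.2
      rw [hf] at h1
      exact one_ne_zero h1
    have hRX : R ≤ T ⊔ T' := inf_le_left
    have dR' : finrank F R = k := by omega
    have tR : TI ω R := tX.mono hRX
    have hRl : R ∉ l := fun h => heR (hle R h heE)
    have hRP : ∀ A ∈ l, A ≤ T ⊔ T' → Coll B R A := by
      intro A hAl hAX
      have hRA : R ≠ A := by
        rintro rfl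
        exact hRl hAl
      apply hP
      refine ⟨dR', hdim A hAl, tR, hti A hAl, adj_of_ge dR' (hdim A hAl) hRA hRX hAX dX, ?_⟩
      intro x hx y hy
      exact tX y (hAX hy) x (hRX hx)
    have hRP' : R ∈ IsoGr ω k := mem_IsoGr.mpr ⟨dR', tR⟩
    by_cases hall : ∀ A ∈ l, A ≤ T ⊔ T'
    · obtain ⟨b, hb, hnb⟩ := max_clique hS hNL hl hRP' hRl
      exact hnb (hRP b hb (hall b hb))
    · push Not at hall
      obtain ⟨A, hAl, hAX⟩ := hall
      obtain ⟨v, hv, x, hx, hvx⟩ := exists_pp_of_not_le hA hN hAX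
      have hvT : v ∈ pp ω T := pp_anti le_sup_left hv
      have hvT' : v ∈ pp ω T' := pp_anti le_sup_right hv
      have hA' := hcl.sv hA 1 hT hT' hne hvT hvT' hAl
      have hvA : v ∉ A := by
        intro h
        rw [hti A hAl v h x hx] at hvx
        exact zero_ne_one hvx
      have hne' := sv_ne hA (c := (1 : F)) one_ne_zero hvA hx
        (by rw [hvx]; exact one_ne_zero)
      set A' := A.map (sv hA 1 v : V →ₗ[F] V) with hA'def
      have hopp : OppMod ω k 1 A A' := by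
        rcases adj_cases hA (hdim A hAl) (hdim A' hA') (hti A hAl) (hti A' hA')
          (hinf A hAl A' hA' hne'.symm) with h | h
        · exfalso
          have h1 : sv hA 1 v x ∈ A' := Submodule.mem_map_of_mem hx
          rw [sv_apply, hvx, mul_one, one_smul] at h1
          have h2 := h.perp hx (x + v) h1
          rw [map_add, LinearMap.add_apply, self0 hA, hvx, zero_add] at h2
          exact one_ne_zero h2
        · exact h
      have hO : ∀ U W, OppMod ω k 1 U W → Coll B U W := fun U W h =>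
        coll_oppMod hA hN hB ⟨hne'.symm, l, hl, hAl, hA'⟩ hopp h
      have hα := b1_alpha hA hN hS hs hk2 hadj hl hdE hE hO
      have h2 := alpha_ge_two hS hRP' hl hRl hT hT' hne (hRP T hT le_sup_left)
        (hRP T' hT' le_sup_right)
      omega
  · push Not at hperp
    have hpos : 0 < #l := by
      rw [hS.line_card l hl]
      omega
    obtain ⟨T₀, hT₀⟩ := card_pos.mp hpos
    obtain ⟨T₁, hT₁, hne, -⟩ := exists_third hS hs hl T₀ T₀
    have hopp : OppMod ω k 1 T₀ T₁ := by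
      rcases adj_cases hA (hdim T₀ hT₀) (hdim T₁ hT₁) (hti T₀ hT₀) (hti T₁ hT₁)
        (hinf T₀ hT₀ T₁ hT₁ hne.symm) with h | h
      · exact absurd h.perp (hperp T₀ hT₀ T₁ hT₁ hne.symm)
      · exact h
    have hO : ∀ U W, OppMod ω k 1 U W → Coll B U W := fun U W h =>
      coll_oppMod hA hN hB ⟨hne.symm, l, hl, hT₀, hT₁⟩ hopp h
    have hα := b1_alpha hA hN hS hs hk2 hadj hl hdE hE hO
    have hd₁ := hdim T₁ hT₁
    obtain ⟨b, hbT, hbE⟩ := exists_notMem (X := T₁) (Y := E) (by omega)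
    have hb2 : b ∉ pp ω T₀ := by
      intro h
      apply hbE
      have h1 : b ∈ T₁ ⊓ pp ω T₀ := ⟨hbT, h⟩
      rw [hopp.opp, hE T₀ hT₀ T₁ hT₁ hne.symm] at h1
      exact h1
    rw [mem_pp] at hb2
    push Not at hb2
    obtain ⟨u, huT, hub⟩ := hb2
    obtain ⟨a, haT, hab⟩ : ∃ a ∈ T₀, ω a b = 1 := by
      refine ⟨(ω u b)⁻¹ • u, T₀.smul_mem _ huT, ?_⟩
      rw [map_smul, LinearMap.smul_apply, smul_eq_mul, inv_mul_cancel₀ hub]
    have hba : ω b a = -1 := by rw [swap hA, hab]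
    have h1 := hsup T₀ hT₀ T₁ hT₁ hne.symm
    have h2 := finrank_pp hA hN (T₀ ⊔ T₁)
    obtain ⟨y, hy, hyE⟩ := exists_notMem (X := pp ω (T₀ ⊔ T₁)) (Y := E) (by omega)
    have hay : ω a y = 0 := hy a (le_sup_left (a := T₀) haT)
    have hby : ω b y = 0 := hy b (le_sup_right (a := T₀) hbT)
    have key : ∀ z : V, z ∈ pp ω E → ω a z ≠ 0 → ω b z ≠ 0 →
        (E ⊔ span F {z} : Submodule F V) ∈ l := by
      intro z hz haz hbz
      by_contra hRl
      have hzE : z ∉ E := by
        intro h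
        exact haz (hti T₀ hT₀ a haT z (hle T₀ hT₀ h))
      have tR : TI ω (E ⊔ span F {z}) :=
        ti_sup_span hA ((hti T₀ hT₀).mono (hle T₀ hT₀)) (fun u hu => hz u hu)
      have dR : finrank F (E ⊔ span F {z} : Submodule F V) = k := by
        rw [finrank_sup_span_singleton hzE, hdE]
      have hzR : z ∈ E ⊔ span F {z} := mem_sup_span z
      have hER : E ≤ E ⊔ span F {z} := le_sup_left
      have hc : ∀ T ∈ l, ∀ c ∈ T, ω c z ≠ 0 → Coll B (E ⊔ span F {z}) T := by
        intro T hT c hc hcz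
        have hRT : (E ⊔ span F {z} : Submodule F V) ≠ T := by
          intro h
          rw [h] at hRl
          exact hRl hT
        rcases adj_cases hA dR (hdim T hT) tR (hti T hT)
          (adj_of_le dR (hdim T hT) hRT hER (hle T hT) hdE) with h | h
        · exact absurd (h.perp hzR c hc) hcz
        · exact hO _ _ h
      have h3 := alpha_ge_two hS (mem_IsoGr.mpr ⟨dR, tR⟩) hl hRl hT₀ hT₁ hne.symm
        (hc T₀ hT₀ a haT haz) (hc T₁ hT₁ b hbT hbz)
      omega
    have haE' : a ∈ pp ω E := fun e he => hti T₀ hT₀ e (hle T₀ hT₀ he) a haT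
    have hbE' : b ∈ pp ω E := fun e he => hti T₁ hT₁ e (hle T₁ hT₁ he) b hbT
    have hyE' : y ∈ pp ω E := fun e he => hy e (le_sup_left (a := T₀) (hle T₀ hT₀ he))
    have hR0 := key (a + b) ((pp ω E).add_mem haE' hbE')
      (by rw [map_add, self0 hA, hab, zero_add]; exact one_ne_zero)
      (by rw [map_add, self0 hA, hba, add_zero]; exact neg_ne_zero.mpr one_ne_zero)
    have hR1 := key (a + b + y) ((pp ω E).add_mem ((pp ω E).add_mem haE' hbE') hyE')
      (by rw [map_add, map_add, self0 hA, hab, hay, zero_add, add_zero]; exact one_ne_zero)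
      (by
        rw [map_add, map_add, self0 hA, hba, hby, add_zero, add_zero]
        exact neg_ne_zero.mpr one_ne_zero)
    have hne01 : (E ⊔ span F {a + b} : Submodule F V) ≠ E ⊔ span F {a + b + y} := by
      intro h
      have h3 : a + b + y ∈ E ⊔ span F {a + b} := by
        rw [h]
        exact mem_sup_span _
      have h4 : y ∈ E ⊔ span F {a + b} := by
        have h5 := Submodule.sub_mem _ h3 (mem_sup_span (S := E) (a + b))
        rwa [add_sub_cancel_left] at h5
      obtain ⟨e, he, x, hx, hex⟩ := mem_sup.mp h4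
      obtain ⟨c, rfl⟩ := mem_span_singleton.mp hx
      have h5 := hay
      rw [← hex, map_add, map_smul, map_add, self0 hA, hab,
        hti T₀ hT₀ a haT e (hle T₀ hT₀ he), zero_add, zero_add, smul_eq_mul, mul_one] at h5
      rw [h5, zero_smul, add_zero] at hex
      rw [← hex] at hyE
      exact hyE he
    apply hperp _ hR0 _ hR1 hne01
    intro x hx w hw
    obtain ⟨e, he, x', hx', rfl⟩ := mem_sup.mp hx
    obtain ⟨c, rfl⟩ := mem_span_singleton.mp hx'
    obtain ⟨e', he', w', hw', rfl⟩ := mem_sup.mp hw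
    obtain ⟨c', rfl⟩ := mem_span_singleton.mp hw'
    have g1 : ω e' e = 0 := (hti T₀ hT₀).mono (hle T₀ hT₀) e' he' e he
    have g2 : ω e' a = 0 := haE' e' he'
    have g3 : ω e' b = 0 := hbE' e' he'
    have g4 : ω a e = 0 := hti T₀ hT₀ a haT e (hle T₀ hT₀ he)
    have g5 : ω b e = 0 := hti T₁ hT₁ b hbT e (hle T₁ hT₁ he)
    have g6 : ω y e = 0 := swap0 hA (hyE' e he)
    have g7 : ω y a = 0 := swap0 hA hay
    have g8 : ω y b = 0 := swap0 hA hby
    simp only [map_add, map_smul, LinearMap.add_apply, LinearMap.smul_apply, smul_eq_mul, g1,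
      g2, g3, g4, g5, g6, g7, g8, self0 hA, hab, hba]
    ring

end Pool.Agent.Helper20.SI
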