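import Pool.Agent.Helper20.SI.Defs

/-!
# SI-04 Gen: general facts on semipartial geometries (short)

`count_eq`: `IsSPG.antiflag'`. `max_clique` (F1): suppose `a ∉ l` is collinear with all points of `l`; then
`#{c ∈ l | Coll B a c} = #l = s + 1`, so `α = s + 1` (`count_eq`; `l` is nonempty). Then collinearity is transitive: `Coll x y`,
`Coll y z`, `x ≠ z`: take a line `m ∋ x, y`; if `z ∈ m` done; otherwise `#{c ∈ m | Coll B z c} = α = s + 1 = #m`
(`count_eq` with `y`), so `x` is collinear with `z`. But some `x ≠ y` in `P` are not collinear (`NonLinear`) and have a common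
neighbour (`IsSPG.exists_common`). Contradiction. `alpha_le`: `{c ∈ l | Coll B a c}` is a proper subset of `l` by
`max_clique`, so `α < s + 1`.
-/

open Module Submodule Finset

set_option linter.unusedSectionVars false

namespace Pool.Agent.Helper20.SI

open Pool.Agent.Helper29.FT Pool.Agent.Helper29.FT2

variable {F V : Type*} [Field F] [AddCommGroup V] [Module F V] [FiniteDimensional F V]
variable {ω : LinearMap.BilinForm F V}

section

variable {X : Type*} [DecidableEq X] {P : Finset X} {B : Finset (Finset X)} {α s t μ : ℕ}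

theorem count_eq (hS : IsSPG P B α s t μ) {a b : X} {l : Finset X} (ha : a ∈ P) (hl : l ∈ B)
    (hal : a ∉ l) (hb : b ∈ l) (hab : Coll B a b) : #{c ∈ l | Coll B a c} = α := by
  rcases hS.antiflag' ha hl hal with h | h
  · exfalso
    have h1 : b ∈ ({c ∈ l | Coll B a c} : Finset X) := mem_filter.mpr ⟨hb, hab⟩
    rw [card_eq_zero] at h
    rw [h] at h1
    exact absurd h1 (notMem_empty _)
  · exact h

/-- (F1) lines are maximal cliques -/
theorem max_clique (hS : IsSPG P B α s t μ) (hNL : NonLinear P B) {l : Finset X} (hl : l ∈ B)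
    {a : X} (ha : a ∈ P) (hal : a ∉ l) : ∃ b ∈ l, ¬ Coll B a b := by
  by_contra hcon
  push Not at hcon
  have hfil : ∀ c m, (∀ d ∈ m, Coll B c d) → ({d ∈ m | Coll B c d} : Finset X) = m :=
    fun c m h => filter_true_of_mem h
  have hne : 0 < #l := by
    rw [hS.line_card l hl]
    omega
  obtain ⟨b, hb⟩ := card_pos.mp hne
  have hα : α = s + 1 := by
    rw [← count_eq hS ha hl hal hb (hcon b hb), hfil a l hcon, hS.line_card l hl]
  have htr : ∀ x y z, Coll B x y → Coll B y z → x ≠ z → Coll B x z := by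
    intro x y z hxy hyz hxz
    have hxP : x ∈ P := (coll_mem hS hxy).1
    have hzP : z ∈ P := (coll_mem hS hyz).2
    have hxy' := hxy
    obtain ⟨-, m, hm, hxm, hym⟩ := hxy'
    by_cases hzm : z ∈ m
    · exact ⟨hxz, m, hm, hxm, hzm⟩
    · have h1 := count_eq hS hzP hm hzm hym hyz.symm
      rw [hα, ← hS.line_card m hm] at h1
      have h2 : ({c ∈ m | Coll B z c} : Finset X) = m :=
        eq_of_subset_of_card_le (filter_subset _ _) (by rw [h1])
      have h3 : x ∈ ({c ∈ m | Coll B z c} : Finset X) := by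
        rw [h2]
        exact hxm
      exact (mem_filter.mp h3).2.symm
  obtain ⟨x, hx, y, hy, hxy, hnc⟩ := hNL
  obtain ⟨c, -, hxc, hyc⟩ := hS.exists_common hx hy hxy hnc
  exact hnc (htr x c y hxc hyc.symm hxy)

theorem alpha_le (hS : IsSPG P B α s t μ) (hNL : NonLinear P B) {a b : X} {l : Finset X}
    (ha : a ∈ P) (hl : l ∈ B) (hal : a ∉ l) (hb : b ∈ l) (hab : Coll B a b) : α ≤ s := by
  obtain ⟨c, hc, hac⟩ := max_clique hS hNL hl ha hal
  have h1 := count_eq hS ha hl hal hb hab
  have h2 : #{c ∈ l | Coll B a c} < #l := by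
    apply card_lt_card
    rw [Finset.ssubset_iff_of_subset (filter_subset _ _)]
    exact ⟨c, hc, fun h => hac (mem_filter.mp h).2⟩
  rw [hS.line_card l hl] at h2
  omega

/-- a line is not everything -/
theorem exists_off (hNL : NonLinear P B) {l : Finset X} (hl : l ∈ B) : ∃ x ∈ P, x ∉ l := by
  obtain ⟨x, hx, y, hy, hxy, hnc⟩ := hNL
  by_cases h : x ∈ l
  · refine ⟨y, hy, fun h' => hnc ⟨hxy, l, hl, h, h'⟩⟩
  · exact ⟨x, hx, h⟩

/-- three points on a line -/
theorem exists_third (hS : IsSPG P B α s t μ) (hs : 2 ≤ s) {l : Finset X} (hl : l ∈ B)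
    (a b : X) : ∃ c ∈ l, c ≠ a ∧ c ≠ b := by
  have h1 : 0 < #((l.erase a).erase b) := by
    have h2 := pred_card_le_card_erase (s := l) (a := a)
    have h3 := pred_card_le_card_erase (s := l.erase a) (a := b)
    have h4 := hS.line_card l hl
    omega
  obtain ⟨c, hc⟩ := card_pos.mp h1
  rw [mem_erase, mem_erase] at hc
  exact ⟨c, hc.2.2, hc.2.1, hc.1⟩

end

end Pool.Agent.Helper20.SI
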