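import Pool.Agent.Helper20.SI.SpB
import Pool.Agent.Helper20.SI.Gen

/-!
# SI: the data of case B2
-/

open Module Submodule Finset

set_option linter.unusedSectionVars false

namespace Pool.Agent.Helper20.SI

open Pool.Agent.Helper29.FT Pool.Agent.Helper29.FT2

variable {F V : Type*} [Field F] [AddCommGroup V] [Module F V] [FiniteDimensional F V]
variable {ω : LinearMap.BilinForm F V}

/-- the data of case B2 -/
structure B2 (ω : LinearMap.BilinForm F V) (k : ℕ) (l : Finset (Submodule F V))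
    (E : Submodule F V) : Prop where
  dimE : finrank F E + 2 = k
  inf : ∀ U ∈ l, ∀ W ∈ l, U ≠ W → U ⊓ W = E
  opp : ∀ U ∈ l, ∀ W ∈ l, U ≠ W → W ⊓ pp ω U = E
  le : ∀ U ∈ l, ∀ W ∈ l, U ≠ W → ∀ T ∈ l, T ≤ U ⊔ W

end Pool.Agent.Helper20.SI
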