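import Pool.Agent.Helper20.SI.B2lt1

/-!
# SI-17 B2eq1: case B2 with `k = m ≥ 3`: which points are collinear

Now `2 k = n`, so `pp U = U` for `U` totally isotropic of dimension `k` (`ti_iff`, `finrank_pp`), and `OppMod j U W` just means
`finrank (U ⊓ W) + j = k`. `far_iff`: this. By `b2_coll2` all pairs with `finrank (U ⊓ W) + 2 = k` are collinear.
`b2eq_adj`: pairs with `finrank (U ⊓ W) + 1 = k` are not collinear: otherwise all such pairs are (`coll_oppMod`, `j = 1`). Take `U ≠ W` in `l`, `p ∈ U \ E`,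
`C` totally isotropic of dimension `k` with `E ⊔ span {p} ≤ C`, `C ≠ U` (`C = E ⊔ span {p} ⊔ span {w}` with `w ∈ W \ E`, `ω p w = 0`; `W ⊓ ker (ω p)` has dimension
`≥ k - 1`). `C ∉ l` (`C ⊓ U ∋ p`, `C ≠ U`). For `T ∈ l`: `E ≤ C ⊓ T`, so `finrank (C ⊓ T) ∈ {k - 2, k - 1}` (`C ≠ T`), so `C` is collinear with all of `l`:
contradicts `max_clique`.
`b2eq_near`: `E ≤ C`, `C ∉ l`: for `T ∈ l`: `C ⊓ T = E` (then collinear by `b2_coll2`) or `finrank (C ⊓ T) + 1 = k` (then not, `b2eq_adj`).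
-/

open Module Submodule Finset

set_option linter.unusedSectionVars false

namespace Pool.Agent.Helper20.SI

open Pool.Agent.Helper29.FT Pool.Agent.Helper29.FT2

variable {F V : Type*} [Field F] [AddCommGroup V] [Module F V] [FiniteDimensional F V]
variable {ω : LinearMap.BilinForm F V}

variable [Finite F] [DecidableEq (Submodule F V)] {B : Finset (Finset (Submodule F V))}
  {k α s t μ : ℕ}

theorem B2eq1_pp (hA : ω.IsAlt) (hN : ω.Nondegenerate) (hkn : 2 * k = finrank F V)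
    {U : Submodule F V} (dU : finrank F U = k) (tU : TI ω U) : pp ω U = U := by
  symm
  apply Submodule.eq_of_le_of_finrank_eq (ti_iff.mp tU)
  have := finrank_pp hA hN U
  omega

theorem far_iff (hA : ω.IsAlt) (hN : ω.Nondegenerate) (hkn : 2 * k = finrank F V) {j : ℕ}
    {U W : Submodule F V} (dU : finrank F U = k) (dW : finrank F W = k) (tU : TI ω U)
    (tW : TI ω W) : OppMod ω k j U W ↔ finrank F (U ⊓ W : Submodule F V) + j = k := by
  constructor
  · intro h
    exact h.inf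
  · intro h
    refine ⟨dU, dW, tU, tW, h, ?_⟩
    rw [B2eq1_pp hA hN hkn dU tU, inf_comm]

theorem B2eq1_le (hS : IsSPG (IsoGr ω k) B α s t μ) (hs : 2 ≤ s)
    {l : Finset (Submodule F V)} (hl : l ∈ B) {E : Submodule F V} (h : B2 ω k l E)
    {T : Submodule F V} (hT : T ∈ l) : E ≤ T := by
  obtain ⟨c, hc, hcT, -⟩ := exists_third hS hs hl T T
  have h1 := h.inf T hT c hc hcT.symm
  rw [← h1]
  exact inf_le_left

theorem B2eq1_cases (hS : IsSPG (IsoGr ω k) B α s t μ) (hs : 2 ≤ s)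
    {l : Finset (Submodule F V)} (hl : l ∈ B) {E : Submodule F V} (h : B2 ω k l E)
    {C : Submodule F V} (dC : finrank F C = k) (hEC : E ≤ C) (hC : C ∉ l)
    {T : Submodule F V} (hT : T ∈ l) :
    C ⊓ T = E ∨ finrank F (C ⊓ T : Submodule F V) + 1 = k := by
  have dT : finrank F T = k := (mem_IsoGr.mp (hS.lines_sub l hl hT)).1
  have h1 : E ≤ C ⊓ T := le_inf hEC (B2eq1_le hS hs hl h hT)
  have h2 := Submodule.finrank_mono h1
  have h3 : finrank F (C ⊓ T : Submodule F V) ≤ finrank F C := Submodule.finrank_mono inf_le_left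
  have h4 : finrank F (C ⊓ T : Submodule F V) ≠ k := by
    intro h5
    have h6 : C ⊓ T = C := Submodule.eq_of_le_of_finrank_eq inf_le_left (by rw [h5, dC])
    have h7 : C = T := Submodule.eq_of_le_of_finrank_eq (inf_eq_left.mp h6) (by rw [dC, dT])
    rw [h7] at hC
    exact hC hT
  have h5 := h.dimE
  by_cases h6 : finrank F (C ⊓ T : Submodule F V) + 1 = k
  · exact Or.inr h6
  · left
    symm
    exact Submodule.eq_of_le_of_finrank_eq h1 (by omega)

theorem b2eq_adj (hA : ω.IsAlt) (hN : ω.Nondegenerate) (hB : SpInvariant ω B)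
    (hS : IsSPG (IsoGr ω k) B α s t μ) (hNL : NonLinear (IsoGr ω k) B) (hs : 2 ≤ s)
    {l : Finset (Submodule F V)} (hl : l ∈ B) {E : Submodule F V} (h : B2 ω k l E)
    (hkn : 2 * k = finrank F V) {U W : Submodule F V} (hUW : finrank F (U ⊓ W : Submodule F V) + 1 = k) :
    ¬ Coll B U W := by
  intro hc
  have hU := mem_IsoGr.mp (coll_mem hS hc).1
  have hW := mem_IsoGr.mp (coll_mem hS hc).2
  have hOpp : OppMod ω k 1 U W := (far_iff hA hN hkn hU.1 hW.1 hU.2 hW.2).mpr hUW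
  obtain ⟨U1, hU1, -, -⟩ := exists_third hS hs hl U U
  obtain ⟨W1, hW1, hWU1, -⟩ := exists_third hS hs hl U1 U1
  have dU1 : finrank F U1 = k := (mem_IsoGr.mp (hS.lines_sub l hl hU1)).1
  have tU1 : TI ω U1 := (mem_IsoGr.mp (hS.lines_sub l hl hU1)).2
  have dW1 : finrank F W1 = k := (mem_IsoGr.mp (hS.lines_sub l hl hW1)).1
  have tW1 : TI ω W1 := (mem_IsoGr.mp (hS.lines_sub l hl hW1)).2
  have hEU : E ≤ U1 := B2eq1_le hS hs hl h hU1
  have hEW : E ≤ W1 := B2eq1_le hS hs hl h hW1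
  have hinf : U1 ⊓ W1 = E := h.inf U1 hU1 W1 hW1 hWU1.symm
  have hdE := h.dimE
  have hn1 : ¬ U1 ≤ E := by
    intro hle
    have := Submodule.finrank_mono hle
    omega
  obtain ⟨p, hpU, hpE⟩ := SetLike.not_le_iff_exists.mp hn1
  have hn2 : ¬ W1 ⊓ LinearMap.ker (ω p) ≤ E := by
    intro hle
    have h1 := Submodule.finrank_mono hle
    have h2 := finrank_inf_ker_ge W1 (ω p)
    omega
  obtain ⟨w, hwW, hwE⟩ := SetLike.not_le_iff_exists.mp hn2
  have hpw : ω p w = 0 := LinearMap.mem_ker.mp hwW.2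
  have hwM : w ∉ E ⊔ span F {p} := by
    intro hw
    obtain ⟨e, he, y, hy, hey⟩ := mem_sup.mp hw
    obtain ⟨c, rfl⟩ := mem_span_singleton.mp hy
    apply hwE
    rw [← hinf]
    refine ⟨?_, hwW.1⟩
    rw [← hey]
    exact U1.add_mem (hEU he) (U1.smul_mem _ hpU)
  have hM : TI ω (E ⊔ span F {p}) := by
    apply tU1.mono
    apply sup_le hEU
    rw [span_singleton_le_iff_mem]
    exact hpU
  have hC : TI ω (E ⊔ span F {p} ⊔ span F {w}) := by
    apply ti_sup_span hA hM
    intro u hu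
    obtain ⟨e, he, y, hy, rfl⟩ := mem_sup.mp hu
    obtain ⟨c, rfl⟩ := mem_span_singleton.mp hy
    rw [map_add, LinearMap.add_apply, map_smul, LinearMap.smul_apply, hpw, smul_zero, add_zero]
    exact tW1 e (hEW he) w hwW.1
  have dC : finrank F (E ⊔ span F {p} ⊔ span F {w} : Submodule F V) = k := by
    rw [finrank_sup_span_singleton hwM, finrank_sup_span_singleton hpE]
    omega
  have hEC : E ≤ E ⊔ span F {p} ⊔ span F {w} := le_sup_left.trans le_sup_left
  have hpC : p ∈ E ⊔ span F {p} ⊔ span F {w} :=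
    (le_sup_right.trans le_sup_left : span F {p} ≤ _) (mem_span_singleton_self p)
  have hwC : w ∈ E ⊔ span F {p} ⊔ span F {w} :=
    (le_sup_right : span F {w} ≤ _) (mem_span_singleton_self w)
  have hCU : E ⊔ span F {p} ⊔ span F {w} ≠ U1 := by
    intro hCU
    rw [hCU] at hwC
    apply hwE
    rw [← hinf]
    exact ⟨hwC, hwW.1⟩
  have hCl : E ⊔ span F {p} ⊔ span F {w} ∉ l := by
    intro hCl
    have h1 := h.inf _ hCl U1 hU1 hCU
    apply hpE
    rw [← h1]
    exact ⟨hpC, hpU⟩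
  obtain ⟨T, hT, hnT⟩ := max_clique hS hNL hl (mem_IsoGr.mpr ⟨dC, hC⟩) hCl
  apply hnT
  have dT : finrank F T = k := (mem_IsoGr.mp (hS.lines_sub l hl hT)).1
  have tT : TI ω T := (mem_IsoGr.mp (hS.lines_sub l hl hT)).2
  rcases B2eq1_cases hS hs hl h dC hEC hCl hT with h1 | h1
  · apply b2_coll2 hA hN hB hS hl h
    apply (far_iff hA hN hkn dC dT hC tT).mpr
    rw [h1]
    exact hdE
  · exact coll_oppMod hA hN hB hc hOpp ((far_iff hA hN hkn dC dT hC tT).mpr h1)

theorem b2eq_near (hA : ω.IsAlt) (hN : ω.Nondegenerate) (hB : SpInvariant ω B)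
    (hS : IsSPG (IsoGr ω k) B α s t μ) (hNL : NonLinear (IsoGr ω k) B) (hs : 2 ≤ s)
    {l : Finset (Submodule F V)} (hl : l ∈ B) {E : Submodule F V} (h : B2 ω k l E)
    (hkn : 2 * k = finrank F V) {C : Submodule F V} (dC : finrank F C = k) (tC : TI ω C)
    (hEC : E ≤ C) (hC : C ∉ l) {T : Submodule F V} (hT : T ∈ l) :
    (C ⊓ T = E ∨ finrank F (C ⊓ T : Submodule F V) + 1 = k) ∧
      (Coll B C T ↔ C ⊓ T = E) := by
  have dT : finrank F T = k := (mem_IsoGr.mp (hS.lines_sub l hl hT)).1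
  have tT : TI ω T := (mem_IsoGr.mp (hS.lines_sub l hl hT)).2
  refine ⟨B2eq1_cases hS hs hl h dC hEC hC hT, ?_⟩
  rcases B2eq1_cases hS hs hl h dC hEC hC hT with h1 | h1
  · refine iff_of_true ?_ h1
    apply b2_coll2 hA hN hB hS hl h
    apply (far_iff hA hN hkn dC dT tC tT).mpr
    rw [h1]
    exact h.dimE
  · refine iff_of_false (b2eq_adj hA hN hB hS hNL hs hl h hkn h1) ?_
    intro h2
    rw [h2] at h1
    have := h.dimE
    omega

end Pool.Agent.Helper20.SI
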