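import Pool.Agent.Helper20.SI.B2eq1

/-!
# SI-18 B2eq2: case B2 with `k = m ≥ 3`: `s + 1 = 2 α`

Let `C ∉ l`, `E ≤ C`. Construct `A`: `E = E' ⊔ span {e}` with `finrank E' + 3 = k`, `C = E' ⊔ span {e} ⊔ G`, better: take a hyperplane `C' ≥ E'` of `C` with `e ∉ C'` (`exists_between`/
complement: `C' ⊓ E = E'`), so `C = C' ⊔ span {e}`. `exists_pp` for `e ∉ C'`: `z ∈ pp C'` with `ω z e = 1`. `A = C' ⊔ span {z}`: totally isotropic of dimension `k`
(`z ∉ C' `: `C' ≤ C` is orthogonal to `e ∈ C`). `A ∉ l` (`e ∈ E`, every element of `l` contains `E`; `e ∉ A` as `ω z e = 1`). For `T ∈ l`: `A ⊓ T = C' ⊓ T`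
(`c + d z ∈ T`, `e ∈ E ≤ T`: `0 = ω (c + d z) e = d`), and `C' ⊓ T` is a hyperplane of `C ⊓ T` (`e ∈ C ⊓ T`, `e ∉ C'`):
`finrank (A ⊓ T) + 1 = finrank (C ⊓ T)`. So if `C ⊓ T = E`: `finrank (A ⊓ T) + 3 = k`; if `finrank (C ⊓ T) + 1 = k`: `finrank (A ⊓ T) + 2 = k`, collinear (`b2_coll2`,
`far_iff`). If one pair at distance `3` were collinear, all would be (`coll_oppMod`, `far_iff`), and `A` would be collinear with all of `l`: contradiction
(`max_clique`). So `Coll B A T ↔ finrank (C ⊓ T) + 1 = k`.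
`b2eq_count`: suppose `U₀ ∈ l`, `finrank (C ⊓ U₀) + 1 = k`. `n₁ = #{T ∈ l | finrank (C ⊓ T) + 1 = k} = #{T ∈ l | Coll B A T} = α` (`count_eq`, collinear with `U₀`). `α ≤ s`
(`alpha_le`), so some `T ∈ l` has `C ⊓ T = E`, i.e. is collinear with `C`, and `#{T ∈ l | Coll B C T} = α` (`count_eq`), by `b2eq_near` this is `s + 1 - n₁`. So
`s + 1 = 2 α` and `n₁ = α`.
-/

open Module Submodule Finset

set_option linter.unusedSectionVars false

namespace Pool.Agent.Helper20.SI

open Pool.Agent.Helper29.FT Pool.Agent.Helper29.FT2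

variable {F V : Type*} [Field F] [AddCommGroup V] [Module F V] [FiniteDimensional F V]
variable {ω : LinearMap.BilinForm F V}

variable [Finite F] [DecidableEq (Submodule F V)] {B : Finset (Finset (Submodule F V))}
  {k α s t μ : ℕ}

theorem b2eq_count (hA : ω.IsAlt) (hN : ω.Nondegenerate) (hB : SpInvariant ω B)
    (hS : IsSPG (IsoGr ω k) B α s t μ) (hNL : NonLinear (IsoGr ω k) B) (hs : 2 ≤ s)
    {l : Finset (Submodule F V)} (hl : l ∈ B) {E : Submodule F V} (h : B2 ω k l E)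
    (hkn : 2 * k = finrank F V) (hk3 : 3 ≤ k) {C : Submodule F V} (dC : finrank F C = k)
    (tC : TI ω C) (hEC : E ≤ C) (hC : C ∉ l) {U : Submodule F V} (hU : U ∈ l)
    (hCU : finrank F (C ⊓ U : Submodule F V) + 1 = k) :
    s + 1 = 2 * α ∧ (∃ S : Finset (Submodule F V),
      (∀ T, T ∈ S ↔ T ∈ l ∧ finrank F (C ⊓ T : Submodule F V) + 1 = k) ∧ #S = α) := by
  -- `E` is contained in all the elements of `l`
  have hEl : ∀ T ∈ l, E ≤ T := by
    intro T hT
    obtain ⟨W, hW, hWT, _⟩ := exists_third hS hs hl T T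
    rw [← h.inf T hT W hW hWT.symm]
    exact inf_le_left
  have hcl := cl_of_line hB hS hl
  -- the vectors
  have hdE := h.dimE
  have hEne : E ≠ ⊥ := by
    intro h0
    rw [h0, finrank_bot] at hdE
    omega
  obtain ⟨e, heE, he0⟩ := Submodule.exists_mem_ne_zero_of_ne_bot hEne
  have he' : e ∉ (⊥ : Submodule F V) := by
    rw [Submodule.mem_bot]
    exact he0
  obtain ⟨v, -, hve⟩ := exists_pp hA hN he'
  have hve0 : ω v e ≠ 0 := by
    rw [hve]
    exact one_ne_zero
  have heC : e ∈ C := hEC heE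
  have hvC' : v ∈ pp ω (C ⊓ LinearMap.ker (ω v)) := by
    rw [mem_pp' hA]
    intro u hu
    exact LinearMap.mem_ker.mp hu.2
  have hvC : v ∉ C ⊓ LinearMap.ker (ω v) := fun hv => hve0 (tC v hv.1 e heC)
  set A : Submodule F V := (C ⊓ LinearMap.ker (ω v)) ⊔ span F {v} with hAdef
  have tA : TI ω A := ti_sup_span hA (tC.mono inf_le_left) hvC'
  have dA : finrank F A = k := by
    rw [hAdef, finrank_sup_span_singleton hvC, finrank_inf_ker heC hve0, dC]
  have hvA : v ∈ A := (le_sup_right : span F {v} ≤ A) (mem_span_singleton_self v)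
  have hAl : A ∉ l := fun hmem => hve0 (tA v hvA e (hEl A hmem heE))
  have hAT : ∀ T ∈ l, finrank F (A ⊓ T : Submodule F V) + 1 = finrank F (C ⊓ T : Submodule F V) := by
    intro T hT
    have heT : e ∈ T := hEl T hT heE
    have h1 : A ⊓ T = (C ⊓ T) ⊓ LinearMap.ker (ω v) := by
      apply le_antisymm
      · rintro a ⟨ha, haT⟩
        obtain ⟨c, hc, d, hd, rfl⟩ := mem_sup.mp ha
        obtain ⟨r, rfl⟩ := mem_span_singleton.mp hd
        have h2 : ω (c + r • v) e = 0 := hcl.ti T hT _ haT e heT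
        rw [map_add, LinearMap.add_apply, tC c hc.1 e heC, map_smul, LinearMap.smul_apply, hve,
          zero_add, smul_eq_mul, mul_one] at h2
        rw [h2, zero_smul, add_zero] at haT ⊢
        exact ⟨⟨hc.1, haT⟩, hc.2⟩
      · rintro a ⟨⟨haC, haT⟩, hk⟩
        exact ⟨(le_sup_left : C ⊓ LinearMap.ker (ω v) ≤ A) ⟨haC, hk⟩, haT⟩
    rw [h1]
    exact finrank_inf_ker (Submodule.mem_inf.mpr ⟨heC, heT⟩) hve0
  have hnear := fun T (hT : T ∈ l) => b2eq_near hA hN hB hS hNL hs hl h hkn dC tC hEC hC hT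
  have hcoll1 : ∀ T ∈ l, finrank F (C ⊓ T : Submodule F V) + 1 = k → Coll B A T := by
    intro T hT hTk
    have h1 := hAT T hT
    have h2 : finrank F (A ⊓ T : Submodule F V) + 2 = k := by omega
    exact b2_coll2 hA hN hB hS hl h
      ((far_iff hA hN hkn dA (hcl.dim T hT) tA (hcl.ti T hT)).mpr h2)
  have hAP : A ∈ IsoGr ω k := mem_IsoGr.mpr ⟨dA, tA⟩
  have hCP : C ∈ IsoGr ω k := mem_IsoGr.mpr ⟨dC, tC⟩
  have hopp3 : ∀ T ∈ l, C ⊓ T = E → OppMod ω k 3 A T := by
    intro T hT hTE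
    have h1 := hAT T hT
    rw [hTE] at h1
    have h2 : finrank F (A ⊓ T : Submodule F V) + 3 = k := by omega
    exact (far_iff hA hN hkn dA (hcl.dim T hT) tA (hcl.ti T hT)).mpr h2
  have hcoll2 : ∀ T ∈ l, (Coll B A T ↔ finrank F (C ⊓ T : Submodule F V) + 1 = k) := by
    intro T hT
    refine ⟨fun hco => ?_, hcoll1 T hT⟩
    rcases (hnear T hT).1 with h1 | h1
    · exfalso
      obtain ⟨T', hT', hn⟩ := max_clique hS hNL hl hAP hAl
      apply hn
      rcases (hnear T' hT').1 with h2 | h2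
      · exact coll_oppMod hA hN hB hco (hopp3 T hT h1) (hopp3 T' hT' h2)
      · exact hcoll1 T' hT' h2
    · exact h1
  have hAU : Coll B A U := hcoll1 U hU hCU
  have hcnt : #{T ∈ l | Coll B A T} = α := count_eq hS hAP hl hAl hU hAU
  have hαs : α ≤ s := alpha_le hS hNL hAP hl hAl hU hAU
  have hcard := hS.line_card l hl
  have hsplit := Finset.card_filter_add_card_filter_not (s := l) (fun T => Coll B A T)
  have hcompl : ({T ∈ l | ¬ Coll B A T} : Finset (Submodule F V)) = {T ∈ l | Coll B C T} := by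
    ext T
    rw [mem_filter, mem_filter]
    refine and_congr_right fun hT => ?_
    rw [hcoll2 T hT, (hnear T hT).2]
    constructor
    · intro h1
      exact (hnear T hT).1.resolve_right h1
    · intro h1 h2
      rw [h1] at h2
      omega
  rw [hcompl] at hsplit
  have hpos : 0 < #{T ∈ l | Coll B C T} := by omega
  obtain ⟨T, hT⟩ := card_pos.mp hpos
  rw [mem_filter] at hT
  have hcnt2 : #{T ∈ l | Coll B C T} = α := count_eq hS hCP hl hC hT.1 hT.2
  refine ⟨by omega, {T ∈ l | Coll B A T}, fun T => ?_, hcnt⟩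
  rw [mem_filter]
  exact and_congr_right fun hT => hcoll2 T hT

end Pool.Agent.Helper20.SI
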