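import Pool.Agent.Helper20.SI.CaseB

/-!
# SI-13 CaseB4: in case B with `dim E ≤ k - 2` the characteristic is two

Suppose `(2 : F) ≠ 0`. (M) If `U, W, T ∈ L` are different, `a ∈ U`, `a ∉ E`, `b ∈ W`, `b ∉ E`, `ω a b = 0`, then `g = ev (a, b)` moves `T`: else
`z = ω b t • a + ω a t • b ∈ T` for `t ∈ T`, and `ω z t = ω b t * ω a t + ω a t * ω b t = 2 ω a t ω b t = 0` for all `t ∈ T`; so `T` is the union of the
subspaces `T ⊓ ker (ω a)`, `T ⊓ ker (ω b)`, so `T ≤ ker (ω a)` or `T ≤ ker (ω b)`, so `a ∈ U ⊓ pp T = E` or `b ∈ W ⊓ pp T = E` (`caseB_i`),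
contradiction.
Now take different `U, W, T ∈ L` (`h3`; `L` has two elements by `h3` too), `a ∈ U \ E`, `b ∈ W \ E` with `ω a b = 0` (`W ⊓ ker (ω a)` has dimension
`≥ k - 1 > finrank E`), `T' = T.map g ∈ L` (`Cl.ev_cross`), `T' ≠ T` by (M), `T' ≠ W` (`g` fixes `W`). Take `a' ∈ T`, `ω b a' = 0`, `a' ∉ E`
(dimension). (M) for `T, W, T'` and `a', b`: `g' = ev (a', b)` moves `T'`. But for `t' = t + ω b t • a + ω a t • b ∈ T'`: `ω b t' = ω b t`
(`ω b a = 0`), `ω a' t' = ω a' t + ω b t * ω a' a + ω a t * ω a' b = ω b t * ω a' a`. So if `ω b t' = 0` then `ω a' t' = 0`: `g'` fixes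
`T' ⊓ ker (ω b)` pointwise, of dimension `≥ k - 1 > finrank E`; `T'.map g' ∈ L` (`Cl.ev_cross`), so `T'.map g' = T'` (else the intersection is `E`).
Contradiction.
-/

open Module Submodule Finset

set_option linter.unusedSectionVars false

namespace Pool.Agent.Helper20.SI

open Pool.Agent.Helper29.FT Pool.Agent.Helper29.FT2

variable {F V : Type*} [Field F] [AddCommGroup V] [Module F V] [FiniteDimensional F V]
variable {ω : LinearMap.BilinForm F V}

variable {k : ℕ} {L : Finset (Submodule F V)}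

private theorem CaseB4_M (hA : ω.IsAlt) (hN : ω.Nondegenerate) (hL : Cl ω k L)
    (h3 : ∀ U W : Submodule F V, ∃ T ∈ L, T ≠ U ∧ T ≠ W) {E : Submodule F V}
    (hE : ∀ U ∈ L, ∀ W ∈ L, U ≠ W → U ⊓ W = E) (hk : finrank F E + 2 ≤ k) (h2 : (2 : F) ≠ 0)
    {U W T : Submodule F V} (hU : U ∈ L) (hW : W ∈ L) (hT : T ∈ L) (hUT : U ≠ T) (hWT : W ≠ T)
    {a b : V} (ha : a ∈ U) (haE : a ∉ E) (hb : b ∈ W) (hbE : b ∉ E) (h : ω a b = 0) :
    T.map (ev hA h : V →ₗ[F] V) ≠ T := by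
  intro heq
  have h1 : ∀ t ∈ T, ω a t = 0 ∨ ω b t = 0 := by
    intro t ht
    have h4 : ev hA h t ∈ T := by
      rw [← heq]; exact Submodule.mem_map_of_mem ht
    rw [ev_apply] at h4
    have h5 := hL.ti T hT _ h4 t ht
    simp only [map_add, map_smul, LinearMap.add_apply, LinearMap.smul_apply, smul_eq_mul,
      self0 hA t] at h5
    have h6 : 2 * (ω a t * ω b t) = 0 := by rw [← h5]; ring
    rcases mul_eq_zero.mp h6 with h7 | h7
    · exact absurd h7 h2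
    · exact mul_eq_zero.mp h7
  have h8 : (∀ t ∈ T, ω a t = 0) ∨ ∀ t ∈ T, ω b t = 0 := by
    by_contra hcon
    push Not at hcon
    obtain ⟨⟨t, ht, hta⟩, s, hs, hsb⟩ := hcon
    have htb : ω b t = 0 := (h1 t ht).resolve_left hta
    have hsa : ω a s = 0 := (h1 s hs).resolve_right hsb
    rcases h1 (t + s) (T.add_mem ht hs) with h9 | h9
    · rw [map_add, hsa, add_zero] at h9; exact hta h9
    · rw [map_add, htb, zero_add] at h9; exact hsb h9
  rcases h8 with h9 | h9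
  · apply haE
    rw [← caseB_i hA hN hL h3 hE hk T hT U hU hUT.symm]
    exact ⟨ha, (mem_pp' hA).mpr h9⟩
  · apply hbE
    rw [← caseB_i hA hN hL h3 hE hk T hT W hW hWT.symm]
    exact ⟨hb, (mem_pp' hA).mpr h9⟩

private theorem CaseB4_ex {X E : Submodule F V} (h : finrank F E < finrank F X) :
    ∃ x ∈ X, x ∉ E := by
  by_contra hcon
  push Not at hcon
  have h1 : X ≤ E := hcon
  have h2 := Submodule.finrank_mono h1
  omega

theorem caseB_iv (hA : ω.IsAlt) (hN : ω.Nondegenerate) (hL : Cl ω k L)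
    (h3 : ∀ U W : Submodule F V, ∃ T ∈ L, T ≠ U ∧ T ≠ W) {E : Submodule F V}
    (hE : ∀ U ∈ L, ∀ W ∈ L, U ≠ W → U ⊓ W = E) (hk : finrank F E + 2 ≤ k) :
    (2 : F) = 0 := by
  by_contra h2
  obtain ⟨U, hU, -, -⟩ := h3 ⊥ ⊥
  obtain ⟨W, hW, hWU, -⟩ := h3 U U
  obtain ⟨T, hT, hTU, hTW⟩ := h3 U W
  obtain ⟨a, haU, haE⟩ := CaseB4_ex (X := U) (E := E) (by rw [hL.dim U hU]; omega)
  obtain ⟨b, hb, hbE⟩ := CaseB4_ex (X := W ⊓ LinearMap.ker (ω a)) (E := E) (by
    have := finrank_inf_ker_ge W (ω a)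
    rw [hL.dim W hW] at this
    omega)
  have hbW : b ∈ W := hb.1
  have hab : ω a b = 0 := LinearMap.mem_ker.mp hb.2
  have hT' : T.map (ev hA hab : V →ₗ[F] V) ∈ L :=
    hL.ev_cross hA hab hU hW hWU.symm haU hbW hT
  have hT'T : T.map (ev hA hab : V →ₗ[F] V) ≠ T :=
    CaseB4_M hA hN hL h3 hE hk h2 hU hW hT hTU.symm hTW.symm haU haE hbW hbE hab
  have hT'W : T.map (ev hA hab : V →ₗ[F] V) ≠ W := by
    intro h
    rw [← ev_fix_right hA hab (hL.ti W hW) hbW] at h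
    exact hTW (map_inj' _ (by rw [h, ev_fix_right hA hab (hL.ti W hW) hbW]))
  obtain ⟨a', ha', ha'E⟩ := CaseB4_ex (X := T ⊓ LinearMap.ker (ω b)) (E := E) (by
    have := finrank_inf_ker_ge T (ω b)
    rw [hL.dim T hT] at this
    omega)
  have ha'T : a' ∈ T := ha'.1
  have ha'b : ω a' b = 0 := swap0 hA (LinearMap.mem_ker.mp ha'.2)
  have hM : (T.map (ev hA hab : V →ₗ[F] V)).map (ev hA ha'b : V →ₗ[F] V) ≠
      T.map (ev hA hab : V →ₗ[F] V) :=
    CaseB4_M hA hN hL h3 hE hk h2 hT hW hT' hT'T.symm hT'W.symm ha'T ha'E hbW hbE ha'b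
  have hT'' : (T.map (ev hA hab : V →ₗ[F] V)).map (ev hA ha'b : V →ₗ[F] V) ∈ L :=
    hL.ev_cross hA ha'b hT hW hTW ha'T hbW hT'
  have hle : T.map (ev hA hab : V →ₗ[F] V) ⊓ LinearMap.ker (ω b) ≤ E := by
    rw [← hE _ hT' _ hT'' hM.symm]
    intro t' ht'
    refine ⟨ht'.1, ?_⟩
    have hbt' : ω b t' = 0 := LinearMap.mem_ker.mp ht'.2
    obtain ⟨t, ht, htt⟩ := ht'.1
    have htt' : t' = t + ω b t • a + ω a t • b := by rw [← htt]; rfl
    have hbt : ω b t = 0 := by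
      rw [htt'] at hbt'
      simp only [map_add, map_smul, smul_eq_mul, self0 hA b, swap0 hA hab, mul_zero,
        add_zero] at hbt'
      exact hbt'
    have ha't' : ω a' t' = 0 := by
      rw [htt']
      simp only [map_add, map_smul, smul_eq_mul, hbt, ha'b, hL.ti T hT a' ha'T t ht, mul_zero,
        zero_mul, add_zero]
    refine ⟨t', ht'.1, ?_⟩
    show ev hA ha'b t' = t'
    rw [ev_apply, hbt', ha't', zero_smul, zero_smul, add_zero, add_zero]
  have h4 := Submodule.finrank_mono hle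
  have h5 := finrank_inf_ker_ge (T.map (ev hA hab : V →ₗ[F] V)) (ω b)
  rw [hL.dim _ hT'] at h5
  omega

end Pool.Agent.Helper20.SI
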