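import Pool.Agent.Helper20.SI.B2eq2
import Pool.Agent.Helper20.SI.CaseB4

/-!
# SI-19 B2eq3: case B2 with `k = m ≥ 3` is impossible

Take `U ∈ l`, `p ∈ U \ E`, `Y = E ⊔ span {p}` of dimension `k - 1`, `a ∈ U`, `a ∉ Y`: `U = Y ⊔ span {a}`. `exists_pp` for `a ∉ Y`: `b ∈ pp Y`, `ω b a = 1`. For `c : F` put
`C_c = Y ⊔ span {b + c • a}`: totally isotropic, dimension `k` (`b + c a ∉ Y`: `ω (b + c a) a = 1`), `≠ U`; `C_c ⊓ U = Y`. The `C_c` are different and every totally
isotropic `C ≥ Y` of dimension `k`, `C ≠ U`, is one of them (`pp Y` has dimension `k + 1`, so `pp Y = Y ⊔ span {a} ⊔ span {b}`; a vector of `C` outside `Y` is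
`y + d b + c' a`, `d ≠ 0` as `C ≠ U`). `E ≤ Y ≤ C_c`, `C_c ∉ l` (`C_c ⊓ U = Y ≠ E`), `finrank (C_c ⊓ U) + 1 = k`. For `T ∈ l`, `T ≠ U` there is exactly one `c` with
`finrank (C_c ⊓ T) + 1 = k`: existence: `T ⊓ ker (ω p)` has dimension `k - 1` (`p ∉ T = pp T`, `finrank_inf_ker`), `C = (T ⊓ ker (ω p)) ⊔ span {p}` is totally isotropic of
dimension `k`, contains `E` and `p`, so `Y`, and is `≠ U` (`C ⊓ T` has dimension `≥ k - 1`, `U ⊓ T = E`). Uniqueness: if `finrank (C_c ⊓ T) + 1 = k`, then
`C_c ⊓ T ≤ T ⊓ ker (ω p)` (`p ∈ C_c`), so equal, so `C_c = (T ⊓ ker (ω p)) ⊔ span {p}`. So `l \ {U}` is the disjoint union over `c ∈ F` of `S_c \ {U}`, `S_c` of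
`b2eq_count`, `U ∈ S_c`: `s = q (α - 1)`, `q = Nat.card F`, and `s + 1 = 2 α`. With `x = α - 1`: `q x = 2 x + 1`, so `q` is odd (`x (q - 2) = 1`, `q = 3`). But by
`caseB_iv` (`Cl ω k l` by `cl_of_line`, `exists_third`) `(2 : F) = 0`, so `q` is even (the additive group of `F`: `addOrderOf (1 : F) = 2` divides `q`; or `q = 3` gives
`3 = 0` in `F`, `Nat.cast_card_eq_zero`/`FiniteField.cast_card_eq_zero`, so `1 = 0`). Contradiction.
-/

open Module Submodule Finset

set_option linter.unusedSectionVars false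

namespace Pool.Agent.Helper20.SI

open Pool.Agent.Helper29.FT Pool.Agent.Helper29.FT2

variable {F V : Type*} [Field F] [AddCommGroup V] [Module F V] [FiniteDimensional F V]
variable {ω : LinearMap.BilinForm F V}

/-- a totally isotropic subspace of maximal dimension is its own complement -/
private theorem b2eq3_pp (hA : ω.IsAlt) (hN : ω.Nondegenerate) {k : ℕ} {T : Submodule F V}
    (hkn : 2 * k = finrank F V) (dT : finrank F T = k) (tT : TI ω T) : pp ω T = T := by
  symm
  apply Submodule.eq_of_le_of_finrank_eq (ti_iff.mp tT)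
  have := finrank_pp hA hN T
  omega

private theorem b2eq3_arith {q x : ℕ} (h : q * x = 2 * x + 1) : q = 3 := by
  have h1 : x ∣ 2 * x + 1 := h ▸ dvd_mul_left x q
  have h2 : x ∣ 1 := (Nat.dvd_add_right (dvd_mul_left x 2)).mp h1
  have h3 : x = 1 := Nat.dvd_one.mp h2
  subst h3
  omega

variable [Finite F] [DecidableEq (Submodule F V)] {B : Finset (Finset (Submodule F V))}
  {k α s t μ : ℕ}

theorem b2_eq (hA : ω.IsAlt) (hN : ω.Nondegenerate) (hB : SpInvariant ω B)
    (hS : IsSPG (IsoGr ω k) B α s t μ) (hNL : NonLinear (IsoGr ω k) B) (hs : 2 ≤ s)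
    {l : Finset (Submodule F V)} (hl : l ∈ B) {E : Submodule F V} (h : B2 ω k l E)
    (hkn : 2 * k = finrank F V) (hk3 : 3 ≤ k) : False := by
  have hCl : Cl ω k l := cl_of_line hB hS hl
  have hE := h.dimE
  have hpp : ∀ T ∈ l, pp ω T = T := fun T hT => b2eq3_pp hA hN hkn (hCl.dim T hT) (hCl.ti T hT)
  have hET : ∀ T ∈ l, E ≤ T := by
    intro T hT
    obtain ⟨W, hW, hWT, -⟩ := exists_third hS hs hl T T
    rw [← h.inf T hT W hW hWT.symm]
    exact inf_le_left
  have h2 : (2 : F) = 0 := caseB_iv hA hN hCl (exists_third hS hs hl) h.inf (by omega)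
  obtain ⟨U, hU, -, -⟩ := exists_third hS hs hl E E
  have dU := hCl.dim U hU
  have tU := hCl.ti U hU
  have hEU := hET U hU
  have hEU' : E < U := lt_of_le_of_ne hEU (by
    rintro rfl
    omega)
  obtain ⟨p, hpU, hpE⟩ := SetLike.exists_of_lt hEU'
  obtain ⟨Y, hY⟩ : ∃ Y, Y = E ⊔ span F {p} := ⟨_, rfl⟩
  have dY : finrank F Y = finrank F E + 1 := by rw [hY, finrank_sup_span_singleton hpE]
  have hEY : E ≤ Y := by rw [hY]; exact le_sup_left
  have hpY : p ∈ Y := by
    rw [hY]
    exact le_sup_right (a := E) (mem_span_singleton_self p)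
  have hYU : Y ≤ U := by
    rw [hY]
    apply sup_le hEU
    rw [span_singleton_le_iff_mem]
    exact hpU
  have hYU' : Y < U := lt_of_le_of_ne hYU (by
    intro h1
    rw [h1] at dY
    omega)
  obtain ⟨a, haU, haY⟩ := SetLike.exists_of_lt hYU'
  have hUa : U = Y ⊔ span F {a} := by
    symm
    apply Submodule.eq_of_le_of_finrank_eq
    · apply sup_le hYU
      rw [span_singleton_le_iff_mem]
      exact haU
    · rw [finrank_sup_span_singleton haY]
      omega
  obtain ⟨b, hbY, hba⟩ := exists_pp hA hN haY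
  obtain ⟨C, hC⟩ : ∃ C : F → Submodule F V, ∀ c, C c = Y ⊔ span F {b + c • a} :=
    ⟨_, fun c => rfl⟩
  have hYC : ∀ c, Y ≤ C c := fun c => by rw [hC]; exact le_sup_left
  have hbc : ∀ c : F, b + c • a ∉ U := by
    intro c h1
    have h3 := tU _ h1 a haU
    rw [map_add, map_smul, LinearMap.add_apply, LinearMap.smul_apply, hba, self0 hA, smul_zero,
      add_zero] at h3
    exact one_ne_zero h3
  have hbC : ∀ c : F, b + c • a ∈ C c := fun c => by
    rw [hC]
    exact le_sup_right (a := Y) (mem_span_singleton_self _)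
  have dC : ∀ c, finrank F (C c) = k := fun c => by
    rw [hC, finrank_sup_span_singleton (fun h1 => hbc c (hYU h1))]
    omega
  have tC : ∀ c, TI ω (C c) := fun c => by
    rw [hC]
    apply ti_sup_span hA (tU.mono hYU)
    intro u hu
    rw [map_add, map_smul, hbY u hu, tU u (hYU hu) a haU, smul_zero, add_zero]
  have hCU : ∀ c, C c ⊓ U = Y := fun c => by
    symm
    apply Submodule.eq_of_le_of_finrank_eq (le_inf (hYC c) hYU)
    have h1 : C c ⊓ U < C c := lt_of_le_of_ne inf_le_left (fun h1 => by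
      have : C c ≤ U := inf_eq_left.mp h1
      exact hbc c (this (hbC c)))
    have h3 := Submodule.finrank_lt_finrank_of_lt h1
    have h4 := Submodule.finrank_mono (le_inf (hYC c) hYU)
    rw [dC] at h3
    omega
  have hYE : Y ≠ E := by
    intro h1
    rw [h1] at dY
    omega
  have hCl' : ∀ c, C c ∉ l := by
    intro c h1
    have h3 : C c ≠ U := fun h3 => hbc c (h3 ▸ hbC c)
    have h4 := h.inf _ h1 U hU h3
    rw [hCU] at h4
    exact hYE h4
  have hcount := fun c => b2eq_count hA hN hB hS hNL hs hl h hkn hk3 (dC c) (tC c)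
    (hEY.trans (hYC c)) (hCl' c) hU (by rw [hCU, dY]; omega)
  choose hα S hS1 hS2 using hcount
  have haC : ∀ c, a ∉ C c := by
    intro c h1
    apply haY
    rw [← hCU c]
    exact ⟨h1, haU⟩
  have hCinj : ∀ c c', C c = C c' → c = c' := by
    intro c c' hcc
    by_contra hne
    have h1 : b + c • a ∈ C c' := hcc ▸ hbC c
    have h3 := (C c').sub_mem h1 (hbC c')
    have h4 : (c - c') • a ∈ C c' := by
      have : (c - c') • a = b + c • a - (b + c' • a) := by
        rw [sub_smul]; abel
      rw [this]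
      exact h3
    rw [(C c').smul_mem_iff (sub_ne_zero.mpr hne)] at h4
    exact haC c' h4
  -- the key fact
  have key : ∀ T ∈ l, T ≠ U → ∃ D : Submodule F V,
      (∃ c, C c = D) ∧ finrank F (D ⊓ T : Submodule F V) + 1 = k ∧
      ∀ c, finrank F (C c ⊓ T : Submodule F V) + 1 = k → C c = D := by
    intro T hT hTU
    have dT := hCl.dim T hT
    have tT := hCl.ti T hT
    have hpT : p ∉ T := by
      intro h1
      apply hpE
      rw [← h.inf U hU T hT hTU.symm]
      exact ⟨hpU, h1⟩
    obtain ⟨x, hxT, hxp⟩ : ∃ x ∈ T, ω p x ≠ 0 := by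
      by_contra hcon
      push Not at hcon
      apply hpT
      rw [← hpp T hT, mem_pp' hA]
      exact hcon
    have dK := finrank_inf_ker hxT hxp
    obtain ⟨K, hK⟩ : ∃ K, K = T ⊓ LinearMap.ker (ω p) := ⟨_, rfl⟩
    rw [← hK] at dK
    have hKT : K ≤ T := by rw [hK]; exact inf_le_left
    have hpK : p ∉ K := fun h1 => hpT (hKT h1)
    obtain ⟨D, hD⟩ : ∃ D, D = K ⊔ span F {p} := ⟨_, rfl⟩
    have hKD : K ≤ D := by rw [hD]; exact le_sup_left
    have hpD : p ∈ D := by
      rw [hD]
      exact le_sup_right (a := K) (mem_span_singleton_self p)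
    have dD : finrank F D = k := by
      rw [hD, finrank_sup_span_singleton hpK]
      omega
    have tD : TI ω D := by
      rw [hD]
      apply ti_sup_span hA (tT.mono hKT)
      intro u hu
      rw [hK] at hu
      exact swap0 hA (LinearMap.mem_ker.mp hu.2)
    have hEK : E ≤ K := by
      rw [hK]
      apply le_inf (hET T hT)
      intro e he
      exact LinearMap.mem_ker.mpr (tU p hpU e (hEU he))
    have hYD : Y ≤ D := by
      rw [hY]
      apply sup_le (hEK.trans hKD)
      rw [span_singleton_le_iff_mem]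
      exact hpD
    have hDT : finrank F (D ⊓ T : Submodule F V) + 1 = k := by
      have h1 : D ⊓ T < D := lt_of_le_of_ne inf_le_left (fun h1 => by
        have : D ≤ T := inf_eq_left.mp h1
        exact hpT (this hpD))
      have h3 := Submodule.finrank_lt_finrank_of_lt h1
      have h4 := Submodule.finrank_mono (le_inf hKD hKT)
      rw [dD] at h3
      omega
    have hDU : D ≠ U := by
      intro h1
      rw [h1, h.inf U hU T hT hTU.symm] at hDT
      omega
    have hppD := b2eq3_pp hA hN hkn dD tD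
    refine ⟨D, ?_, hDT, ?_⟩
    · obtain ⟨d, hd, hda⟩ : ∃ d ∈ D, ω d a ≠ 0 := by
        by_contra hcon
        push Not at hcon
        apply hDU
        have h1 : a ∈ D := by
          rw [← hppD]
          exact hcon
        symm
        apply Submodule.eq_of_le_of_finrank_eq _ (by rw [dU, dD])
        rw [hUa]
        apply sup_le hYD
        rw [span_singleton_le_iff_mem]
        exact h1
      obtain ⟨d', hd', hda'⟩ : ∃ d' ∈ D, ω d' a = 1 := by
        refine ⟨(ω d a)⁻¹ • d, D.smul_mem _ hd, ?_⟩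
        rw [map_smul, LinearMap.smul_apply, smul_eq_mul, inv_mul_cancel₀ hda]
      have h1 : d' - b ∈ pp ω U := by
        rw [hUa, pp_sup]
        refine ⟨(pp ω Y).sub_mem (pp_anti hYD (ti_iff.mp tD hd')) hbY, ?_⟩
        apply mem_pp_span.mpr
        apply swap0 hA
        rw [map_sub, LinearMap.sub_apply, hda', hba, sub_self]
      rw [hpp U hU, hUa] at h1
      obtain ⟨y, hy, z, hz, hyz⟩ := mem_sup.mp h1
      obtain ⟨c, rfl⟩ := mem_span_singleton.mp hz
      refine ⟨c, ?_⟩
      apply Submodule.eq_of_le_of_finrank_eq _ (by rw [dC, dD])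
      rw [hC]
      apply sup_le hYD
      rw [span_singleton_le_iff_mem]
      have h3 : b + c • a = d' - y := by
        rw [eq_sub_iff_add_eq, add_assoc, add_comm (c • a) y, hyz]
        abel
      rw [h3]
      exact D.sub_mem hd' (hYD hy)
    · intro c hc
      have h1 : C c ⊓ T ≤ K := by
        rw [hK]
        apply le_inf inf_le_right
        intro z hz
        exact LinearMap.mem_ker.mpr (tC c p (hYC c hpY) z hz.1)
      have h3 : C c ⊓ T = K := Submodule.eq_of_le_of_finrank_eq h1 (by omega)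
      symm
      apply Submodule.eq_of_le_of_finrank_eq _ (by rw [dC, dD])
      rw [hD]
      apply sup_le
      · rw [← h3]
        exact inf_le_left
      · rw [span_singleton_le_iff_mem]
        exact hYC c hpY
  -- counting
  have : Fintype F := Fintype.ofFinite F
  have hUS : ∀ c, U ∈ S c := by
    intro c
    rw [hS1]
    refine ⟨hU, ?_⟩
    rw [hCU, dY]
    omega
  have hunion : l.erase U = Finset.univ.biUnion (fun c : F => (S c).erase U) := by
    ext T
    rw [mem_erase, mem_biUnion]
    constructor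
    · rintro ⟨hTU, hT⟩
      obtain ⟨D, ⟨c, hc⟩, hD, -⟩ := key T hT hTU
      refine ⟨c, mem_univ c, ?_⟩
      rw [mem_erase, hS1]
      exact ⟨hTU, hT, by rw [hc]; exact hD⟩
    · rintro ⟨c, -, hc⟩
      rw [mem_erase, hS1] at hc
      exact ⟨hc.1, hc.2.1⟩
  have hcard : #(l.erase U) = Fintype.card F * (α - 1) := by
    rw [hunion, card_biUnion]
    · rw [sum_congr rfl (fun c _ => by rw [card_erase_of_mem (hUS c), hS2 c]), sum_const,
        card_univ, smul_eq_mul]
    · intro c _ c' _ hcc
      show Disjoint ((S c).erase U) ((S c').erase U)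
      rw [Finset.disjoint_left]
      intro T hT hT'
      rw [mem_erase, hS1] at hT hT'
      obtain ⟨D, -, -, hD⟩ := key T hT.2.1 hT.1
      exact hcc (hCinj c c' ((hD c hT.2.2).trans (hD c' hT'.2.2).symm))
  rw [card_erase_of_mem hU, hS.line_card l hl, Nat.add_sub_cancel] at hcard
  have hα0 := hα 0
  have hα1 := hS.α_pos
  have hq : Fintype.card F = 3 := by
    apply b2eq3_arith (x := α - 1)
    rw [← hcard]
    omega
  have h3 : ((Fintype.card F : ℕ) : F) = 0 := Nat.cast_card_eq_zero F
  rw [hq] at h3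
  have h4 : (1 : F) = 0 := by
    have h5 : ((3 : ℕ) : F) = 2 + 1 := by norm_num
    rw [h5, h2, zero_add] at h3
    exact h3
  exact one_ne_zero h4

end Pool.Agent.Helper20.SI
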