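import Pool.Agent.Helper20.SI.B2Defs

/-!
# SI-14 B2lt1: case B2 with `k < m`: `α = s`

Any two different elements `U, W` of `l` are `OppMod 2` and collinear, so (`coll_oppMod`) all pairs `OppMod 2` are collinear.
Take `U ≠ W` in `l`, `X = U ⊔ W`, `finrank X = k + 2`; `finrank (pp X) = n - k - 2 ≥ k > finrank E`, so there is `y ∈ pp X`, `y ∉ E`.
`y ∉ X`: `X ⊓ pp X = E`: if `u + w ∈ pp X` then for all `u' ∈ U`: `ω u' w = ω u' (u + w) = 0`, so `w ∈ W ⊓ pp U = E`, likewise
`u ∈ U ⊓ pp W = E`. Take `p ∈ U \ E`, `x ∈ U`, `x ∉ E ⊔ span {p}`: `U = E ⊔ span {p} ⊔ span {x}`. `A = E ⊔ span {p} ⊔ span {x + y}`: totally isotropic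
(`y ∈ pp X ≤ pp U`), of dimension `k` (`x + y ∉ X`), not in `l` (`A` is not `≤ X`, `B2.le`; or `p ∈ A ⊓ U`). For `T ∈ l`, `T ≠ U`:
`OppMod 2 T A`: `A ⊓ pp T`: an element `e + c p + d (x + y)` orthogonal to `T ≤ X` gives `e + c p + d x ∈ U ⊓ pp T = E`, so `c = d = 0`; so
`A ⊓ pp T = E = T ⊓ A` (`E ≤ T`; `T ⊓ A ≤ A ⊓ pp T`). So `A` is collinear with all `T ∈ l`, `T ≠ U`: at least `s` of the `s + 1` elements, so
`s ≤ #{c ∈ l | Coll B A c} = α ≤ s` (`count_eq`, `alpha_le`).
-/

open Module Submodule Finset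

set_option linter.unusedSectionVars false

namespace Pool.Agent.Helper20.SI

open Pool.Agent.Helper29.FT Pool.Agent.Helper29.FT2

variable {F V : Type*} [Field F] [AddCommGroup V] [Module F V] [FiniteDimensional F V]
variable {ω : LinearMap.BilinForm F V}

variable [Finite F] [DecidableEq (Submodule F V)] {B : Finset (Finset (Submodule F V))}
  {k α s t μ : ℕ}

private theorem B2lt1_opp (hS : IsSPG (IsoGr ω k) B α s t μ) {l : Finset (Submodule F V)}
    (hl : l ∈ B) {E : Submodule F V} (h : B2 ω k l E) {U W : Submodule F V} (hU : U ∈ l)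
    (hW : W ∈ l) (hne : U ≠ W) : OppMod ω k 2 U W := by
  have h1 := mem_IsoGr.mp (hS.lines_sub l hl hU)
  have h2 := mem_IsoGr.mp (hS.lines_sub l hl hW)
  refine ⟨h1.1, h2.1, h1.2, h2.2, ?_, ?_⟩
  · rw [h.inf U hU W hW hne]
    exact h.dimE
  · rw [h.opp U hU W hW hne, h.inf U hU W hW hne]

theorem b2_coll2 (hA : ω.IsAlt) (hN : ω.Nondegenerate) (hB : SpInvariant ω B)
    (hS : IsSPG (IsoGr ω k) B α s t μ) {l : Finset (Submodule F V)} (hl : l ∈ B)
    {E : Submodule F V} (h : B2 ω k l E) {A C : Submodule F V} (hAC : OppMod ω k 2 A C) :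
    Coll B A C := by
  have h1 : 1 < #l := by
    have h2 := hS.line_card l hl
    have h3 := hS.s_pos
    omega
  obtain ⟨U, hU, W, hW, hne⟩ := Finset.one_lt_card.1 h1
  exact coll_oppMod hA hN hB (⟨hne, l, hl, hU, hW⟩ : Coll B U W)
    (B2lt1_opp hS hl h hU hW hne) hAC

theorem b2lt_alpha (hA : ω.IsAlt) (hN : ω.Nondegenerate) (hB : SpInvariant ω B)
    (hS : IsSPG (IsoGr ω k) B α s t μ) (hNL : NonLinear (IsoGr ω k) B) (hs : 2 ≤ s)
    {l : Finset (Submodule F V)} (hl : l ∈ B) {E : Submodule F V} (h : B2 ω k l E)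
    (hkn : 2 * k + 2 ≤ finrank F V) : α = s := by
  have h1 : 1 < #l := by
    have h2 := hS.line_card l hl
    have h3 := hS.s_pos
    omega
  obtain ⟨U, hU, W, hW, hne⟩ := Finset.one_lt_card.1 h1
  have hUW := B2lt1_opp hS hl h hU hW hne
  have hE := h.inf U hU W hW hne
  have hEU : E ≤ U := by
    rw [← hE]
    exact inf_le_left
  have hdE := h.dimE
  have hdU := hUW.dU
  have hdW := hUW.dW
  have htU := hUW.tU
  have htW := hUW.tW
  have hX : finrank F (U ⊔ W : Submodule F V) = k + 2 := by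
    have h2 := Submodule.finrank_sup_add_finrank_inf_eq U W
    rw [hE] at h2
    omega
  have hUX : U ≤ U ⊔ W := le_sup_left
  -- a vector orthogonal to `X`
  obtain ⟨y, hy, hyE⟩ : ∃ y ∈ pp ω (U ⊔ W), y ∉ E := by
    apply SetLike.not_le_iff_exists.mp
    intro hle
    have h2 := Submodule.finrank_mono hle
    have h3 := finrank_pp hA hN (U ⊔ W)
    omega
  have hyX : y ∉ U ⊔ W := by
    intro hyX
    apply hyE
    obtain ⟨u, hu, w, hw, rfl⟩ := mem_sup.mp hyX
    have h2 : w ∈ E := by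
      rw [← h.opp U hU W hW hne]
      refine mem_inf.mpr ⟨hw, fun u' hu' => ?_⟩
      have h3 := hy u' (hUX hu')
      rwa [map_add, htU u' hu' u hu, zero_add] at h3
    have h3 : u ∈ E := by
      rw [← h.opp W hW U hU hne.symm]
      refine mem_inf.mpr ⟨hu, fun w' hw' => ?_⟩
      have h3 := hy w' ((le_sup_right : W ≤ U ⊔ W) hw')
      rwa [map_add, htW w' hw' w hw, add_zero] at h3
    exact E.add_mem h3 h2
  -- the space `E1 = E ⊔ span {p}`
  obtain ⟨p, hp, hpE⟩ : ∃ p ∈ U, p ∉ E := by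
    apply SetLike.not_le_iff_exists.mp
    intro hle
    have h2 := Submodule.finrank_mono hle
    omega
  obtain ⟨E1, hE1⟩ : ∃ E1, E1 = E ⊔ span F {p} := ⟨_, rfl⟩
  have hE1d : finrank F E1 = finrank F E + 1 := by
    rw [hE1]
    exact finrank_sup_span_singleton hpE
  have hE1U : E1 ≤ U := by
    rw [hE1]
    refine sup_le hEU ?_
    rw [span_singleton_le_iff_mem]
    exact hp
  have hEE1 : E ≤ E1 := by
    rw [hE1]
    exact le_sup_left
  have hpE1 : p ∈ E1 := by
    rw [hE1]
    exact (le_sup_right : span F {p} ≤ E ⊔ span F {p}) (mem_span_singleton_self p)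
  obtain ⟨x, hx, hxE1⟩ : ∃ x ∈ U, x ∉ E1 := by
    apply SetLike.not_le_iff_exists.mp
    intro hle
    have h2 := Submodule.finrank_mono hle
    omega
  have hxyX : x + y ∉ U ⊔ W := by
    intro h2
    apply hyX
    have h3 := (U ⊔ W).sub_mem h2 (hUX hx)
    rwa [add_sub_cancel_left] at h3
  -- the space `A`
  obtain ⟨A, hAd⟩ : ∃ A, A = E1 ⊔ span F {x + y} := ⟨_, rfl⟩
  have hxyA : x + y ∈ A := by
    rw [hAd]
    exact (le_sup_right : span F {x + y} ≤ E1 ⊔ span F {x + y}) (mem_span_singleton_self _)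
  have hE1A : E1 ≤ A := by
    rw [hAd]
    exact le_sup_left
  have hdA : finrank F A = k := by
    rw [hAd, finrank_sup_span_singleton (fun h2 => hxyX (hUX (hE1U h2)))]
    omega
  have htA : TI ω A := by
    rw [hAd]
    refine ti_sup_span hA (htU.mono hE1U) fun u hu => ?_
    rw [map_add, htU u (hE1U hu) x hx, hy u (hUX (hE1U hu)), add_zero]
  have hAl : A ∉ l := by
    intro hAl
    have h2 : A ≠ U := by
      rintro rfl
      exact hxyX (hUX hxyA)
    apply hpE
    rw [← h.inf A hAl U hU h2]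
    exact mem_inf.mpr ⟨hE1A hpE1, hp⟩
  have hAI : A ∈ IsoGr ω k := mem_IsoGr.mpr ⟨hdA, htA⟩
  have key : ∀ T ∈ l, T ≠ U → Coll B A T := by
    intro T hT hTU
    have h2 := mem_IsoGr.mp (hS.lines_sub l hl hT)
    have hTX : T ≤ U ⊔ W := h.le U hU W hW hne T hT
    have hET : E ≤ T := by
      rw [← h.inf T hT U hU hTU]
      exact inf_le_left
    have h3 : A ⊓ pp ω T = E := by
      apply le_antisymm
      · rintro z ⟨hzA, hzT⟩
        rw [SetLike.mem_coe, hAd, Submodule.mem_sup] at hzA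
        obtain ⟨e, he, w, hw, rfl⟩ := hzA
        obtain ⟨c, rfl⟩ := mem_span_singleton.mp hw
        have h4 : e + c • x ∈ E := by
          rw [← h.opp T hT U hU hTU]
          refine mem_inf.mpr ⟨U.add_mem (hE1U he) (U.smul_mem _ hx), fun t ht => ?_⟩
          have h5 := hzT t ht
          rw [map_add, map_smul, map_add, hy t (hTX ht), add_zero] at h5
          rw [map_add, map_smul]
          exact h5
        have h5 : c • x ∈ E1 := by
          have h6 := E1.sub_mem (hEE1 h4) he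
          rwa [add_sub_cancel_left] at h6
        have h6 : c = 0 := by
          by_contra hc
          exact hxE1 ((E1.smul_mem_iff hc).mp h5)
        rw [h6, zero_smul, add_zero] at h4
        rw [h6, zero_smul, add_zero]
        exact h4
      · exact le_inf (hEE1.trans hE1A) (hET.trans (ti_iff.mp h2.2))
    have h4 : T ⊓ A = E := by
      apply le_antisymm
      · rw [← h3]
        exact le_inf inf_le_right (inf_le_left.trans (ti_iff.mp h2.2))
      · exact le_inf hET (hEE1.trans hE1A)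
    have h5 : OppMod ω k 2 T A := by
      refine ⟨h2.1, hdA, h2.2, htA, ?_, ?_⟩
      · rw [h4]
        exact hdE
      · rw [h3, h4]
    exact (b2_coll2 hA hN hB hS hl h h5).symm
  have hAW := key W hW hne.symm
  have h2 := count_eq hS hAI hl hAl hW hAW
  have h3 := alpha_le hS hNL hAI hl hAl hW hAW
  have h4 : l.erase U ⊆ {c ∈ l | Coll B A c} := by
    intro T hT
    rw [mem_erase] at hT
    exact mem_filter.mpr ⟨hT.2, key T hT.2 hT.1⟩
  have h5 := card_le_card h4
  rw [card_erase_of_mem hU, hS.line_card l hl] at h5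
  omega

end Pool.Agent.Helper20.SI
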