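import Pool.Agent.Helper20.SI.B2Defs

/-!
# SI-15 B2swap: an isometry that fixes `A` and exchanges two members

`E` totally isotropic, `y, y', u, v, w, w' ∈ pp E`; `κ = ω y y' ≠ 0`, `λ = ω u v ≠ 0`, `ω w w' = - κ`; `y, y'` are orthogonal to `u, v`, and `w, w'` to
`y, y', u, v`. Quarter turn for `ω a b = κ ≠ 0`:
`ρ x = x + κ⁻¹ • (ω x b • (b - a) - ω a x • (a + b))`; `ρ a = b`, `ρ b = -a`, `ρ x = x` if `ω a x = ω b x = 0`; isometry:
write `A = ω a x`, `B = ω b x` (so `ω x b = -B`), `ρ x = x - κ⁻¹ • (B • (b - a) + A • (a + b))`; with `A', B'` for `y`: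
`ω (ρ x) (ρ y) = ω x y - κ⁻¹ (B' (ω x b - ω x a) + A' (ω x a + ω x b)) - κ⁻¹ (B (ω b y - ω a y) + A (ω a y + ω b y)) + κ⁻² ω (B (b-a) + A (a+b)) (B' (b-a) + A' (a+b))`,
`ω (b-a) (a+b) = -2κ`..: all cancels (`linear_combination` after `simp`), bijective: `ρ` has the inverse with `b ↦ a ↦ -b`, or injective
as an isometry of a nondegenerate form (`LinearEquiv.ofInjectiveEndo`). (Or take the product of three transvections with centres
`a, b, a`: `sv κ⁻¹ a ∘ sv κ⁻¹ b ∘ sv κ⁻¹ a`: `sv (κ⁻¹) a b = b + a`, `sv κ⁻¹ a a = a`, `sv κ⁻¹ b a = a - b`: so `a ↦ a ↦ a - b ↦ a - b - a = -b` and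
`b ↦ b + a ↦ b + a - b = a ↦ a`: this is a quarter turn `a ↦ -b`, `b ↦ a`, and all needed facts are immediate. Use this one for the three pairs
`(y, y')`, `(u, v)`, `(w, w')`: `y ↦ -y'`, `y' ↦ y`, `u ↦ -v`, `v ↦ u`, `w ↦ -w'`, `w' ↦ w`.)
The product `g` of the three quarter turns fixes `E` pointwise and maps `y + w ↦ -(y' + w')`, `y' + w' ↦ y + w`, `y ↦ -y'`, `u ↦ -v`.
-/

open Module Submodule Finset

set_option linter.unusedSectionVars false

namespace Pool.Agent.Helper20.SI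

open Pool.Agent.Helper29.FT Pool.Agent.Helper29.FT2

variable {F V : Type*} [Field F] [AddCommGroup V] [Module F V] [FiniteDimensional F V]
variable {ω : LinearMap.BilinForm F V}

private theorem exists_qt (hA : ω.IsAlt) {a b : V} (h : ω a b ≠ 0) :
    ∃ g : V ≃ₗ[F] V, Iso ω g ∧ g a = -b ∧ g b = a ∧ ∀ x, ω a x = 0 → ω b x = 0 → g x = x := by
  have haa : ∀ c : F, sv hA c a a = a := by
    intro c
    rw [sv_apply, self0 hA, mul_zero, zero_smul, add_zero]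
  have hbb : ∀ c : F, sv hA c b b = b := by
    intro c
    rw [sv_apply, self0 hA, mul_zero, zero_smul, add_zero]
  have hab : sv hA (ω a b)⁻¹ a b = b + a := by
    rw [sv_apply, inv_mul_cancel₀ h, one_smul]
  have hba : sv hA (ω a b)⁻¹ b a = a - b := by
    rw [sv_apply, swap hA b a, mul_neg, inv_mul_cancel₀ h, neg_smul, one_smul, sub_eq_add_neg]
  refine ⟨sv hA (ω a b)⁻¹ a * sv hA (ω a b)⁻¹ b * sv hA (ω a b)⁻¹ a,
    ((iso_sv hA _ _).mul (iso_sv hA _ _)).mul (iso_sv hA _ _), ?_, ?_, ?_⟩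
  · change sv hA (ω a b)⁻¹ a (sv hA (ω a b)⁻¹ b (sv hA (ω a b)⁻¹ a a)) = -b
    rw [haa, hba, map_sub, haa, hab]
    abel
  · change sv hA (ω a b)⁻¹ a (sv hA (ω a b)⁻¹ b (sv hA (ω a b)⁻¹ a b)) = a
    rw [hab, map_add, hbb, hba, add_sub_cancel, haa]
  · intro x hx hx'
    change sv hA (ω a b)⁻¹ a (sv hA (ω a b)⁻¹ b (sv hA (ω a b)⁻¹ a x)) = x
    have e1 : sv hA (ω a b)⁻¹ a x = x := by rw [sv_apply, hx, mul_zero, zero_smul, add_zero]
    have e2 : sv hA (ω a b)⁻¹ b x = x := by rw [sv_apply, hx', mul_zero, zero_smul, add_zero]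
    rw [e1, e2, e1]

private theorem span_neg' (x : V) : span F {-x} = span F {x} := by
  apply le_antisymm
  · rw [span_singleton_le_iff_mem]
    exact neg_mem (mem_span_singleton_self x)
  · rw [span_singleton_le_iff_mem]
    have h := neg_mem (mem_span_singleton_self (R := F) (-x))
    rwa [neg_neg] at h

theorem exists_swap (hA : ω.IsAlt) (hN : ω.Nondegenerate) {E : Submodule F V}
    {y y' u v w w' : V} (hy : y ∈ pp ω E) (hy' : y' ∈ pp ω E) (hu : u ∈ pp ω E)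
    (hv : v ∈ pp ω E) (hw : w ∈ pp ω E) (hw' : w' ∈ pp ω E) (h1 : ω y y' ≠ 0)
    (h2 : ω u v ≠ 0) (h3 : ω w w' = - ω y y') (h4 : ω y u = 0) (h5 : ω y v = 0)
    (h6 : ω y' u = 0) (h7 : ω y' v = 0) (h8 : ω w y = 0) (h9 : ω w y' = 0) (h10 : ω w u = 0)
    (h11 : ω w v = 0) (h12 : ω w' y = 0) (h13 : ω w' y' = 0) (h14 : ω w' u = 0)
    (h15 : ω w' v = 0) :
    ∃ g : V ≃ₗ[F] V, Iso ω g ∧
      (E ⊔ span F {y} ⊔ span F {u}).map (g : V →ₗ[F] V) = E ⊔ span F {y'} ⊔ span F {v} ∧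
      (E ⊔ span F {y + w} ⊔ span F {y' + w'}).map (g : V →ₗ[F] V) =
        E ⊔ span F {y + w} ⊔ span F {y' + w'} := by
  have _hN := hN
  have h3' : ω w w' ≠ 0 := by
    rw [h3]
    exact neg_ne_zero.mpr h1
  obtain ⟨g1, i1, a1, b1, c1⟩ := exists_qt hA h1
  obtain ⟨g2, i2, a2, b2, c2⟩ := exists_qt hA h2
  obtain ⟨g3, i3, a3, b3, c3⟩ := exists_qt hA h3'
  have gy : g1 (g2 (g3 y)) = -y' := by
    rw [c3 y h8 h12, c2 y (swap0 hA h4) (swap0 hA h5), a1]
  have gy' : g1 (g2 (g3 y')) = y := by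
    rw [c3 y' h9 h13, c2 y' (swap0 hA h6) (swap0 hA h7), b1]
  have gu : g1 (g2 (g3 u)) = -v := by
    rw [c3 u h10 h14, a2, map_neg, c1 v h5 h7]
  have gw : g1 (g2 (g3 w)) = -w' := by
    rw [a3, map_neg, c2 w' (swap0 hA h14) (swap0 hA h15), map_neg, c1 w' (swap0 hA h12)
      (swap0 hA h13)]
  have gw' : g1 (g2 (g3 w')) = w := by
    rw [b3, c2 w (swap0 hA h10) (swap0 hA h11), c1 w (swap0 hA h8) (swap0 hA h9)]
  have gE : E.map ((g1 * g2 * g3 : V ≃ₗ[F] V) : V →ₗ[F] V) = E := by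
    apply map_fix
    intro x hx
    change g1 (g2 (g3 x)) = x
    rw [c3 x ((mem_pp' hA).mp hw x hx) ((mem_pp' hA).mp hw' x hx),
      c2 x ((mem_pp' hA).mp hu x hx) ((mem_pp' hA).mp hv x hx),
      c1 x ((mem_pp' hA).mp hy x hx) ((mem_pp' hA).mp hy' x hx)]
  have gspan : ∀ x z : V, g1 (g2 (g3 x)) = z →
      (span F {x}).map ((g1 * g2 * g3 : V ≃ₗ[F] V) : V →ₗ[F] V) = span F {z} := by
    intro x z hxz
    rw [Submodule.map_span, Set.image_singleton]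
    have e : ((g1 * g2 * g3 : V ≃ₗ[F] V) : V →ₗ[F] V) x = z := hxz
    rw [e]
  refine ⟨g1 * g2 * g3, (i1.mul i2).mul i3, ?_, ?_⟩
  · rw [Submodule.map_sup, Submodule.map_sup, gE, gspan y _ gy, gspan u _ gu, span_neg', span_neg']
  · rw [Submodule.map_sup, Submodule.map_sup, gE, gspan (y + w) (-(y' + w')) (by
      rw [map_add, map_add, map_add, gy, gw, neg_add]), gspan (y' + w') (y + w) (by
      rw [map_add, map_add, map_add, gy', gw']), span_neg', sup_assoc, sup_assoc,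
      sup_comm (span F {y' + w'})]

end Pool.Agent.Helper20.SI
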