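import Pool.Agent.Helper20.SI.B2lt1
import Pool.Agent.Helper20.SI.B2swap

/-!
# SI-16 B2lt2: case B2 with `k < m` is impossible

`α = s` (`b2lt_alpha`). Take different `U, W, T ∈ l` (`exists_third`), `X = U ⊔ W`, `X ⊓ pp X = E` (see SI-14), `finrank X = k + 2`. Fix `z ∈ W`, `z ∉ E`.
CHOICE of `y ∈ U` with `ω y z ≠ 0` and `T ⊓ (E ⊔ span {y} ⊔ span {z}) = E`: `z ∉ pp U` (`W ⊓ pp U = E`), so some `y₁ ∈ U` has `ω y₁ z ≠ 0`;
`U ⊓ ker (ω z)` has dimension `k - 1`: take `y₀` in it, `y₀ ∉ E`; `y₂ = y₁ + y₀`, `ω y₂ z ≠ 0`, and `y₁, y₂` are independent modulo `E`. For `i = 1, 2`: if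
`T ⊓ (E ⊔ span {y_i} ⊔ span {z}) ≠ E` it contains `e + c y_i + d z` not in `E`; `c ≠ 0` (else `z ∈ T ⊓ W = E`...) so `y_i + d_i z ∈ T` (scale; `E ≤ T`).
If this holds for both: `d₂ (y₁ + d₁ z) - d₁ (y₂ + d₂ z) = d₂ y₁ - d₁ y₂ ∈ T ⊓ U = E`, so `d₁ = d₂ = 0`, so `y₁ ∈ T ⊓ U = E`, contradiction.
Choose `w, w' ∈ pp X` with `ω w w' = - ω y z`: `pp X` is not totally isotropic (`finrank (pp X) = n - k - 2 ≥ k`, `pp X ⊓ pp (pp X) = pp X ⊓ X = E` has
dimension `k - 2`), scale. `A = E ⊔ span {y + w} ⊔ span {z + w'}`: totally isotropic of dimension `k`; not `≤ X` (else `w, w' ∈ X ⊓ pp X = E`, `ω w w' = 0`), so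
`A ∉ l`. For `T_i ∈ l` put `N_i = T_i ⊓ (E ⊔ span {y} ⊔ span {z})`.
(1) `N_i = E`: `OppMod 2 T_i A`, so collinear (`b2_coll2`): if `e + c (y + w) + d (z + w') ∈ pp T_i` then (`T_i ≤ X`) `c y + d z ∈ X ⊓ pp T_i = T_i`
(`finrank (pp T_i ⊓ X)`: `T_i ≤ X ⊓ pp T_i`, `pp (X ⊓ pp T_i) ≥ ..`; `X ⊓ pp T_i` has dimension `k`: if `x ∈ X ⊓ pp T_i`, write `X = T_i ⊔ T_j` for another `T_j ∈ l`
(`T_i ⊔ T_j ≤ X` by `B2.le`, same dimension `k + 2`), `x = t + t'`, `t' ∈ T_j ⊓ pp T_i = E`, so `x ∈ T_i`), so `c = d = 0`.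
(2) `N_i, N_j ≠ E`, `i ≠ j`: `(A, T_i)` is collinear iff `(A, T_j)` is: take `y_i ∈ N_i \ E` and `y_j ∈ N_j \ E` of the form `c y + d z` (subtract the `E` part), they are
independent (`T_i ⊓ T_j = E`), so `span {y_i, y_j} = span {y, z}` and `ω y_i y_j ≠ 0`; `w_i, w_j` the same combinations of `w, w'`: `ω w_i w_j = - ω y_i y_j`,
`A = E ⊔ span {y_i + w_i} ⊔ span {y_j + w_j}`. Take `u ∈ T_i ⊓ ker (ω y_j)`, `u ∉ E` (dimension `≥ k - 1`); `u ∉ E ⊔ span {y_i}` (`ω y_j y_i ≠ 0`), so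
`T_i = E ⊔ span {y_i} ⊔ span {u}`; likewise `v ∈ T_j`, `ω y_i v = 0`, `T_j = E ⊔ span {y_j} ⊔ span {v}`; `ω u v ≠ 0` (else `u ∈ T_i ⊓ pp T_j = E`).
`exists_swap` maps `T_i ↦ T_j`, `A ↦ A`: `coll_map`.
`U` and `W` are of the second kind. If all of the second kind are collinear with `A`, `A` contradicts `max_clique`. Otherwise none is, and at least two points of `l` are not
collinear with `A`: `α = #{c ∈ l | Coll B A c} ≤ s - 1` (`count_eq` with `T`, which is of the first kind). Contradiction.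
-/

open Module Submodule Finset

set_option linter.unusedSectionVars false

namespace Pool.Agent.Helper20.SI

open Pool.Agent.Helper29.FT Pool.Agent.Helper29.FT2

variable {F V : Type*} [Field F] [AddCommGroup V] [Module F V] [FiniteDimensional F V]
variable {ω : LinearMap.BilinForm F V}

section

variable {k : ℕ}

theorem b2lt2_mem {E : Submodule F V} {a b x : V} :
    x ∈ E ⊔ span F {a} ⊔ span F {b} ↔ ∃ e ∈ E, ∃ c d : F, x = e + c • a + d • b := by
  constructor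
  · intro hx
    obtain ⟨p, hp, q, hq, rfl⟩ := mem_sup.mp hx
    obtain ⟨e, he, r, hr, rfl⟩ := mem_sup.mp hp
    obtain ⟨d, rfl⟩ := mem_span_singleton.mp hq
    obtain ⟨c, rfl⟩ := mem_span_singleton.mp hr
    exact ⟨e, he, c, d, rfl⟩
  · rintro ⟨e, he, c, d, rfl⟩
    refine add_mem (mem_sup_left (add_mem (mem_sup_left he) (mem_sup_right ?_))) (mem_sup_right ?_)
    · exact Submodule.smul_mem _ _ (mem_span_singleton_self a)
    · exact Submodule.smul_mem _ _ (mem_span_singleton_self b)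

/-- the data used in the two cases -/
structure B2lt2C (ω : LinearMap.BilinForm F V) (k : ℕ) (l : Finset (Submodule F V))
    (E X : Submodule F V) (y z w w' : V) : Prop where
  b2 : B2 ω k l E
  cl : Cl ω k l
  EX : ∀ e ∈ E, e ∈ X
  inf : ∀ x ∈ X, x ∈ pp ω X → x ∈ E
  hy : y ∈ X
  hz : z ∈ X
  Ey : ∀ e ∈ E, ω e y = 0
  Ez : ∀ e ∈ E, ω e z = 0
  yz : ω y z ≠ 0
  hw : w ∈ pp ω X
  hw' : w' ∈ pp ω X
  ww : ω w w' = - ω y z
  le : ∀ T ∈ l, ∀ x ∈ T, x ∈ X
  ET : ∀ T ∈ l, ∀ e ∈ E, e ∈ T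
  TX : ∀ T ∈ l, ∀ x ∈ X, x ∈ pp ω T → x ∈ T
  tE : TI ω E

/-- a combination of `w, w'` in `X` is trivial -/
theorem B2lt2C.key (hA : ω.IsAlt) {l : Finset (Submodule F V)} {E X : Submodule F V}
    {y z w w' : V} (h : B2lt2C ω k l E X y z w w') {c d : F} (hx : c • w + d • w' ∈ X) :
    c = 0 ∧ d = 0 := by
  have h1 : c • w + d • w' ∈ E :=
    h.inf _ hx (add_mem (Submodule.smul_mem _ _ h.hw) (Submodule.smul_mem _ _ h.hw'))
  have h2 := h.hw _ (h.EX _ h1)
  have h3 := h.hw' _ (h.EX _ h1)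
  have hww : ω w w' ≠ 0 := by
    rw [h.ww]
    exact neg_ne_zero.mpr h.yz
  rw [map_add, map_smul, map_smul, LinearMap.add_apply, LinearMap.smul_apply,
    LinearMap.smul_apply, self0 hA, smul_zero, zero_add, smul_eq_mul, swap hA w' w, mul_neg,
    neg_eq_zero] at h2
  rw [map_add, map_smul, map_smul, LinearMap.add_apply, LinearMap.smul_apply,
    LinearMap.smul_apply, self0 hA, smul_zero, add_zero, smul_eq_mul] at h3
  exact ⟨(mul_eq_zero.mp h3).resolve_right hww, (mul_eq_zero.mp h2).resolve_right hww⟩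

/-- a combination of `y, z` in `E` is trivial -/
theorem B2lt2C.key2 (hA : ω.IsAlt) {l : Finset (Submodule F V)} {E X : Submodule F V}
    {y z w w' : V} (h : B2lt2C ω k l E X y z w w') {c d : F} (hx : c • y + d • z ∈ E) :
    c = 0 ∧ d = 0 := by
  have h2 := h.Ey _ hx
  have h3 := h.Ez _ hx
  rw [map_add, map_smul, map_smul, LinearMap.add_apply, LinearMap.smul_apply,
    LinearMap.smul_apply, self0 hA, smul_zero, zero_add, smul_eq_mul, swap hA z y, mul_neg,
    neg_eq_zero] at h2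
  rw [map_add, map_smul, map_smul, LinearMap.add_apply, LinearMap.smul_apply,
    LinearMap.smul_apply, self0 hA, smul_zero, add_zero, smul_eq_mul] at h3
  exact ⟨(mul_eq_zero.mp h3).resolve_right h.yz, (mul_eq_zero.mp h2).resolve_right h.yz⟩

theorem B2lt2C.notMem (hA : ω.IsAlt) {l : Finset (Submodule F V)} {E X : Submodule F V}
    {y z w w' : V} (h : B2lt2C ω k l E X y z w w') {T : Submodule F V} (hT : ∀ x ∈ T, x ∈ X) :
    E ⊔ span F {y + w} ⊔ span F {z + w'} ≠ T := by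
  intro hAT
  have h1 : y + w ∈ E ⊔ span F {y + w} ⊔ span F {z + w'} :=
    mem_sup_left (mem_sup_right (mem_span_singleton_self _))
  rw [hAT] at h1
  have h2 : (1 : F) • w + (0 : F) • w' ∈ X := by
    have h3 := sub_mem (hT _ h1) h.hy
    rw [add_sub_cancel_left] at h3
    rw [one_smul, zero_smul, add_zero]
    exact h3
  exact one_ne_zero (h.key hA h2).1

theorem B2lt2C.ti (hA : ω.IsAlt) {l : Finset (Submodule F V)} {E X : Submodule F V}
    {y z w w' : V} (h : B2lt2C ω k l E X y z w w') :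
    TI ω (E ⊔ span F {y + w} ⊔ span F {z + w'}) := by
  have hEw : ∀ e ∈ E, ω e w = 0 := fun e he => h.hw e (h.EX e he)
  have hEw' : ∀ e ∈ E, ω e w' = 0 := fun e he => h.hw' e (h.EX e he)
  refine ti_sup_span hA (ti_sup_span hA h.tE ?_) ?_
  · intro e he
    rw [map_add, h.Ey e he, hEw e he, add_zero]
  · intro x hx
    obtain ⟨e, he, q, hq, rfl⟩ := mem_sup.mp hx
    obtain ⟨c, rfl⟩ := mem_span_singleton.mp hq
    simp only [map_add, map_smul, LinearMap.add_apply, LinearMap.smul_apply, smul_eq_mul,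
      h.Ez e he, hEw' e he, h.ww, h.hw' y h.hy, swap0 hA (h.hw z h.hz)]
    ring

theorem B2lt2C.dim (hA : ω.IsAlt) {l : Finset (Submodule F V)} {E X : Submodule F V}
    {y z w w' : V} (h : B2lt2C ω k l E X y z w w') :
    finrank F (E ⊔ span F {y + w} ⊔ span F {z + w'} : Submodule F V) = k := by
  have h1 : y + w ∉ E := by
    intro h1
    have h2 : (1 : F) • w + (0 : F) • w' ∈ X := by
      have h3 := sub_mem (h.EX _ h1) h.hy
      rw [add_sub_cancel_left] at h3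
      rw [one_smul, zero_smul, add_zero]
      exact h3
    exact one_ne_zero (h.key hA h2).1
  have h2 : z + w' ∉ E ⊔ span F {y + w} := by
    intro h2
    obtain ⟨e, he, q, hq, he2⟩ := mem_sup.mp h2
    obtain ⟨c, rfl⟩ := mem_span_singleton.mp hq
    have h3 : (-c) • w + (1 : F) • w' ∈ X := by
      have h4 : (-c) • w + (1 : F) • w' = e + c • y - z := by
        have h5 : w' = e + c • (y + w) - z := by
          rw [he2]
          abel
        rw [h5]
        module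
      rw [h4]
      exact sub_mem (add_mem (h.EX _ he) (Submodule.smul_mem _ _ h.hy)) h.hz
    exact one_ne_zero (h.key hA h3).2
  rw [finrank_sup_span_singleton h2, finrank_sup_span_singleton h1]
  have := h.b2.dimE
  omega

/-- members of the first kind -/
theorem B2lt2C.first (hA : ω.IsAlt) {l : Finset (Submodule F V)} {E X : Submodule F V}
    {y z w w' : V} (h : B2lt2C ω k l E X y z w w') {T : Submodule F V} (hT : T ∈ l)
    (hT1 : ∀ x ∈ T, x ∈ E ⊔ span F {y} ⊔ span F {z} → x ∈ E) :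
    OppMod ω k 2 T (E ⊔ span F {y + w} ⊔ span F {z + w'}) := by
  have hAE : ∀ x ∈ E ⊔ span F {y + w} ⊔ span F {z + w'}, x ∈ pp ω T → x ∈ E := by
    intro x hx hxT
    obtain ⟨e, he, c, d, rfl⟩ := b2lt2_mem.mp hx
    have h1 : e + c • y + d • z ∈ T := by
      refine h.TX T hT _ ?_ ?_
      · exact add_mem (add_mem (h.EX _ he) (Submodule.smul_mem _ _ h.hy))
          (Submodule.smul_mem _ _ h.hz)
      · intro u hu
        have h2 := hxT u hu
        have h3 := h.hw u (h.le T hT u hu)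
        have h4 := h.hw' u (h.le T hT u hu)
        simp only [map_add, map_smul, smul_eq_mul, h3, h4, add_zero] at h2 ⊢
        exact h2
    have h2 := hT1 _ h1 (b2lt2_mem.mpr ⟨e, he, c, d, rfl⟩)
    have h3 : c • y + d • z ∈ E := by
      have h4 := sub_mem h2 he
      have h5 : e + c • y + d • z - e = c • y + d • z := by abel
      rwa [h5] at h4
    obtain ⟨rfl, rfl⟩ := h.key2 hA h3
    rw [zero_smul, zero_smul, add_zero, add_zero]
    exact he
  have e1 : (E ⊔ span F {y + w} ⊔ span F {z + w'}) ⊓ pp ω T = E := by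
    apply le_antisymm
    · intro x hx
      exact hAE x hx.1 hx.2
    · intro x hx
      exact ⟨mem_sup_left (mem_sup_left hx), ti_iff.mp (h.cl.ti T hT) (h.ET T hT x hx)⟩
  have e2 : T ⊓ (E ⊔ span F {y + w} ⊔ span F {z + w'}) = E := by
    apply le_antisymm
    · intro x hx
      exact hAE x hx.2 (ti_iff.mp (h.cl.ti T hT) hx.1)
    · intro x hx
      exact ⟨h.ET T hT x hx, mem_sup_left (mem_sup_left hx)⟩
  refine ⟨h.cl.dim T hT, h.dim hA, h.cl.ti T hT, h.ti hA, ?_, ?_⟩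
  · rw [e2]
    exact h.b2.dimE
  · rw [e1, e2]

/-- normal form of a member of the second kind -/
theorem B2lt2C.second {l : Finset (Submodule F V)} {E X : Submodule F V}
    {y z w w' : V} (h : B2lt2C ω k l E X y z w w') {T : Submodule F V} (hT : T ∈ l)
    (hT1 : ¬ ∀ x ∈ T, x ∈ E ⊔ span F {y} ⊔ span F {z} → x ∈ E) :
    ∃ c d : F, c • y + d • z ∈ T ∧ c • y + d • z ∉ E := by
  push Not at hT1
  obtain ⟨x, hx, hxY, hxE⟩ := hT1
  obtain ⟨e, he, c, d, rfl⟩ := b2lt2_mem.mp hxY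
  have h5 : e + c • y + d • z - e = c • y + d • z := by abel
  refine ⟨c, d, ?_, ?_⟩
  · have h4 := sub_mem hx (h.ET T hT e he)
    rwa [h5] at h4
  · intro h6
    apply hxE
    have h7 := add_mem he h6
    rwa [← add_assoc] at h7

theorem b2lt2_exists {E T : Submodule F V} (hd : finrank F E + 2 = finrank F T) (f : Dual F V) :
    ∃ u ∈ T, f u = 0 ∧ u ∉ E := by
  by_contra hcon
  push Not at hcon
  have h1 : T ⊓ LinearMap.ker f ≤ E := fun x hx => hcon x hx.1 (LinearMap.mem_ker.mp hx.2)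
  have h2 := Submodule.finrank_mono h1
  have h3 := finrank_inf_ker_ge T f
  omega

theorem b2lt2_span {E T : Submodule F V} (hd : finrank F E + 2 = finrank F T) (hE : E ≤ T)
    {a b : V} (ha : a ∈ T) (hb : b ∈ T) (haE : a ∉ E) (hbE : b ∉ E ⊔ span F {a}) :
    E ⊔ span F {a} ⊔ span F {b} = T := by
  apply Submodule.eq_of_le_of_finrank_eq
  · refine sup_le (sup_le hE ?_) ?_
    · rwa [span_singleton_le_iff_mem]
    · rwa [span_singleton_le_iff_mem]
  · rw [finrank_sup_span_singleton hbE, finrank_sup_span_singleton haE]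
    omega

/-- members of the second kind are exchanged -/
theorem B2lt2C.swap (hA : ω.IsAlt) (hN : ω.Nondegenerate) {l : Finset (Submodule F V)}
    {E X : Submodule F V} {y z w w' : V} (h : B2lt2C ω k l E X y z w w') {T T' : Submodule F V}
    (hT : T ∈ l) (hT' : T' ∈ l) (hTT : T ≠ T')
    (hT1 : ¬ ∀ x ∈ T, x ∈ E ⊔ span F {y} ⊔ span F {z} → x ∈ E)
    (hT1' : ¬ ∀ x ∈ T', x ∈ E ⊔ span F {y} ⊔ span F {z} → x ∈ E) :
    ∃ g : V ≃ₗ[F] V, Iso ω g ∧ T.map (g : V →ₗ[F] V) = T' ∧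
      (E ⊔ span F {y + w} ⊔ span F {z + w'}).map (g : V →ₗ[F] V) =
        E ⊔ span F {y + w} ⊔ span F {z + w'} := by
  obtain ⟨c, d, h1, h1E⟩ := h.second hT hT1
  obtain ⟨c', d', h2, h2E⟩ := h.second hT' hT1'
  have hinf : ∀ x, x ∈ T → x ∈ T' → x ∈ E := by
    intro x hx hx'
    rw [← h.b2.inf T hT T' hT' hTT]
    exact ⟨hx, hx'⟩
  have hδ : c * d' - d * c' ≠ 0 := by
    intro hδ
    have e1 : d' • (c • y + d • z) = d • (c' • y + d' • z) := by
      have : (c * d' - d * c') • y = 0 := by rw [hδ, zero_smul]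
      rw [← sub_eq_zero, ← this]
      module
    have e2 : c' • (c • y + d • z) = c • (c' • y + d' • z) := by
      have : (-(c * d' - d * c')) • z = 0 := by rw [hδ, neg_zero, zero_smul]
      rw [← sub_eq_zero, ← this]
      module
    have m1 : d' • (c • y + d • z) ∈ E := by
      refine hinf _ (Submodule.smul_mem _ _ h1) ?_
      rw [e1]
      exact Submodule.smul_mem _ _ h2
    have m2 : c' • (c • y + d • z) ∈ E := by
      refine hinf _ (Submodule.smul_mem _ _ h1) ?_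
      rw [e2]
      exact Submodule.smul_mem _ _ h2
    have z1 : d' = 0 := by
      by_contra hne
      exact h1E ((E.smul_mem_iff hne).mp m1)
    have z2 : c' = 0 := by
      by_contra hne
      exact h1E ((E.smul_mem_iff hne).mp m2)
    apply h2E
    rw [z1, z2, zero_smul, zero_smul, add_zero]
    exact E.zero_mem
  have hyy : ω (c • y + d • z) (c' • y + d' • z) = (c * d' - d * c') * ω y z := by
    simp only [map_add, map_smul, LinearMap.add_apply, LinearMap.smul_apply, smul_eq_mul,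
      self0 hA]
    rw [SI.swap hA z y]
    ring
  have hww : ω (c • w + d • w') (c' • w + d' • w') = - ω (c • y + d • z) (c' • y + d' • z) := by
    rw [hyy]
    simp only [map_add, map_smul, LinearMap.add_apply, LinearMap.smul_apply, smul_eq_mul,
      self0 hA]
    rw [SI.swap hA w' w, h.ww]
    ring
  have hyne : ω (c • y + d • z) (c' • y + d' • z) ≠ 0 := by
    rw [hyy]
    exact mul_ne_zero hδ h.yz
  have dT : finrank F E + 2 = finrank F T := by rw [h.cl.dim T hT, h.b2.dimE]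
  have dT' : finrank F E + 2 = finrank F T' := by rw [h.cl.dim T' hT', h.b2.dimE]
  obtain ⟨u, hu, hu0, huE⟩ := b2lt2_exists dT (ω (c' • y + d' • z))
  obtain ⟨v, hv, hv0, hvE⟩ := b2lt2_exists dT' (ω (c • y + d • z))
  have tT := h.cl.ti T hT
  have tT' := h.cl.ti T' hT'
  have ET := h.ET T hT
  have ET' := h.ET T' hT'
  have huE2 : u ∉ E ⊔ span F {c • y + d • z} := by
    intro hmem
    obtain ⟨e, he, q, hq, he2⟩ := mem_sup.mp hmem
    obtain ⟨a, rfl⟩ := mem_span_singleton.mp hq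
    have h3 : ω (c' • y + d' • z) e = 0 := tT' _ h2 _ (ET' e he)
    rw [← he2, map_add, map_smul, h3, zero_add, smul_eq_mul] at hu0
    have h4 : a = 0 := by
      refine (mul_eq_zero.mp hu0).resolve_right ?_
      rw [SI.swap hA]
      exact neg_ne_zero.mpr hyne
    apply huE
    rw [← he2, h4, zero_smul, add_zero]
    exact he
  have hvE2 : v ∉ E ⊔ span F {c' • y + d' • z} := by
    intro hmem
    obtain ⟨e, he, q, hq, he2⟩ := mem_sup.mp hmem
    obtain ⟨a, rfl⟩ := mem_span_singleton.mp hq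
    have h3 : ω (c • y + d • z) e = 0 := tT _ h1 _ (ET e he)
    rw [← he2, map_add, map_smul, h3, zero_add, smul_eq_mul] at hv0
    have h4 : a = 0 := (mul_eq_zero.mp hv0).resolve_right hyne
    apply hvE
    rw [← he2, h4, zero_smul, add_zero]
    exact he
  have eT : E ⊔ span F {c • y + d • z} ⊔ span F {u} = T := b2lt2_span dT ET h1 hu h1E huE2
  have eT' : E ⊔ span F {c' • y + d' • z} ⊔ span F {v} = T' := b2lt2_span dT' ET' h2 hv h2E hvE2
  have huv : ω u v ≠ 0 := by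
    intro h0
    apply huE
    rw [← h.b2.opp T' hT' T hT hTT.symm]
    refine ⟨hu, ?_⟩
    intro x hx
    rw [← eT'] at hx
    obtain ⟨e, he, a, b, rfl⟩ := b2lt2_mem.mp hx
    rw [map_add, map_add, map_smul, map_smul, LinearMap.add_apply, LinearMap.add_apply,
      LinearMap.smul_apply, LinearMap.smul_apply, tT _ (ET e he) _ hu, hu0, swap0 hA h0]
    simp
  have pE : ∀ S ∈ l, ∀ x ∈ S, x ∈ pp ω E := fun S hS x hx e he =>
    h.cl.ti S hS e (h.ET S hS e he) x hx
  have wX : ∀ a b : F, ∀ x ∈ X, ω x (a • w + b • w') = 0 := by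
    intro a b x hx
    rw [map_add, map_smul, map_smul, h.hw x hx, h.hw' x hx, smul_zero, smul_zero, add_zero]
  have wE : ∀ a b : F, a • w + b • w' ∈ pp ω E := fun a b e he => wX a b e (h.EX e he)
  have leT := h.le T hT
  have leT' := h.le T' hT'
  obtain ⟨g, hg, g1, g2⟩ := exists_swap hA hN (E := E) (y := c • y + d • z)
    (y' := c' • y + d' • z) (u := u) (v := v) (w := c • w + d • w') (w' := c' • w + d' • w')
    (pE T hT _ h1) (pE T' hT' _ h2) (pE T hT _ hu) (pE T' hT' _ hv) (wE _ _) (wE _ _) hyne huv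
    hww (tT _ h1 _ hu) hv0 hu0 (tT' _ h2 _ hv) (swap0 hA (wX _ _ _ (leT _ h1)))
    (swap0 hA (wX _ _ _ (leT' _ h2))) (swap0 hA (wX _ _ _ (leT _ hu)))
    (swap0 hA (wX _ _ _ (leT' _ hv))) (swap0 hA (wX _ _ _ (leT _ h1)))
    (swap0 hA (wX _ _ _ (leT' _ h2))) (swap0 hA (wX _ _ _ (leT _ hu)))
    (swap0 hA (wX _ _ _ (leT' _ hv)))
  have eA : E ⊔ span F {c • y + d • z + (c • w + d • w')} ⊔
      span F {c' • y + d' • z + (c' • w + d' • w')} = E ⊔ span F {y + w} ⊔ span F {z + w'} := by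
    apply le_antisymm
    · intro x hx
      obtain ⟨e, he, a, b, rfl⟩ := b2lt2_mem.mp hx
      refine b2lt2_mem.mpr ⟨e, he, a * c + b * c', a * d + b * d', ?_⟩
      module
    · intro x hx
      obtain ⟨e, he, a, b, rfl⟩ := b2lt2_mem.mp hx
      obtain ⟨δ, hδe⟩ : ∃ δ, δ = c * d' - d * c' := ⟨_, rfl⟩
      rw [← hδe] at hδ
      refine b2lt2_mem.mpr ⟨e, he, (a * d' - b * c') / δ, (b * c - a * d) / δ, ?_⟩
      have k1 : (a * d' - b * c') / δ * c + (b * c - a * d) / δ * c' = a := by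
        rw [div_mul_eq_mul_div, div_mul_eq_mul_div, ← add_div, div_eq_iff hδ, hδe]
        ring
      have k2 : (a * d' - b * c') / δ * d + (b * c - a * d) / δ * d' = b := by
        rw [div_mul_eq_mul_div, div_mul_eq_mul_div, ← add_div, div_eq_iff hδ, hδe]
        ring
      have k3 : e + ((a * d' - b * c') / δ) • (c • y + d • z + (c • w + d • w')) +
          ((b * c - a * d) / δ) • (c' • y + d' • z + (c' • w + d' • w')) =
          e + ((a * d' - b * c') / δ * c + (b * c - a * d) / δ * c') • (y + w) +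
          ((a * d' - b * c') / δ * d + (b * c - a * d) / δ * d') • (z + w') := by
        module
      rw [k3, k1, k2]
  rw [eT, eT'] at g1
  rw [eA] at g2
  exact ⟨g, hg, g1, g2⟩

/-- the choice of `y` and `z` -/
theorem b2lt2_choose (hA : ω.IsAlt) {l : Finset (Submodule F V)} {E : Submodule F V}
    (h : B2 ω k l E) (hcl : Cl ω k l) {U W T : Submodule F V} (hU : U ∈ l) (hW : W ∈ l)
    (hT : T ∈ l) (hUW : U ≠ W) (hTU : T ≠ U) (hTW : T ≠ W) :
    ∃ y ∈ U, ∃ z ∈ W, ω y z ≠ 0 ∧ ∀ x ∈ T, x ∈ E ⊔ span F {y} ⊔ span F {z} → x ∈ E := by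
  have EU : ∀ e ∈ E, e ∈ U := by
    rw [← h.inf U hU W hW hUW]
    exact fun e he => he.1
  have EW : ∀ e ∈ E, e ∈ W := by
    rw [← h.inf U hU W hW hUW]
    exact fun e he => he.2
  have ET : ∀ e ∈ E, e ∈ T := by
    rw [← h.inf T hT W hW hTW]
    exact fun e he => he.1
  have iTW : ∀ x, x ∈ T → x ∈ W → x ∈ E := by
    intro x hx hx'
    rw [← h.inf T hT W hW hTW]
    exact ⟨hx, hx'⟩
  have iTU : ∀ x, x ∈ T → x ∈ U → x ∈ E := by
    intro x hx hx'
    rw [← h.inf T hT U hU hTU]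
    exact ⟨hx, hx'⟩
  have tU := hcl.ti U hU
  have tW := hcl.ti W hW
  have dU : finrank F E + 2 = finrank F U := by rw [hcl.dim U hU, h.dimE]
  have dW : finrank F E + 2 = finrank F W := by rw [hcl.dim W hW, h.dimE]
  obtain ⟨z, hz, -, hzE⟩ := b2lt2_exists dW 0
  have hzU : ¬ ∀ y ∈ U, ω y z = 0 := by
    intro h0
    apply hzE
    rw [← h.opp U hU W hW hUW]
    exact ⟨hz, h0⟩
  push Not at hzU
  obtain ⟨y₁, hy₁, hyz₁⟩ := hzU
  obtain ⟨y₀, hy₀, hyz₀, hyE₀⟩ := b2lt2_exists dU (ω z)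
  have hyz₂ : ω (y₁ + y₀) z ≠ 0 := by
    rw [map_add, LinearMap.add_apply, swap0 hA hyz₀, add_zero]
    exact hyz₁
  by_contra hcon
  push Not at hcon
  have hgen : ∀ y ∈ U, ω y z ≠ 0 → ∃ d : F, y + d • z ∈ T := by
    intro y hy hyz
    obtain ⟨x, hx, hxY, hxE⟩ := hcon y hy z hz hyz
    obtain ⟨e, he, c, d, rfl⟩ := b2lt2_mem.mp hxY
    have h1 : c • y + d • z ∈ T := by
      have h2 := sub_mem hx (ET e he)
      have h3 : e + c • y + d • z - e = c • y + d • z := by abel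
      rwa [h3] at h2
    have hc : c ≠ 0 := by
      rintro rfl
      rw [zero_smul, zero_add] at h1
      apply hxE
      rw [zero_smul, add_zero]
      exact add_mem he (iTW _ h1 (Submodule.smul_mem _ _ hz))
    refine ⟨c⁻¹ * d, ?_⟩
    have h4 := Submodule.smul_mem T c⁻¹ h1
    rw [smul_add, smul_smul, smul_smul, inv_mul_cancel₀ hc, one_smul] at h4
    exact h4
  obtain ⟨d₁, hd₁⟩ := hgen y₁ hy₁ hyz₁
  obtain ⟨d₂, hd₂⟩ := hgen (y₁ + y₀) (add_mem hy₁ hy₀) hyz₂
  have h1 : (d₂ - d₁) • y₁ - d₁ • y₀ ∈ E := by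
    apply iTU
    · have h2 := sub_mem (Submodule.smul_mem T d₂ hd₁) (Submodule.smul_mem T d₁ hd₂)
      have h3 : d₂ • (y₁ + d₁ • z) - d₁ • (y₁ + y₀ + d₂ • z) = (d₂ - d₁) • y₁ - d₁ • y₀ := by
        module
      rwa [h3] at h2
    · exact sub_mem (Submodule.smul_mem _ _ hy₁) (Submodule.smul_mem _ _ hy₀)
  have h2 : d₂ - d₁ = 0 := by
    have h3 : ω ((d₂ - d₁) • y₁ - d₁ • y₀) z = 0 := tW _ (EW _ h1) _ hz
    rw [map_sub, map_smul, map_smul, LinearMap.sub_apply, LinearMap.smul_apply,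
      LinearMap.smul_apply, swap0 hA hyz₀, smul_zero, sub_zero, smul_eq_mul] at h3
    exact (mul_eq_zero.mp h3).resolve_right hyz₁
  have h3 : d₁ = 0 := by
    by_contra hne
    rw [h2, zero_smul, zero_sub, neg_mem_iff] at h1
    exact hyE₀ ((E.smul_mem_iff hne).mp h1)
  rw [h3, zero_smul, add_zero] at hd₁
  exact hyz₁ (tW _ (EW _ (iTU _ hd₁ hy₁)) _ hz)

/-- the choice of `w` and `w'` -/
theorem b2lt2_w (hA : ω.IsAlt) (hN : ω.Nondegenerate) {X E : Submodule F V}
    (hX : ∀ x ∈ X, x ∈ pp ω X → x ∈ E) (hd : finrank F E + finrank F X < finrank F V) (κ : F) :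
    ∃ w ∈ pp ω X, ∃ w' ∈ pp ω X, ω w w' = κ := by
  by_contra hcon
  push Not at hcon
  have h1 : ∀ a ∈ pp ω X, ∀ b ∈ pp ω X, ω a b = 0 := by
    intro a ha b hb
    by_contra hne
    apply hcon a ha ((κ / ω a b) • b) (Submodule.smul_mem _ _ hb)
    rw [map_smul, smul_eq_mul, div_mul_cancel₀ _ hne]
  have h2 : pp ω X ≤ E := by
    intro x hx
    refine hX x ?_ hx
    rw [← pp_pp hA hN X]
    intro u hu
    exact h1 u hu x hx
  have h3 := Submodule.finrank_mono h2
  have h4 := finrank_pp hA hN X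
  omega

end

variable [Finite F] [DecidableEq (Submodule F V)] {B : Finset (Finset (Submodule F V))}
  {k α s t μ : ℕ}

theorem b2_lt (hA : ω.IsAlt) (hN : ω.Nondegenerate) (hB : SpInvariant ω B)
    (hS : IsSPG (IsoGr ω k) B α s t μ) (hNL : NonLinear (IsoGr ω k) B) (hs : 2 ≤ s)
    {l : Finset (Submodule F V)} (hl : l ∈ B) {E : Submodule F V} (h : B2 ω k l E)
    (hkn : 2 * k + 2 ≤ finrank F V) : False := by
  have hα : α = s := b2lt_alpha hA hN hB hS hNL hs hl h hkn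
  have hcl := cl_of_line hB hS hl
  have hne : 0 < #l := by
    rw [hS.line_card l hl]
    omega
  obtain ⟨U, hU⟩ := card_pos.mp hne
  obtain ⟨W, hW, hWU, -⟩ := exists_third hS hs hl U U
  obtain ⟨T, hT, hTU, hTW⟩ := exists_third hS hs hl U W
  obtain ⟨y, hy, z, hz, hyz, hTY⟩ := b2lt2_choose hA h hcl hU hW hT hWU.symm hTU hTW
  have hdim : ∀ S ∈ l, ∀ S' ∈ l, S ≠ S' → finrank F (S ⊔ S' : Submodule F V) = k + 2 := by
    intro S hS1 S' hS2 hne
    have h1 := Submodule.finrank_sup_add_finrank_inf_eq S S'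
    rw [h.inf S hS1 S' hS2 hne, hcl.dim S hS1, hcl.dim S' hS2] at h1
    have h2 := h.dimE
    omega
  have hsup : ∀ S ∈ l, ∀ S' ∈ l, S ≠ S' → S ⊔ S' = U ⊔ W := by
    intro S hS1 S' hS2 hne
    apply Submodule.eq_of_le_of_finrank_eq
    · exact sup_le (h.le U hU W hW hWU.symm S hS1) (h.le U hU W hW hWU.symm S' hS2)
    · rw [hdim S hS1 S' hS2 hne, hdim U hU W hW hWU.symm]
  have hother : ∀ S ∈ l, ∃ S' ∈ l, S' ≠ S := by
    intro S _
    obtain ⟨S', h1, h2, -⟩ := exists_third hS hs hl S S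
    exact ⟨S', h1, h2⟩
  have hET : ∀ S ∈ l, ∀ e ∈ E, e ∈ S := by
    intro S hS1
    obtain ⟨S', hS2, hne⟩ := hother S hS1
    rw [← h.inf S hS1 S' hS2 hne.symm]
    exact fun e he => he.1
  have hinf : ∀ x ∈ U ⊔ W, x ∈ pp ω (U ⊔ W) → x ∈ E := by
    intro x hx hxp
    rw [pp_sup] at hxp
    obtain ⟨a, ha, b, hb, rfl⟩ := mem_sup.mp hx
    refine add_mem ?_ ?_
    · rw [← h.opp W hW U hU hWU]
      refine ⟨ha, fun u hu => ?_⟩
      have h1 := hxp.2 u hu
      rw [map_add, hcl.ti W hW u hu b hb, add_zero] at h1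
      exact h1
    · rw [← h.opp U hU W hW hWU.symm]
      refine ⟨hb, fun u hu => ?_⟩
      have h1 := hxp.1 u hu
      rw [map_add, hcl.ti U hU u hu a ha, zero_add] at h1
      exact h1
  have hTX : ∀ S ∈ l, ∀ x ∈ U ⊔ W, x ∈ pp ω S → x ∈ S := by
    intro S hS1 x hx hxp
    obtain ⟨S', hS2, hne⟩ := hother S hS1
    rw [← hsup S hS1 S' hS2 hne.symm] at hx
    obtain ⟨a, ha, b, hb, rfl⟩ := mem_sup.mp hx
    refine add_mem ha (hET S hS1 b ?_)
    rw [← h.opp S hS1 S' hS2 hne.symm]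
    refine ⟨hb, fun u hu => ?_⟩
    have h1 := hxp u hu
    rw [map_add, hcl.ti S hS1 u hu a ha, zero_add] at h1
    exact h1
  obtain ⟨w, hw, w', hw', hww⟩ := b2lt2_w hA hN hinf (by
    rw [hdim U hU W hW hWU.symm]
    have := h.dimE
    omega) (- ω y z)
  have hC : B2lt2C ω k l E (U ⊔ W) y z w w' := by
    refine ⟨h, hcl, fun e he => mem_sup_left (hET U hU e he), hinf, mem_sup_left hy,
      mem_sup_right hz, fun e he => hcl.ti U hU e (hET U hU e he) y hy,
      fun e he => hcl.ti W hW e (hET W hW e he) z hz, hyz, hw, hw', hww, ?_, hET, hTX,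
      (hcl.ti U hU).mono (hET U hU)⟩
    exact fun S hS1 => h.le U hU W hW hWU.symm S hS1
  have hyE : y ∉ E := fun h0 => hyz (hcl.ti W hW y (hET W hW y h0) z hz)
  have hzE : z ∉ E := fun h0 => hyz (hcl.ti U hU y hy z (hET U hU z h0))
  obtain ⟨A, hAe⟩ : ∃ A, A = E ⊔ span F {y + w} ⊔ span F {z + w'} := ⟨_, rfl⟩
  have hAP : A ∈ IsoGr ω k := by
    rw [mem_IsoGr, hAe]
    exact ⟨hC.dim hA, hC.ti hA⟩
  have hAl : A ∉ l := by
    intro hAl
    exact hC.notMem hA (hC.le A hAl) hAe.symm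
  have hfirst : ∀ S ∈ l, (∀ x ∈ S, x ∈ E ⊔ span F {y} ⊔ span F {z} → x ∈ E) → Coll B A S := by
    intro S hS1 hS2
    have h1 := b2_coll2 hA hN hB hS hl h (hC.first hA hS1 hS2)
    rw [hAe]
    exact h1.symm
  have hsecond : ∀ S ∈ l, ∀ S' ∈ l, (¬ ∀ x ∈ S, x ∈ E ⊔ span F {y} ⊔ span F {z} → x ∈ E) →
      (¬ ∀ x ∈ S', x ∈ E ⊔ span F {y} ⊔ span F {z} → x ∈ E) → Coll B A S → Coll B A S' := by
    intro S hS1 S' hS2 h1 h2 h3
    by_cases hne : S = S'
    · rw [← hne]
      exact h3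
    · obtain ⟨g, hg, g1, g2⟩ := hC.swap hA hN hS1 hS2 hne h1 h2
      have h4 := coll_map hB hg h3
      rw [hAe, g1, g2] at h4
      rw [hAe]
      exact h4
  have hU2 : ¬ ∀ x ∈ U, x ∈ E ⊔ span F {y} ⊔ span F {z} → x ∈ E := fun h0 =>
    hyE (h0 y hy (mem_sup_left (mem_sup_right (mem_span_singleton_self y))))
  have hW2 : ¬ ∀ x ∈ W, x ∈ E ⊔ span F {y} ⊔ span F {z} → x ∈ E := fun h0 =>
    hzE (h0 z hz (mem_sup_right (mem_span_singleton_self z)))
  by_cases hAU : Coll B A U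
  · obtain ⟨b, hb, hnb⟩ := max_clique hS hNL hl hAP hAl
    apply hnb
    by_cases hb1 : ∀ x ∈ b, x ∈ E ⊔ span F {y} ⊔ span F {z} → x ∈ E
    · exact hfirst b hb hb1
    · exact hsecond U hU b hb hU2 hb1 hAU
  · have hAW : ¬ Coll B A W := fun h0 => hAU (hsecond W hW U hU hW2 hU2 h0)
    have hcount := count_eq hS hAP hl hAl hT (hfirst T hT hTY)
    have hsub : ({c ∈ l | Coll B A c} : Finset (Submodule F V)) ⊆ (l.erase U).erase W := by
      intro c hc
      rw [mem_filter] at hc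
      rw [mem_erase, mem_erase]
      refine ⟨?_, ?_, hc.1⟩
      · rintro rfl
        exact hAW hc.2
      · rintro rfl
        exact hAU hc.2
    have h1 := card_le_card hsub
    rw [card_erase_of_mem (mem_erase.mpr ⟨hWU, hW⟩), card_erase_of_mem hU, hS.line_card l hl] at h1
    omega

end Pool.Agent.Helper20.SI
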