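import Pool.Agent.Helper20.SI.GoodD

/-!
# SI-09 CaseA: the dichotomy when some element does not contain `D`

`u^⊥ = ker (ω u)`. (h1) `u ∈ D`, `u ∉ T`, `x ∈ T` with `ω u x ≠ 0`: `sv hA 1 u` preserves `L` (`Cl.sv_good`), `T' = T.map _ ≠ T`
(`sv_ne`), `T ⊓ ker (ω u) ≤ T ⊓ T'` (`inf_le_sv`), so every vector of `T ⊓ ker (ω u)` is good: `T ⊓ ker (ω u) ≤ D`.
(h2) `u ∈ D`, `u ∉ T`, `T ≤ u^⊥`: for `x ∈ T`: `¬ T ≤ span {u} ⊔ span {x}` (`finrank T = k ≥ 2`, so `T ≤ span {u, x}` would give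
equality, `u ∈ T`). `exists_pp_of_not_le`: `w` with `ω u w = 0`, `ω x w = 0` (so `ω w x = 0`) and `y ∈ T` with `ω w y = 1`.
`ev (a = u, b = w)` maps `t ∈ T` to `t + ω w t • u`; it preserves `L` (`Cl.ev_good`), it fixes `x`, and `T' ≠ T` (`y + u ∈ T'`, if it is in `T`
then `u ∈ T`). So `x ∈ T ⊓ T'` is good. Hence `T ≤ D`.
(h3) If `T ∈ L`, `¬ T ≤ D`, `¬ D ≤ T`: for every `u ∈ D`, `u ∉ T`: by (h2) some `x ∈ T` has `ω u x ≠ 0`, so
`T ⊓ ker (ω u)` has dimension `k - 1` (`finrank_inf_ker`), and it is `≤ T ⊓ D < T`; so `T ⊓ D = T ⊓ ker (ω u)`,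
`finrank (T ⊓ D) + 1 = k`. Moreover `finrank D = k`: take `x ∈ T`, `x ∉ D`; `D ⊓ ker (ω x) = D ⊓ T` (for `u ∈ D \ T`: `ω x u ≠ 0`, because
`T ⊓ ker (ω u) = T ⊓ D ∌ x`; for `u ∈ D ⊓ T`: `ω x u = 0`), so `finrank D = finrank (D ⊓ T) + 1 = k`.
CONCLUSION: let `T₀ ∈ L`, `¬ D ≤ T₀`. If `T₀ ≤ D` then `k + 1 ≤ finrank D` (else `D = T₀`), so no `T ∈ L` has `D ≤ T`, none is as in
(h3), so all are `≤ D`. If not `T₀ ≤ D`, then `finrank D = k`, and every `T ∈ L`, `T ≠ D`, is neither `≤ D` nor `≥ D`: (h3).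
-/

open Module Submodule Finset

set_option linter.unusedSectionVars false

namespace Pool.Agent.Helper20.SI

open Pool.Agent.Helper29.FT Pool.Agent.Helper29.FT2

variable {F V : Type*} [Field F] [AddCommGroup V] [Module F V] [FiniteDimensional F V]
variable {ω : LinearMap.BilinForm F V}

variable {k : ℕ} {L : Finset (Submodule F V)}

private theorem CaseA_h1 (hA : ω.IsAlt) (hL : Cl ω k L) {D : Submodule F V}
    (hD : ∀ v, v ∈ D ↔ Good L v) {T : Submodule F V} (hT : T ∈ L) {u x : V} (hu : u ∈ D)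
    (huT : u ∉ T) (hx : x ∈ T) (hux : ω u x ≠ 0) : T ⊓ LinearMap.ker (ω u) ≤ D := by
  intro v hv
  rw [hD]
  exact ⟨T, hT, _, hL.sv_good hA 1 ((hD u).1 hu) hT, (sv_ne hA one_ne_zero huT hx hux).symm,
    hv.1, inf_le_sv hA 1 u T hv⟩

private theorem CaseA_span (hk2 : 2 ≤ k) {T : Submodule F V} (hT : finrank F T = k) {u x : V}
    (huT : u ∉ T) : ¬ T ≤ span F {u} ⊔ span F {x} := by
  intro hle
  have h1 : finrank F (span F {u} ⊔ span F {x} : Submodule F V) ≤ 2 := by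
    have h2 := Submodule.finrank_add_le_finrank_add_finrank (span F {u}) (span F {x})
    have h3 : ∀ z : V, finrank F (span F {z}) ≤ 1 := by
      intro z
      have := finrank_span_le_card (R := F) ({z} : Set V)
      simpa using this
    have h4 := h3 u
    have h5 := h3 x
    omega
  have h2 : T = span F {u} ⊔ span F {x} :=
    Submodule.eq_of_le_of_finrank_le hle (by omega)
  apply huT
  rw [h2]
  exact mem_sup_left (mem_span_singleton_self u)

private theorem CaseA_h2 (hk2 : 2 ≤ k) (hA : ω.IsAlt) (hN : ω.Nondegenerate) (hL : Cl ω k L)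
    {D : Submodule F V} (hD : ∀ v, v ∈ D ↔ Good L v) {T : Submodule F V} (hT : T ∈ L) {u : V}
    (hu : u ∈ D) (huT : u ∉ T) (h0 : ∀ x ∈ T, ω u x = 0) : T ≤ D := by
  intro x hx
  obtain ⟨w, hw, y, hy, hwy⟩ := exists_pp_of_not_le hA hN
    (CaseA_span hk2 (hL.dim T hT) huT (x := x))
  have huw : ω u w = 0 := hw u (mem_sup_left (mem_span_singleton_self u))
  have hxw : ω x w = 0 := hw x (mem_sup_right (mem_span_singleton_self x))
  have hwx : ω w x = 0 := swap0 hA hxw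
  have hgx : ev hA huw x = x := by
    rw [ev_apply, hwx, h0 x hx, zero_smul, zero_smul, add_zero, add_zero]
  have hne : T.map (ev hA huw : V →ₗ[F] V) ≠ T := by
    intro he
    have h1 : ev hA huw y ∈ T.map (ev hA huw : V →ₗ[F] V) := Submodule.mem_map_of_mem hy
    rw [he, ev_apply, hwy, h0 y hy, one_smul, zero_smul, add_zero] at h1
    apply huT
    have h2 := T.sub_mem h1 hy
    rwa [add_sub_cancel_left] at h2
  rw [hD]
  refine ⟨T, hT, _, hL.ev_good hA huw ((hD u).1 hu) hT, hne.symm, hx, ?_⟩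
  have h1 : ev hA huw x ∈ T.map (ev hA huw : V →ₗ[F] V) := Submodule.mem_map_of_mem hx
  rwa [hgx] at h1

private theorem CaseA_h3 (hk2 : 2 ≤ k) (hA : ω.IsAlt) (hN : ω.Nondegenerate) (hL : Cl ω k L)
    {D : Submodule F V} (hD : ∀ v, v ∈ D ↔ Good L v) {T : Submodule F V} (hT : T ∈ L)
    (hTD : ¬ T ≤ D) (hDT : ¬ D ≤ T) :
    finrank F D = k ∧ finrank F (T ⊓ D : Submodule F V) + 1 = k ∧
        ∀ u ∈ D, u ∉ T → T ⊓ LinearMap.ker (ω u) = T ⊓ D := by
  have hdim := hL.dim T hT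
  have hlt : finrank F (T ⊓ D : Submodule F V) < finrank F T := by
    apply Submodule.finrank_lt_finrank_of_lt
    refine lt_of_le_of_ne inf_le_left fun he => hTD ?_
    rw [← he]
    exact inf_le_right
  have hex : ∀ u ∈ D, u ∉ T → ∃ x ∈ T, ω u x ≠ 0 := by
    intro u hu huT
    by_contra hcon
    push Not at hcon
    exact hTD (CaseA_h2 hk2 hA hN hL hD hT hu huT hcon)
  have hkey : ∀ u ∈ D, u ∉ T → finrank F (T ⊓ LinearMap.ker (ω u) : Submodule F V) + 1 = k ∧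
      T ⊓ LinearMap.ker (ω u) = T ⊓ D := by
    intro u hu huT
    obtain ⟨x, hx, hux⟩ := hex u hu huT
    have h1 : T ⊓ LinearMap.ker (ω u) ≤ T ⊓ D :=
      le_inf inf_le_left (CaseA_h1 hA hL hD hT hu huT hx hux)
    have h2 := finrank_inf_ker hx hux
    have h3 : T ⊓ LinearMap.ker (ω u) = T ⊓ D :=
      Submodule.eq_of_le_of_finrank_le h1 (by omega)
    exact ⟨by omega, h3⟩
  obtain ⟨u, hu, huT⟩ := SetLike.not_le_iff_exists.mp hDT
  have h4 := hkey u hu huT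
  have h5 : finrank F (T ⊓ D : Submodule F V) + 1 = k := by
    rw [← h4.2]
    exact h4.1
  refine ⟨?_, h5, fun u hu huT => (hkey u hu huT).2⟩
  obtain ⟨x, hx, hxD⟩ := SetLike.not_le_iff_exists.mp hTD
  have h6 : D ⊓ LinearMap.ker (ω x) = D ⊓ T := by
    apply le_antisymm
    · intro v hv
      refine ⟨hv.1, ?_⟩
      by_contra hvT
      apply hxD
      have h7 := (hkey v hv.1 hvT).2
      have h8 : x ∈ T ⊓ LinearMap.ker (ω v) :=
        ⟨hx, LinearMap.mem_ker.mpr (swap0 hA (LinearMap.mem_ker.mp hv.2))⟩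
      rw [h7] at h8
      exact h8.2
    · intro v hv
      exact ⟨hv.1, LinearMap.mem_ker.mpr (hL.ti T hT x hx v hv.2)⟩
  have h7 : ω x u ≠ 0 := by
    intro h0
    have h8 : u ∈ D ⊓ LinearMap.ker (ω x) := ⟨hu, LinearMap.mem_ker.mpr h0⟩
    rw [h6] at h8
    exact huT h8.2
  have h8 := finrank_inf_ker hu h7
  rw [h6, inf_comm] at h8
  omega

theorem caseA_dich (hk2 : 2 ≤ k) (hA : ω.IsAlt) (hN : ω.Nondegenerate) (hL : Cl ω k L)
    {D : Submodule F V} (hD : ∀ v, v ∈ D ↔ Good L v) (hTI : TI ω D)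
    (hex : ∃ T ∈ L, ¬ D ≤ T) :
    ((∀ T ∈ L, T ≤ D) ∧ k + 1 ≤ finrank F D) ∨
      (finrank F D = k ∧ ∀ T ∈ L, T ≠ D → finrank F (T ⊓ D : Submodule F V) + 1 = k ∧
        ∀ u ∈ D, u ∉ T → T ⊓ LinearMap.ker (ω u) = T ⊓ D) := by
  obtain ⟨T₀, hT₀, hDT₀⟩ := hex
  by_cases h0 : T₀ ≤ D
  · left
    have h1 : finrank F T₀ < finrank F D := by
      apply Submodule.finrank_lt_finrank_of_lt
      refine lt_of_le_of_ne h0 fun he => hDT₀ ?_
      rw [he]
    have h2 := hL.dim T₀ hT₀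
    refine ⟨fun T hT => ?_, by omega⟩
    by_contra hTD
    by_cases hDT : D ≤ T
    · have h3 := Submodule.finrank_mono hDT
      have h4 := hL.dim T hT
      omega
    · have h3 := (CaseA_h3 hk2 hA hN hL hD hT hTD hDT).1
      omega
  · right
    have h1 := (CaseA_h3 hk2 hA hN hL hD hT₀ h0 hDT₀).1
    refine ⟨h1, fun T hT hne => ?_⟩
    have h2 := hL.dim T hT
    have h3 : ¬ T ≤ D := fun h => hne (Submodule.eq_of_le_of_finrank_le h (by omega))
    have h4 : ¬ D ≤ T := fun h => hne (Submodule.eq_of_le_of_finrank_le h (by omega)).symm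
    exact (CaseA_h3 hk2 hA hN hL hD hT h3 h4).2

end Pool.Agent.Helper20.SI
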