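import Pool.Agent.Helper20.SI.GoodD

/-!
# SI-11 CaseA1: the first alternative of SI-09 gives all `k`-dimensional subspaces of `D`, `dim D = k + 1`

Let `R ≤ D`, `finrank R = k`. CLAIM `R ∈ L`: choose `T ∈ L` with `finrank (R ⊓ T)` maximal (or induction on `m` as in SI-08). If
`R ≠ T` take `r ∈ R`, `r ∉ T`, a hyperplane `Y` of `T` with `R ⊓ T ≤ Y` and `x ∈ T`, `x ∉ Y` (`exists_between`). Everything is inside
the totally isotropic `D`; `r` and `x` are good. `x ∉ Y ⊔ span {r}`: `exists_pp` gives `w ∈ pp (Y ⊔ span {r})`, `ω w x = 1`: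
`ev (a = r, b = w)` fixes `Y` pointwise, `x ↦ x + r`. `r ∉ T = Y ⊔ span {x}`: `w' ∈ pp T`, `ω w' r = -1`: `ev (a = x, b = w')` fixes `Y`
pointwise and maps `x + r` to `r` (`ω x (x + r) = 0`). So `Y ⊔ span {r} ∈ L`, larger intersection with `R`.
`finrank D = k + 1`: otherwise `k + 2 ≤ finrank D`; `exists_between`: `X ≤ D`, `finrank X = k + 1`. `¬ D ≤ X`: `exists_pp_of_not_le` gives
`v ∈ pp X` and `x ∈ D` with `ω v x = 1`. Two different `k`-dimensional `U, W ≤ X` are in `L`, and `v ∈ pp U`, `v ∈ pp W`: `sv hA 1 v`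
preserves `L` (`Cl.sv`), so it preserves `D` (`Good.map`): `x + v ∈ D`, `v ∈ D`, so `ω v x = 0` as `D` is totally isotropic. Contradiction.
-/

open Module Submodule Finset

set_option linter.unusedSectionVars false

namespace Pool.Agent.Helper20.SI

open Pool.Agent.Helper29.FT Pool.Agent.Helper29.FT2

variable {F V : Type*} [Field F] [AddCommGroup V] [Module F V] [FiniteDimensional F V]
variable {ω : LinearMap.BilinForm F V}

variable {k : ℕ} {L : Finset (Submodule F V)}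

private theorem caseA1_notMem {Y T : Submodule F V} {r x : V} (hYT : Y ≤ T) (hrT : r ∉ T)
    (hxT : x ∈ T) (hxY : x ∉ Y) : x ∉ Y ⊔ span F {r} := by
  intro hx
  obtain ⟨y, hy, z, hz, hyz⟩ := mem_sup.mp hx
  obtain ⟨c, rfl⟩ := mem_span_singleton.mp hz
  by_cases hc : c = 0
  · rw [hc, zero_smul, add_zero] at hyz
    rw [hyz] at hy
    exact hxY hy
  · apply hrT
    have h1 : c • r = x - y := by
      rw [← hyz]
      abel
    have h2 : c • r ∈ T := by
      rw [h1]
      exact T.sub_mem hxT (hYT hy)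
    exact (T.smul_mem_iff hc).mp h2

private theorem caseA1_step (hA : ω.IsAlt) (hN : ω.Nondegenerate) (hL : Cl ω k L)
    {D : Submodule F V} (hD : ∀ v, v ∈ D ↔ Good L v) (hTI : TI ω D) (h : ∀ T ∈ L, T ≤ D)
    {R T : Submodule F V} (hRD : R ≤ D) (hRk : finrank F R = k) (hT : T ∈ L)
    (hRT : finrank F (R ⊓ T : Submodule F V) < k) :
    ∃ T' ∈ L, finrank F (R ⊓ T : Submodule F V) + 1 ≤ finrank F (R ⊓ T' : Submodule F V) := by
  have hTk := hL.dim T hT
  have hlt : R ⊓ T < R := lt_of_le_of_ne inf_le_left (by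
    intro heq
    rw [heq] at hRT
    omega)
  obtain ⟨r, hrR, hr⟩ := SetLike.exists_of_lt hlt
  have hrT : r ∉ T := fun hh => hr ⟨hrR, hh⟩
  obtain ⟨Y, hY1, hYT, hYk⟩ := exists_between (A := R ⊓ T) (X := T) (m := k - 1) inf_le_right
    (by omega) (by omega)
  have hYlt : Y < T := lt_of_le_of_ne hYT (by
    rintro rfl
    omega)
  obtain ⟨x, hxT, hxY⟩ := SetLike.exists_of_lt hYlt
  have hxr := caseA1_notMem hYT hrT hxT hxY
  obtain ⟨w, hw, hwx⟩ := exists_pp hA hN hxr
  have h1 : ω r w = 0 := hw r (le_sup_right (a := Y) (mem_span_singleton_self r))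
  obtain ⟨w', hw', hwr⟩ := exists_pp hA hN hrT
  have hw'' : -w' ∈ pp ω T := (pp ω T).neg_mem hw'
  have h2 : ω x (-w') = 0 := hw'' x hxT
  have hrD : r ∈ D := hRD hrR
  have hxD : x ∈ D := h T hT hxT
  have hT1 := hL.ev_good hA h1 ((hD r).1 hrD) hT
  have hT2 := hL.ev_good hA h2 ((hD x).1 hxD) hT1
  refine ⟨_, hT2, ?_⟩
  have hr' : r ∉ R ⊓ T := fun hh => hrT hh.2
  rw [← finrank_sup_span_singleton hr']
  apply Submodule.finrank_mono
  apply sup_le
  · intro z hz
    refine ⟨hz.1, z, ⟨z, hz.2, ?_⟩, ?_⟩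
    · show ev hA h1 z = z
      rw [ev_apply, (mem_pp' hA).mp hw z (le_sup_left (a := Y) (hY1 hz)),
        hTI r hrD z (h T hT hz.2), zero_smul, zero_smul, add_zero, add_zero]
    · show ev hA h2 z = z
      rw [ev_apply, (mem_pp' hA).mp hw'' z hz.2, hTI x hxD z (h T hT hz.2), zero_smul, zero_smul,
        add_zero, add_zero]
  · rw [span_singleton_le_iff_mem]
    refine ⟨hrR, x + r, ⟨x, hxT, ?_⟩, ?_⟩
    · show ev hA h1 x = x + r
      rw [ev_apply, hwx, hTI r hrD x hxD, one_smul, zero_smul, add_zero]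
    · show ev hA h2 (x + r) = r
      have h3 : ω (-w') (x + r) = -1 := by
        rw [map_add, (mem_pp' hA).mp hw'' x hxT, zero_add, map_neg, LinearMap.neg_apply, hwr]
      have h4 : ω x (x + r) = 0 := by
        rw [map_add, self0 hA, hTI x hxD r hrD, add_zero]
      rw [ev_apply, h3, h4, zero_smul, add_zero, neg_smul, one_smul]
      abel

private theorem caseA1_mem (hA : ω.IsAlt) (hN : ω.Nondegenerate) (hL : Cl ω k L)
    {D : Submodule F V} (hD : ∀ v, v ∈ D ↔ Good L v) (hTI : TI ω D) (h : ∀ T ∈ L, T ≤ D)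
    (hne : ∃ T, T ∈ L) {R : Submodule F V} (hRD : R ≤ D) (hRk : finrank F R = k) : R ∈ L := by
  have hm : ∀ m, m ≤ k → ∃ T ∈ L, m ≤ finrank F (R ⊓ T : Submodule F V) := by
    intro m
    induction m with
    | zero =>
      intro _
      obtain ⟨T, hT⟩ := hne
      exact ⟨T, hT, Nat.zero_le _⟩
    | succ m ih =>
      intro hmk
      obtain ⟨T, hT, hmT⟩ := ih (by omega)
      rcases Nat.lt_or_ge (finrank F (R ⊓ T : Submodule F V)) k with h1 | h1
      · obtain ⟨T', hT', h2⟩ := caseA1_step hA hN hL hD hTI h hRD hRk hT h1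
        exact ⟨T', hT', by omega⟩
      · exact ⟨T, hT, by omega⟩
  obtain ⟨T, hT, hkT⟩ := hm k le_rfl
  have h1 : R ⊓ T = R := Submodule.eq_of_le_of_finrank_le inf_le_left (by omega)
  have h2 : R ⊓ T = T := Submodule.eq_of_le_of_finrank_le inf_le_right (by
    have := hL.dim T hT
    omega)
  rw [← h1, h2]
  exact hT

theorem caseA_h1 (hk1 : 1 ≤ k) (hA : ω.IsAlt) (hN : ω.Nondegenerate) (hL : Cl ω k L)
    {D : Submodule F V} (hD : ∀ v, v ∈ D ↔ Good L v) (hTI : TI ω D) (h : ∀ T ∈ L, T ≤ D)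
    (hdim : k + 1 ≤ finrank F D) :
    finrank F D = k + 1 ∧ ∀ R : Submodule F V, R ∈ L ↔ R ≤ D ∧ finrank F R = k := by
  have hne : ∃ T, T ∈ L := by
    have h0 : 0 < finrank F D := by omega
    have h1 : D ≠ ⊥ := by
      rintro rfl
      rw [finrank_bot] at h0
      exact lt_irrefl _ h0
    obtain ⟨v, hv, _⟩ := Submodule.exists_mem_ne_zero_of_ne_bot h1
    obtain ⟨U, hU, _⟩ := (hD v).1 hv
    exact ⟨U, hU⟩
  have hmem : ∀ R : Submodule F V, R ≤ D → finrank F R = k → R ∈ L := fun R hR hRk =>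
    caseA1_mem hA hN hL hD hTI h hne hR hRk
  refine ⟨?_, fun R => ⟨fun hR => ⟨h R hR, hL.dim R hR⟩, fun hR => hmem R hR.1 hR.2⟩⟩
  by_contra hcon
  have hD2 : k + 2 ≤ finrank F D := by omega
  obtain ⟨X, _, hXD, hXk⟩ := exists_between (A := ⊥) (X := D) (m := k + 1) bot_le
    (by rw [finrank_bot]; omega) hdim
  have hnle : ¬ D ≤ X := by
    intro hle
    have := Submodule.finrank_mono hle
    omega
  obtain ⟨v, hv, x, hx, hvx⟩ := exists_pp_of_not_le hA hN hnle
  obtain ⟨U, _, hUX, hUk⟩ := exists_between (A := ⊥) (X := X) (m := k) bot_le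
    (by rw [finrank_bot]; omega) (by omega)
  have hUlt : U < X := lt_of_le_of_ne hUX (by
    rintro rfl
    omega)
  obtain ⟨y, hyX, hyU⟩ := SetLike.exists_of_lt hUlt
  have hy0 : y ≠ 0 := by
    rintro rfl
    exact hyU U.zero_mem
  obtain ⟨W, hW1, hWX, hWk⟩ := exists_between (A := span F {y}) (X := X) (m := k)
    (by rw [span_singleton_le_iff_mem]; exact hyX) (by rw [finrank_span_singleton hy0]; exact hk1)
    (by omega)
  have hyW : y ∈ W := hW1 (mem_span_singleton_self y)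
  have hUW : U ≠ W := by
    rintro rfl
    exact hyU hyW
  have hU : U ∈ L := hmem U (hUX.trans hXD) hUk
  have hW : W ∈ L := hmem W (hWX.trans hXD) hWk
  have hgood : Good L (sv hA 1 v x) := Good.map
    (fun T hT => hL.sv hA 1 hU hW hUW (pp_anti hUX hv) (pp_anti hWX hv) hT) ((hD x).1 hx)
  have h1 := (hD _).2 hgood
  rw [sv_apply, hvx, mul_one, one_smul] at h1
  have h2 : v ∈ D := by
    have := D.sub_mem h1 hx
    rwa [add_sub_cancel_left] at this
  rw [hTI v h2 x hx] at hvx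
  exact zero_ne_one hvx

end Pool.Agent.Helper20.SI
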