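import Pool.Agent.Helper20.SI.GoodD

/-!
# SI-10 CaseA2: the second alternative of SI-09 is impossible

Take `T₁ ∈ L`, `T₁ ≠ D` (`L` has two elements: `0 ∈ D` is good). `K₁ = T₁ ⊓ D`, `finrank K₁ = k - 1 ≥ 1`, `finrank D = k`. Take `u ∈ D`,
`u ∉ T₁`. `K₁` is not contained in `span {u}` (`K₁ ≠ 0`, `u ∉ K₁`), so `exists_pp_of_not_le`: `w` with `ω u w = 0`, `y ∈ K₁` with `ω w y = 1`.
`g = ev (a = u, b = w)`: preserves `L` (`u` is good) and `D` (`Good.map`; `g D ≤ D`, equality by dimension). `T₂ = T₁.map g ∈ L`,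
`T₂ ≠ D`, `K₂ = T₂ ⊓ D = K₁.map g` (`map_inf'`). `g y = y + u ∈ K₂`, not in `K₁` (else `u ∈ T₁`). So `K₁ ≠ K₂`; both have dimension
`k - 1`; `K₁ ⊓ K₂` has dimension `k - 2` (`K₁ ⊔ K₂ = D`).
Take `a ∈ T₁`, `a ∉ D`. For `v ∈ D`: `ω a v = 0 ↔ v ∈ K₁` (if `v ∉ T₁`: `T₁ ⊓ ker (ω v) = T₁ ⊓ D ∌ a`). `T₂ ⊓ ker (ω a)` has dimension
`≥ k - 1` (`finrank_inf_ker_ge`), its intersection with `D` is `K₂ ⊓ K₁` of dimension `k - 2`: so there is `b ∈ T₂`, `ω a b = 0`, `b ∉ D`.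
Take `p ∈ K₁`, `p ∉ K₂`: `ω a p = 0` (`T₁` totally isotropic), `ω b p ≠ 0` (same equivalence for `T₂`, `b`). `T₁ ≠ T₂`.
`h = ev (a, b)` preserves `L` (`Cl.ev_cross`, `a ∈ T₁`, `b ∈ T₂`), so `D`; `h p = p + ω b p • a + ω a p • b = p + ω b p • a ∈ D`
gives `a ∈ D`, contradiction.
-/

open Module Submodule Finset

set_option linter.unusedSectionVars false

namespace Pool.Agent.Helper20.SI

open Pool.Agent.Helper29.FT Pool.Agent.Helper29.FT2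

variable {F V : Type*} [Field F] [AddCommGroup V] [Module F V] [FiniteDimensional F V]
variable {ω : LinearMap.BilinForm F V}

variable {k : ℕ} {L : Finset (Submodule F V)}

theorem caseA_h2 (hk2 : 2 ≤ k) (hA : ω.IsAlt) (hN : ω.Nondegenerate) (hL : Cl ω k L)
    {D : Submodule F V} (hD : ∀ v, v ∈ D ↔ Good L v) (hTI : TI ω D) (hdim : finrank F D = k)
    (h : ∀ T ∈ L, T ≠ D → finrank F (T ⊓ D : Submodule F V) + 1 = k ∧
        ∀ u ∈ D, u ∉ T → T ⊓ LinearMap.ker (ω u) = T ⊓ D) : False := by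
  obtain ⟨U, hU, W, hW, hUW, -, -⟩ := (hD 0).mp D.zero_mem
  obtain ⟨T₁, hT₁, hT₁D⟩ : ∃ T ∈ L, T ≠ D := by
    by_cases hU' : U = D
    · exact ⟨W, hW, fun hWD => hUW (hU'.trans hWD.symm)⟩
    · exact ⟨U, hU, hU'⟩
  obtain ⟨hK1, hker1⟩ := h T₁ hT₁ hT₁D
  have hT1k := hL.dim T₁ hT₁
  obtain ⟨u, huD, huT⟩ : ∃ u ∈ D, u ∉ T₁ := by
    by_contra hcon
    push Not at hcon
    exact hT₁D (Submodule.eq_of_le_of_finrank_eq (show D ≤ T₁ from hcon) (by omega)).symm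
  have hKnot : ¬ (T₁ ⊓ D : Submodule F V) ≤ span F {u} := by
    intro hle
    have hne : T₁ ⊓ D ≠ ⊥ := by
      intro h0
      rw [h0, finrank_bot] at hK1
      omega
    obtain ⟨y, hy, hy0⟩ := Submodule.exists_mem_ne_zero_of_ne_bot hne
    obtain ⟨c, rfl⟩ := mem_span_singleton.mp (hle hy)
    have hc : c ≠ 0 := by
      rintro rfl
      exact hy0 (zero_smul _ _)
    exact huT ((T₁.smul_mem_iff hc).mp hy.1)
  obtain ⟨w, hw, y, hy, hwy⟩ := exists_pp_of_not_le hA hN hKnot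
  have huw : ω u w = 0 := mem_pp_span.mp hw
  have hug := (hD u).mp huD
  have hgL : ∀ T ∈ L, T.map (ev hA huw : V →ₗ[F] V) ∈ L := fun T hT =>
    hL.ev_good hA huw hug hT
  have hgD : D.map (ev hA huw : V →ₗ[F] V) = D :=
    map_eq_of_le (fun x hx => (hD _).mpr (Good.map hgL ((hD x).mp hx))) rfl
  have hgx : ∀ x ∈ D, ev hA huw x = x + ω w x • u := by
    intro x hx
    rw [ev_apply, hTI u huD x hx, zero_smul, add_zero]
  have hT₂ := hgL T₁ hT₁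
  have hT₂D : T₁.map (ev hA huw : V →ₗ[F] V) ≠ D := by
    intro h2
    apply hT₁D
    apply map_inj' (ev hA huw)
    rw [hgD]
    exact h2
  have hK₂ : T₁.map (ev hA huw : V →ₗ[F] V) ⊓ D = (T₁ ⊓ D).map (ev hA huw : V →ₗ[F] V) := by
    rw [map_inf', hgD]
  generalize hTe : T₁.map (ev hA huw : V →ₗ[F] V) = T₂ at *
  obtain ⟨hK2, hker2⟩ := h T₂ hT₂ hT₂D
  have hgy : y + u ∈ T₂ ⊓ D := by
    rw [hK₂]
    refine ⟨y, hy, ?_⟩
    show ev hA huw y = y + u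
    rw [hgx y hy.2, hwy, one_smul]
  have hyu : y + u ∉ T₁ := by
    intro h1
    have h2 := T₁.sub_mem h1 hy.1
    rw [add_sub_cancel_left] at h2
    exact huT h2
  have hlt : finrank F (T₁ ⊓ D : Submodule F V) <
      finrank F ((T₁ ⊓ D) ⊔ (T₂ ⊓ D) : Submodule F V) := by
    apply Submodule.finrank_lt_finrank_of_lt
    refine lt_of_le_of_ne le_sup_left ?_
    intro heq
    have h1 : y + u ∈ T₁ ⊓ D := by
      rw [heq]
      exact mem_sup_right hgy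
    exact hyu h1.1
  have hle : finrank F ((T₁ ⊓ D) ⊔ (T₂ ⊓ D) : Submodule F V) ≤ finrank F D :=
    Submodule.finrank_mono (sup_le inf_le_right inf_le_right)
  have hsum := Submodule.finrank_sup_add_finrank_inf_eq (T₁ ⊓ D) (T₂ ⊓ D)
  obtain ⟨a, haT, haD⟩ : ∃ a ∈ T₁, a ∉ D := by
    by_contra hcon
    push Not at hcon
    exact hT₁D (Submodule.eq_of_le_of_finrank_eq (show T₁ ≤ D from hcon) (by omega))
  have heq1 : ∀ v ∈ D, ω a v = 0 → v ∈ T₁ := by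
    intro v hv hav
    by_contra hvT
    have h1 := hker1 v hv hvT
    have h2 : a ∈ T₁ ⊓ LinearMap.ker (ω v) := ⟨haT, LinearMap.mem_ker.mpr (swap0 hA hav)⟩
    rw [h1] at h2
    exact haD h2.2
  obtain ⟨b, hb, hbD⟩ : ∃ b ∈ T₂ ⊓ LinearMap.ker (ω a), b ∉ D := by
    by_contra hcon
    push Not at hcon
    have h1 : T₂ ⊓ LinearMap.ker (ω a) ≤ (T₁ ⊓ D) ⊓ (T₂ ⊓ D) := by
      intro x hx
      have hxD := hcon x hx
      exact ⟨⟨heq1 x hxD (LinearMap.mem_ker.mp hx.2), hxD⟩, ⟨hx.1, hxD⟩⟩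
    have h2 := Submodule.finrank_mono h1
    have h3 := finrank_inf_ker_ge T₂ (ω a)
    have h4 := hL.dim T₂ hT₂
    omega
  obtain ⟨p, hp, hpT⟩ : ∃ p ∈ T₁ ⊓ D, p ∉ T₂ := by
    by_contra hcon
    push Not at hcon
    have h1 : T₁ ⊓ D ≤ T₂ ⊓ D := fun x hx => ⟨hcon x hx, hx.2⟩
    have h2 : T₁ ⊓ D = T₂ ⊓ D := Submodule.eq_of_le_of_finrank_eq h1 (by omega)
    rw [← h2] at hgy
    exact hyu hgy.1
  have hbp : ω b p ≠ 0 := by
    intro h0
    have h1 := hker2 p hp.2 hpT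
    have h2 : b ∈ T₂ ⊓ LinearMap.ker (ω p) := ⟨hb.1, LinearMap.mem_ker.mpr (swap0 hA h0)⟩
    rw [h1] at h2
    exact hbD h2.2
  have hap : ω a p = 0 := hL.ti T₁ hT₁ a haT p hp.1
  have hab : ω a b = 0 := LinearMap.mem_ker.mp hb.2
  have hT12 : T₁ ≠ T₂ := by
    intro heq
    rw [← heq] at hpT
    exact hpT hp.1
  have hgood := Good.map (g := ev hA hab)
    (fun T hT => hL.ev_cross hA hab hT₁ hT₂ hT12 haT hb.1 hT) ((hD p).mp hp.2)
  have h1 := (hD _).mpr hgood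
  rw [ev_apply, hap, zero_smul, add_zero] at h1
  have h2 := D.sub_mem h1 hp.2
  rw [add_sub_cancel_left, D.smul_mem_iff hbp] at h2
  exact haD h2

end Pool.Agent.Helper20.SI
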