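import Pool.Agent.Helper20.SI.Sp

/-!
# SI-12 CaseB: all pairwise intersections are equal to `E`, `dim E ≤ k - 2`

(i) Suppose `u ∈ W ⊓ pp U`, `u ∉ E` (`E = U ⊓ W ≤ W ⊓ pp U` is clear). So `u ∉ U`. Third element `T`. `u ∉ T` (else `u ∈ T ⊓ W = E`).
`u ∈ pp U`, `u ∈ pp W`: `sv hA 1 u` preserves `L` (`Cl.sv`). If some `x ∈ T` has `ω u x ≠ 0`: `T' ≠ T` (`sv_ne`), `T ⊓ ker (ω u) ≤ T ⊓ T' = E` of
dimension `≥ k - 1` (`inf_le_sv`, `finrank_inf_ker_ge`): contradiction. So `T ≤ u^⊥`. For every `w ∈ pp (U ⊔ span {u})`: `ev (a = u, b = w)`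
fixes `W` (`u ∈ W`) and `U` pointwise (`u, w ∈ pp U`) (`Cl.ev_mixed` with the roles `W`, `U`), maps `t ∈ T` to `t + ω w t • u`, fixes
`T ⊓ ker (ω w)`: if the image is not `T`, `finrank E ≥ k - 1`, contradiction; so it is `T`, and `ω w t • u ∈ T` gives `ω w t = 0`. So
`T ≤ pp (pp (U ⊔ span {u})) = U ⊔ span {u}`, of dimension `k + 1`, so `finrank (T ⊓ U) ≥ k - 1`, contradiction (`T ⊓ U = E`).
(ii) `T ≤ U ⊔ W`: otherwise `exists_pp_of_not_le`: `v ∈ pp (U ⊔ W)`, `x ∈ T`, `ω v x = 1`; `sv hA 1 v` preserves `L` (`Cl.sv`; `T ≠ U, W`). If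
`T.map _ ≠ T` then `T ⊓ ker (ω v) ≤ E`, contradiction by dimension. So equal, so `v ∈ T` (`sv_ne`), `v ∈ T ⊓ pp U = E ≤ T` (by (i)); fine,
but then `ω v x = 0` as `v, x ∈ T` and `T` is totally isotropic. Contradiction.
(iii) Let `a ∈ U`, `a ∉ E`, `b ∈ W`, `b ∉ E`, `ω a b = 0`, `T` a third element. `g = ev (a, b)` preserves `L` (`Cl.ev_cross`) and fixes
`T ⊓ ker (ω a) ⊓ ker (ω b)` pointwise, of dimension `≥ k - 2`. If `finrank E + 3 ≤ k`: so `T.map g = T`, so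
`ω b t • a + ω a t • b ∈ T` for all `t ∈ T`. Some `t` has `ω a t ≠ 0` (else `a ∈ U ⊓ pp T = E` by (i)); `ω b t ≠ 0` (else `b ∈ T ⊓ W = E`). So
`a + c • b ∈ T` with `c ≠ 0`. `W ⊓ ker (ω a)` has dimension `≥ k - 1 ≥ finrank E + 2`: take `b, b'` in it with `b ∉ E`, `b' ∉ E ⊔ span {b}`:
`a + c • b, a + c' • b' ∈ T`, the difference is in `T ⊓ W = E`, so `b' ∈ E ⊔ span {b}`. Contradiction. So `finrank E + 2 = k`.
-/

open Module Submodule Finset

set_option linter.unusedSectionVars false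

namespace Pool.Agent.Helper20.SI

open Pool.Agent.Helper29.FT Pool.Agent.Helper29.FT2

variable {F V : Type*} [Field F] [AddCommGroup V] [Module F V] [FiniteDimensional F V]
variable {ω : LinearMap.BilinForm F V}

variable {k : ℕ} {L : Finset (Submodule F V)}

theorem CaseB_eq {E : Submodule F V} (hL : Cl ω k L)
    (hE : ∀ U ∈ L, ∀ W ∈ L, U ≠ W → U ⊓ W = E) (hk : finrank F E + 2 ≤ k)
    {T T' : Submodule F V} (hT : T ∈ L) (hT' : T' ∈ L) (f : Dual F V)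
    (h : T ⊓ LinearMap.ker f ≤ T') : T' = T := by
  by_contra hne
  have h1 : T ⊓ LinearMap.ker f ≤ E := by
    rw [← hE T hT T' hT' (fun e => hne e.symm)]
    exact le_inf inf_le_left h
  have h2 := Submodule.finrank_mono h1
  have h3 := finrank_inf_ker_ge T f
  rw [hL.dim T hT] at h3
  omega

theorem caseB_i (hA : ω.IsAlt) (hN : ω.Nondegenerate) (hL : Cl ω k L)
    (h3 : ∀ U W : Submodule F V, ∃ T ∈ L, T ≠ U ∧ T ≠ W) {E : Submodule F V}
    (hE : ∀ U ∈ L, ∀ W ∈ L, U ≠ W → U ⊓ W = E) (hk : finrank F E + 2 ≤ k) :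
    ∀ U ∈ L, ∀ W ∈ L, U ≠ W → W ⊓ pp ω U = E := by
  intro U hU W hW hUW
  apply le_antisymm
  · intro u hu
    by_contra huE
    have huW : u ∈ W := hu.1
    have hup : u ∈ pp ω U := hu.2
    have hupW : u ∈ pp ω W := ti_iff.mp (hL.ti W hW) huW
    obtain ⟨T, hT, hTU, hTW⟩ := h3 U W
    have huT : u ∉ T := fun h => huE (by
      rw [← hE T hT W hW hTW]
      exact ⟨h, huW⟩)
    have huU : u ∉ U := fun h => huE (by
      rw [← hE U hU W hW hUW]
      exact ⟨h, huW⟩)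
    have ha : ∀ x ∈ T, ω u x = 0 := by
      intro x hx
      by_contra hux
      have h1 := hL.sv hA 1 hU hW hUW hup hupW hT
      have h2 := CaseB_eq hL hE hk hT h1 (ω u) (inf_le_sv hA 1 u T)
      exact sv_ne hA one_ne_zero huT hx hux h2
    have hb : ∀ w ∈ pp ω (U ⊔ span F {u}), ∀ t ∈ T, ω w t = 0 := by
      intro w hw t ht
      have huw : ω u w = 0 :=
        hw u (le_sup_right (a := U) (mem_span_singleton_self u))
      have hwU : w ∈ pp ω U := pp_anti le_sup_left hw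
      have h1 := hL.ev_mixed hA huw hW hU hUW.symm huW hup hwU hT
      have h2 : T.map (ev hA huw : V →ₗ[F] V) = T := by
        apply CaseB_eq hL hE hk hT h1 (ω w)
        intro x hx
        refine ⟨x, hx.1, ?_⟩
        show ev hA huw x = x
        rw [ev_apply, LinearMap.mem_ker.mp hx.2, ha x hx.1]
        simp
      have h4 : ev hA huw t ∈ T.map (ev hA huw : V →ₗ[F] V) := Submodule.mem_map_of_mem ht
      rw [h2, ev_apply, ha t ht, zero_smul, add_zero] at h4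
      have h5 := T.sub_mem h4 ht
      rw [add_sub_cancel_left] at h5
      by_contra hne
      exact huT ((T.smul_mem_iff hne).mp h5)
    have hle : T ≤ U ⊔ span F {u} := by
      rw [← pp_pp hA hN (U ⊔ span F {u})]
      intro t ht w hw
      exact hb w hw t ht
    have h6 : T ⊔ U ≤ U ⊔ span F {u} := sup_le hle le_sup_left
    have h7 := Submodule.finrank_mono h6
    rw [finrank_sup_span_singleton huU, hL.dim U hU] at h7
    have h8 := Submodule.finrank_sup_add_finrank_inf_eq T U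
    rw [hL.dim U hU, hL.dim T hT, hE T hT U hU hTU] at h8
    omega
  · rw [← hE U hU W hW hUW]
    exact le_inf inf_le_right (inf_le_left.trans (ti_iff.mp (hL.ti U hU)))

theorem caseB_ii (hA : ω.IsAlt) (hN : ω.Nondegenerate) (hL : Cl ω k L)
    (h3 : ∀ U W : Submodule F V, ∃ T ∈ L, T ≠ U ∧ T ≠ W) {E : Submodule F V}
    (hE : ∀ U ∈ L, ∀ W ∈ L, U ≠ W → U ⊓ W = E) (hk : finrank F E + 2 ≤ k) :
    ∀ U ∈ L, ∀ W ∈ L, U ≠ W → ∀ T ∈ L, T ≤ U ⊔ W := by
  intro U hU W hW hUW T hT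
  by_contra hcon
  obtain ⟨v, hv, x, hx, hvx⟩ := exists_pp_of_not_le hA hN hcon
  have hne : ω v x ≠ 0 := by
    rw [hvx]
    exact one_ne_zero
  have h1 := hL.sv hA 1 hU hW hUW (pp_anti le_sup_left hv) (pp_anti le_sup_right hv) hT
  have h2 := CaseB_eq hL hE hk hT h1 (ω v) (inf_le_sv hA 1 v T)
  have hvT : v ∈ T := by
    by_contra hvT
    exact sv_ne hA one_ne_zero hvT hx hne h2
  exact hne (hL.ti T hT v hvT x hx)

theorem CaseB_cross (hA : ω.IsAlt) (hN : ω.Nondegenerate) (hL : Cl ω k L)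
    (h3 : ∀ U W : Submodule F V, ∃ T ∈ L, T ≠ U ∧ T ≠ W) {E : Submodule F V}
    (hE : ∀ U ∈ L, ∀ W ∈ L, U ≠ W → U ⊓ W = E) (hk : finrank F E + 3 ≤ k)
    {U W T : Submodule F V} (hU : U ∈ L) (hW : W ∈ L) (hT : T ∈ L) (hUW : U ≠ W) (hTU : T ≠ U)
    (hTW : T ≠ W) {a b : V} (ha : a ∈ U) (haE : a ∉ E) (hb : b ∈ W) (hbE : b ∉ E)
    (hab : ω a b = 0) : ∃ c : F, c ≠ 0 ∧ a + c • b ∈ T := by
  have h1 := hL.ev_cross hA hab hU hW hUW ha hb hT
  have h2 : T.map (ev hA hab : V →ₗ[F] V) = T := by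
    by_contra hne
    have g1 : T ⊓ LinearMap.ker (ω a) ⊓ LinearMap.ker (ω b) ≤ E := by
      rw [← hE T hT _ h1 (fun e => hne e.symm)]
      refine le_inf (inf_le_left.trans inf_le_left) ?_
      intro x hx
      refine ⟨x, hx.1.1, ?_⟩
      show ev hA hab x = x
      rw [ev_apply, LinearMap.mem_ker.mp hx.2, LinearMap.mem_ker.mp hx.1.2]
      simp
    have g2 := Submodule.finrank_mono g1
    have g3 := finrank_inf_ker_ge T (ω a)
    have g4 := finrank_inf_ker_ge (T ⊓ LinearMap.ker (ω a)) (ω b)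
    rw [hL.dim T hT] at g3
    omega
  have h4 : ∀ t ∈ T, ω b t • a + ω a t • b ∈ T := by
    intro t ht
    have g1 : ev hA hab t ∈ T.map (ev hA hab : V →ₗ[F] V) := Submodule.mem_map_of_mem ht
    rw [h2, ev_apply] at g1
    have g2 := T.sub_mem g1 ht
    rwa [add_assoc, add_sub_cancel_left] at g2
  have h5 : ∃ t ∈ T, ω a t ≠ 0 := by
    by_contra hcon
    push Not at hcon
    apply haE
    rw [← caseB_i hA hN hL h3 hE (by omega) T hT U hU hTU]
    exact ⟨ha, (mem_pp' hA).mpr hcon⟩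
  obtain ⟨t, ht, hat⟩ := h5
  have hbt : ω b t ≠ 0 := by
    intro h0
    have g1 := h4 t ht
    rw [h0, zero_smul, zero_add, T.smul_mem_iff hat] at g1
    apply hbE
    rw [← hE T hT W hW hTW]
    exact ⟨g1, hb⟩
  refine ⟨(ω b t)⁻¹ * ω a t, mul_ne_zero (inv_ne_zero hbt) hat, ?_⟩
  have g2 := T.smul_mem (ω b t)⁻¹ (h4 t ht)
  rwa [smul_add, smul_smul, smul_smul, inv_mul_cancel₀ hbt, one_smul] at g2

theorem caseB_iii (hA : ω.IsAlt) (hN : ω.Nondegenerate) (hL : Cl ω k L)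
    (h3 : ∀ U W : Submodule F V, ∃ T ∈ L, T ≠ U ∧ T ≠ W) {E : Submodule F V}
    (hE : ∀ U ∈ L, ∀ W ∈ L, U ≠ W → U ⊓ W = E) (hk : finrank F E + 2 ≤ k) :
    finrank F E + 2 = k := by
  by_contra hne
  have hk' : finrank F E + 3 ≤ k := by omega
  obtain ⟨U, hU, -, -⟩ := h3 ⊥ ⊥
  obtain ⟨W, hW, hWU, -⟩ := h3 U U
  obtain ⟨T, hT, hTU, hTW⟩ := h3 U W
  have hUW : U ≠ W := hWU.symm
  have ex : ∀ (X Y : Submodule F V), finrank F Y < finrank F X → ∃ x ∈ X, x ∉ Y := by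
    intro X Y h
    by_contra hcon
    push Not at hcon
    have := Submodule.finrank_mono (show X ≤ Y from hcon)
    omega
  obtain ⟨a, ha, haE⟩ := ex U E (by rw [hL.dim U hU]; omega)
  have hdim := finrank_inf_ker_ge W (ω a)
  rw [hL.dim W hW] at hdim
  obtain ⟨b, hb, hbE⟩ := ex (W ⊓ LinearMap.ker (ω a)) E (by omega)
  obtain ⟨b', hb', hbE'⟩ := ex (W ⊓ LinearMap.ker (ω a)) (E ⊔ span F {b}) (by
    rw [finrank_sup_span_singleton hbE]
    omega)
  have hbE'' : b' ∉ E := fun h => hbE' (le_sup_left (b := span F {b}) h)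
  obtain ⟨c, hc, h1⟩ := CaseB_cross hA hN hL h3 hE hk' hU hW hT hUW hTU hTW ha haE hb.1 hbE
    (LinearMap.mem_ker.mp hb.2)
  obtain ⟨c', hc', h2⟩ := CaseB_cross hA hN hL h3 hE hk' hU hW hT hUW hTU hTW ha haE hb'.1
    hbE'' (LinearMap.mem_ker.mp hb'.2)
  have h4 : c' • b' - c • b ∈ E := by
    rw [← hE T hT W hW hTW]
    refine ⟨?_, W.sub_mem (W.smul_mem _ hb'.1) (W.smul_mem _ hb.1)⟩
    have := T.sub_mem h2 h1
    rwa [add_sub_add_left_eq_sub] at this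
  apply hbE'
  rw [← Submodule.smul_mem_iff _ hc']
  have h5 : c' • b' = (c' • b' - c • b) + c • b := by abel
  rw [h5]
  exact add_mem (le_sup_left (b := span F {b}) h4)
    (Submodule.smul_mem _ _ (le_sup_right (a := E) (mem_span_singleton_self b)))

end Pool.Agent.Helper20.SI
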