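import Pool.Agent.Helper29.FT2.Main

/-!
# Project SI (MP_cc38df_co): definitions and basic facts on symplectic spaces

`ω` is a nondegenerate alternating form on `V`.  `TI ω U`: `U` is totally isotropic.
`pp ω U` is the orthogonal complement.  `Iso ω g`: `g` is an isometry.
-/

open Module Submodule Finset

set_option linter.unusedSectionVars false

namespace Pool.Agent.Helper20.SI

open Pool.Agent.Helper29.FT Pool.Agent.Helper29.FT2

variable {F V : Type*} [Field F] [AddCommGroup V] [Module F V]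

/-- `U` is totally isotropic -/
def TI (ω : LinearMap.BilinForm F V) (U : Submodule F V) : Prop :=
  ∀ x ∈ U, ∀ y ∈ U, ω x y = 0

/-- the linear bijection `g` is an isometry -/
def Iso (ω : LinearMap.BilinForm F V) (g : V ≃ₗ[F] V) : Prop :=
  ∀ x y, ω (g x) (g y) = ω x y

/-- the orthogonal complement -/
def pp (ω : LinearMap.BilinForm F V) (U : Submodule F V) : Submodule F V where
  carrier := {x | ∀ u ∈ U, ω u x = 0}
  add_mem' := by
    intro a b ha hb u hu
    rw [map_add, ha u hu, hb u hu, add_zero]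
  zero_mem' := by
    intro u _
    rw [map_zero]
  smul_mem' := by
    intro c x hx u hu
    rw [map_smul, hx u hu, smul_zero]

/-- the totally isotropic `k`-dimensional subspaces -/
noncomputable def IsoGr [Finite F] [FiniteDimensional F V] (ω : LinearMap.BilinForm F V)
    (k : ℕ) : Finset (Submodule F V) :=
  Set.Finite.toFinset (s := {U : Submodule F V | finrank F U = k ∧ TI ω U})
    (@Set.toFinite _ _ (@Subtype.finite _ (finite_sub F V) _))

/-- the set of lines is invariant under the symplectic group -/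
def SpInvariant [DecidableEq (Submodule F V)] (ω : LinearMap.BilinForm F V)
    (B : Finset (Finset (Submodule F V))) : Prop :=
  ∀ g : V ≃ₗ[F] V, (∀ x y, ω (g x) (g y) = ω x y) →
    ∀ l ∈ B, l.image (fun U => U.map (g : V →ₗ[F] V)) ∈ B

/-- the symplectic group is transitive on the flags -/
def SpFlagTransitive [DecidableEq (Submodule F V)] (ω : LinearMap.BilinForm F V)
    (B : Finset (Finset (Submodule F V))) : Prop :=
  ∀ l ∈ B, ∀ U ∈ l, ∀ m ∈ B, ∀ W ∈ m, ∃ g : V ≃ₗ[F] V, (∀ x y, ω (g x) (g y) = ω x y) ∧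
    U.map (g : V →ₗ[F] V) = W ∧ l.image (fun U => U.map (g : V →ₗ[F] V)) = m

open Classical in
/-- the points of a plane `H` -/
noncomputable def hline [Finite F] [FiniteDimensional F V] (ω : LinearMap.BilinForm F V)
    (H : Submodule F V) : Finset (Submodule F V) :=
  {P ∈ IsoGr ω 1 | P ≤ H}

open Classical in
/-- the hyperbolic lines: the points of each two-dimensional subspace that is not totally
isotropic -/
noncomputable def hyps [Finite F] [FiniteDimensional F V] [DecidableEq (Submodule F V)]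
    (ω : LinearMap.BilinForm F V) : Finset (Finset (Submodule F V)) :=
  ({H ∈ Gr F V 2 | ¬ TI ω H} : Finset (Submodule F V)).image (hline ω)

/-- closed sets: `L` consists of totally isotropic `k`-dimensional subspaces and is preserved
by every isometry that fixes two different elements of `L` -/
structure Cl (ω : LinearMap.BilinForm F V) (k : ℕ) (L : Finset (Submodule F V)) : Prop where
  dim : ∀ U ∈ L, finrank F U = k
  ti : ∀ U ∈ L, TI ω U
  cl : ∀ g : V ≃ₗ[F] V, Iso ω g → ∀ U ∈ L, ∀ W ∈ L, U ≠ W → U.map (g : V →ₗ[F] V) = U →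
    W.map (g : V →ₗ[F] V) = W → ∀ T ∈ L, T.map (g : V →ₗ[F] V) ∈ L

/-- `v` lies in two different elements of `L` -/
def Good (L : Finset (Submodule F V)) (v : V) : Prop :=
  ∃ U ∈ L, ∃ W ∈ L, U ≠ W ∧ v ∈ U ∧ v ∈ W

variable {ω : LinearMap.BilinForm F V}

theorem mem_pp {U : Submodule F V} {x : V} : x ∈ pp ω U ↔ ∀ u ∈ U, ω u x = 0 := Iff.rfl

theorem mem_IsoGr [Finite F] [FiniteDimensional F V] {k : ℕ} {U : Submodule F V} :
    U ∈ IsoGr ω k ↔ finrank F U = k ∧ TI ω U := by
  rw [IsoGr, Set.Finite.mem_toFinset]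
  rfl

theorem mem_hline [Finite F] [FiniteDimensional F V] {H P : Submodule F V} :
    P ∈ hline ω H ↔ finrank F P = 1 ∧ P ≤ H ∧ TI ω P := by
  classical
  simp only [hline, mem_filter, mem_IsoGr]
  tauto

theorem mem_hyps [Finite F] [FiniteDimensional F V] [DecidableEq (Submodule F V)]
    {l : Finset (Submodule F V)} :
    l ∈ hyps ω ↔ ∃ H : Submodule F V, finrank F H = 2 ∧ ¬ TI ω H ∧ l = hline ω H := by
  classical
  simp only [hyps, mem_image, mem_filter, mem_Gr]
  constructor
  · rintro ⟨H, ⟨h1, h2⟩, rfl⟩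
    exact ⟨H, h1, h2, rfl⟩
  · rintro ⟨H, h1, h2, rfl⟩
    exact ⟨H, ⟨h1, h2⟩, rfl⟩

/-! ### alternating forms -/

theorem swap (hA : ω.IsAlt) (x y : V) : ω x y = - ω y x := (hA.neg_eq y x).symm

theorem swap0 (hA : ω.IsAlt) {x y : V} (h : ω x y = 0) : ω y x = 0 := by
  rw [swap hA, h, neg_zero]

theorem swap_iff (hA : ω.IsAlt) {x y : V} : ω x y = 0 ↔ ω y x = 0 := ⟨swap0 hA, swap0 hA⟩

theorem self0 (hA : ω.IsAlt) (x : V) : ω x x = 0 := hA x

theorem mem_pp' (hA : ω.IsAlt) {U : Submodule F V} {x : V} :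
    x ∈ pp ω U ↔ ∀ u ∈ U, ω x u = 0 :=
  ⟨fun h u hu => swap0 hA (h u hu), fun h u hu => swap0 hA (h u hu)⟩

theorem ti_iff {U : Submodule F V} : TI ω U ↔ U ≤ pp ω U :=
  ⟨fun h _ hx u hu => h u hu _ hx, fun h _ hx _ hy => h hy _ hx⟩

theorem TI.mono {U W : Submodule F V} (h : TI ω W) (hUW : U ≤ W) : TI ω U :=
  fun x hx y hy => h x (hUW hx) y (hUW hy)

theorem pp_anti {U W : Submodule F V} (h : U ≤ W) : pp ω W ≤ pp ω U :=
  fun _ hx u hu => hx u (h hu)

theorem le_pp_iff (hA : ω.IsAlt) {U W : Submodule F V} : U ≤ pp ω W ↔ W ≤ pp ω U :=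
  ⟨fun h w hw _ hu => swap0 hA (h hu w hw), fun h _ hu w hw => swap0 hA (h hw _ hu)⟩

theorem pp_sup (U W : Submodule F V) : pp ω (U ⊔ W) = pp ω U ⊓ pp ω W := by
  apply le_antisymm
  · exact le_inf (pp_anti le_sup_left) (pp_anti le_sup_right)
  · intro x hx u hu
    obtain ⟨a, ha, b, hb, rfl⟩ := mem_sup.mp hu
    rw [map_add, LinearMap.add_apply, hx.1 a ha, hx.2 b hb, add_zero]

theorem mem_pp_span {v x : V} : x ∈ pp ω (span F {v}) ↔ ω v x = 0 := by
  constructor
  · intro h
    exact h v (mem_span_singleton_self v)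
  · intro h u hu
    obtain ⟨c, rfl⟩ := mem_span_singleton.mp hu
    rw [map_smul, LinearMap.smul_apply, h, smul_zero]

theorem ti_sup (hA : ω.IsAlt) {U W : Submodule F V} (hU : TI ω U) (hW : TI ω W)
    (h : U ≤ pp ω W) : TI ω (U ⊔ W) := by
  intro x hx y hy
  obtain ⟨a, ha, b, hb, rfl⟩ := mem_sup.mp hx
  obtain ⟨c, hc, d, hd, rfl⟩ := mem_sup.mp hy
  rw [map_add, map_add, LinearMap.add_apply, LinearMap.add_apply, hU a ha c hc, hW b hb d hd,
    h hc b hb, swap0 hA (h ha d hd)]
  simp

theorem ti_span (hA : ω.IsAlt) (v : V) : TI ω (span F {v}) := by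
  intro x hx y hy
  obtain ⟨c, rfl⟩ := mem_span_singleton.mp hx
  obtain ⟨d, rfl⟩ := mem_span_singleton.mp hy
  simp [self0 hA]

theorem ti_sup_span (hA : ω.IsAlt) {U : Submodule F V} {v : V} (hU : TI ω U)
    (h : ∀ u ∈ U, ω u v = 0) : TI ω (U ⊔ span F {v}) := by
  apply ti_sup hA hU (ti_span hA v)
  intro u hu
  rw [mem_pp_span]
  exact swap0 hA (h u hu)

variable [FiniteDimensional F V]

theorem pp_eq (U : Submodule F V) : pp ω U = ω.orthogonal U := by
  ext x
  rw [mem_pp, LinearMap.BilinForm.mem_orthogonal_iff]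

theorem finrank_pp (_hA : ω.IsAlt) (hN : ω.Nondegenerate) (U : Submodule F V) :
    finrank F (pp ω U) + finrank F U = finrank F V := by
  rw [pp_eq]
  have h := LinearMap.BilinForm.finrank_orthogonal hN U
  have h2 := Submodule.finrank_le U
  omega

theorem pp_pp (hA : ω.IsAlt) (hN : ω.Nondegenerate) (U : Submodule F V) :
    pp ω (pp ω U) = U := by
  rw [pp_eq, pp_eq]
  exact LinearMap.BilinForm.orthogonal_orthogonal hN hA.isRefl U

theorem pp_bot (hA : ω.IsAlt) (hN : ω.Nondegenerate) : pp ω (⊤ : Submodule F V) = ⊥ := by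
  apply Submodule.finrank_eq_zero.mp
  have := finrank_pp hA hN (⊤ : Submodule F V)
  rw [finrank_top] at this
  omega

theorem TI.le (hA : ω.IsAlt) (hN : ω.Nondegenerate) {U : Submodule F V} (h : TI ω U) :
    2 * finrank F U ≤ finrank F V := by
  have h1 := Submodule.finrank_mono (ti_iff.mp h)
  have h2 := finrank_pp hA hN U
  omega

/-- separation of a vector from a subspace by a vector of the complement -/
theorem exists_pp (hA : ω.IsAlt) (hN : ω.Nondegenerate) {U : Submodule F V} {x : V}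
    (hx : x ∉ U) : ∃ v ∈ pp ω U, ω v x = 1 := by
  by_contra hcon
  push Not at hcon
  apply hx
  rw [← pp_pp hA hN U]
  intro v hv
  by_contra h0
  apply hcon ((ω v x)⁻¹ • v) ((pp ω U).smul_mem _ hv)
  rw [map_smul, LinearMap.smul_apply, smul_eq_mul, inv_mul_cancel₀ h0]

/-- a subspace not contained in another one contains a vector not orthogonal to something in
the complement of the latter -/
theorem exists_pp_of_not_le (hA : ω.IsAlt) (hN : ω.Nondegenerate) {U T : Submodule F V}
    (h : ¬ T ≤ U) : ∃ v ∈ pp ω U, ∃ x ∈ T, ω v x = 1 := by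
  obtain ⟨x, hx, hxU⟩ := SetLike.not_le_iff_exists.mp h
  obtain ⟨v, hv, hvx⟩ := exists_pp hA hN hxU
  exact ⟨v, hv, x, hx, hvx⟩

/-- every functional is given by a vector -/
theorem exists_vec (hN : ω.Nondegenerate) (f : Dual F V) : ∃ v : V, ∀ x, ω v x = f x := by
  have h1 : Function.Injective ω := by
    rw [← LinearMap.ker_eq_bot]
    exact LinearMap.BilinForm.Nondegenerate.ker_eq_bot hN
  have h2 : Function.Surjective ω := by
    have h3 : finrank F V = finrank F (Dual F V) := (Subspace.dual_finrank_eq).symm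
    exact (LinearMap.injective_iff_surjective_of_finrank_eq_finrank h3).mp h1
  obtain ⟨v, hv⟩ := h2 f
  exact ⟨v, fun x => by rw [hv]⟩

end Pool.Agent.Helper20.SI
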