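import Pool.Agent.Helper20.SI.Sp

/-!
# SI-08 GoodD: the good vectors form a totally isotropic subspace

`exists_goodSub`: `Good L` is closed under scalars, contains `0` (two elements exist), and under sums: `v, x` good; if
`x = c • v` it is a multiple of `v`. If `ω v x ≠ 0`: `sv hA (ω v x)⁻¹ v` maps `x` to `x + v`; it preserves `L` (`Cl.sv_good`), so
`x + v` is good (`Good.map`). If `ω v x = 0`, `x ∉ span {v}`: `exists_pp` gives `w` with `ω v w = 0` (i.e. `w ∈ pp (span {v})`) and
`ω w x = 1`; `ev hA (h : ω v w = 0)` (with `a = v`, `b = w`) maps `x` to `x + ω w x • v + ω v x • w = x + v`, preserves `L`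
(`Cl.ev_good`).
`good_ti`: suppose `v, x ∈ D`, `ω v x ≠ 0`. For `w` with `ω v w = 0`: `ev hA h x = x + ω w x • v + ω v x • w ∈ D`, so `w ∈ D`. So
`v^⊥ ≤ D`, in the same way `x^⊥ ≤ D`; every `y` is a sum (`y - (ω v y / ω v x) • x ∈ v^⊥`), so `D = ⊤`: every vector is good. CLAIM: then
every totally isotropic `R` of dimension `k` is in `L` (contradiction with `hne`). Choose `T ∈ L` with `finrank (R ⊓ T)` maximal
(or prove by induction on `m ≤ k` that some `T ∈ L` has `m ≤ finrank (R ⊓ T)`; see `FT2.caseI`). If `R ≠ T`, take `r ∈ R`, `r ∉ T`.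
(a) some `x ∈ T` has `ω r x ≠ 0`: `sv hA c (r - x)` with `c = (ω (r - x) x)⁻¹ = (ω r x)⁻¹` maps `x` to `r` and fixes
`T ⊓ r^⊥` pointwise; the image `T'` of `T` contains `r` and `R ⊓ T ≤ T ⊓ r^⊥`. (b) `ω r x = 0` for all `x ∈ T`: choose a hyperplane `Y` of `T`
with `R ⊓ T ≤ Y` (`exists_between`) and `x ∈ T`, `x ∉ Y`. `x ∉ Y ⊔ span {r}` (as `r ∉ T`), so `exists_pp` gives `w ∈ pp (Y ⊔ span {r})` with
`ω w x = 1`: `ev (a = r, b = w)` maps `x` to `x + r` and fixes `Y` pointwise. Next `r ∉ Y ⊔ span {x} = T`: `w' ∈ pp T` with `ω w' r = -1`: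
`ev (a = x, b = w')` maps `x + r` to `x + r + ω w' (x + r) • x + ω x (x + r) • w' = r`, fixes `Y` pointwise. So `T' = Y ⊔ span {r} ∈ L`, and
`R ⊓ T' ≥ (R ⊓ T) ⊔ span {r}`. All the maps preserve `L` as all vectors are good.
-/

open Module Submodule Finset

set_option linter.unusedSectionVars false

namespace Pool.Agent.Helper20.SI

open Pool.Agent.Helper29.FT Pool.Agent.Helper29.FT2

variable {F V : Type*} [Field F] [AddCommGroup V] [Module F V] [FiniteDimensional F V]
variable {ω : LinearMap.BilinForm F V}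

variable {k : ℕ} {L : Finset (Submodule F V)}

theorem exists_goodSub (hA : ω.IsAlt) (hN : ω.Nondegenerate) (hL : Cl ω k L)
    (h2 : ∃ U ∈ L, ∃ W ∈ L, U ≠ W) : ∃ D : Submodule F V, ∀ v, v ∈ D ↔ Good L v := by
  have hsmul : ∀ (c : F) (v : V), Good L v → Good L (c • v) := by
    rintro c v ⟨U, hU, W, hW, hUW, hvU, hvW⟩
    exact ⟨U, hU, W, hW, hUW, U.smul_mem c hvU, W.smul_mem c hvW⟩
  refine ⟨⟨⟨⟨{v | Good L v}, ?_⟩, ?_⟩, ?_⟩, fun v => Iff.rfl⟩
  · intro x v hx hv
    show Good L (x + v)
    have hx' : Good L x := hx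
    have hv' : Good L v := hv
    by_cases h0 : ω v x = 0
    · by_cases hs : x ∈ span F {v}
      · obtain ⟨c, rfl⟩ := mem_span_singleton.mp hs
        have h1 := hsmul (c + 1) v hv'
        rwa [add_smul, one_smul] at h1
      · obtain ⟨w, hw, hwx⟩ := exists_pp hA hN hs
        have hvw : ω v w = 0 := mem_pp_span.mp hw
        have h1 := Good.map (g := ev hA hvw) (fun T hT => hL.ev_good hA hvw hv' hT) hx'
        rwa [ev_apply, hwx, one_smul, h0, zero_smul, add_zero] at h1
    · have h1 := Good.map (g := sv hA (ω v x)⁻¹ v) (fun T hT => hL.sv_good hA _ hv' hT) hx'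
      rwa [sv_apply, inv_mul_cancel₀ h0, one_smul] at h1
  · obtain ⟨U, hU, W, hW, hUW⟩ := h2
    exact ⟨U, hU, W, hW, hUW, U.zero_mem, W.zero_mem⟩
  · intro c v hv
    exact hsmul c v hv

theorem good_ti (hA : ω.IsAlt) (hN : ω.Nondegenerate) (hL : Cl ω k L) {D : Submodule F V}
    (hD : ∀ v, v ∈ D ↔ Good L v) (hne : ∃ R : Submodule F V, finrank F R = k ∧ TI ω R ∧ R ∉ L) :
    TI ω D := by
  by_contra hcon
  unfold TI at hcon
  push Not at hcon
  obtain ⟨v, hv, x, hx, hvx⟩ := hcon
  have hperp : ∀ w, ω v w = 0 → w ∈ D := by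
    intro w hw
    have h1 := (hD _).mpr (Good.map (g := ev hA hw) (fun T hT => hL.ev_good hA hw ((hD v).mp hv) hT)
      ((hD x).mp hx))
    rw [ev_apply] at h1
    have h2 := D.sub_mem h1 (D.add_mem hx (D.smul_mem (ω w x) hv))
    rw [add_sub_cancel_left, D.smul_mem_iff hvx] at h2
    exact h2
  have hall : ∀ y, Good L y := by
    intro y
    rw [← hD]
    have h1 : ω v (y - (ω v y / ω v x) • x) = 0 := by
      rw [map_sub, map_smul, smul_eq_mul, div_mul_cancel₀ _ hvx, sub_self]
    have h2 := D.add_mem (hperp _ h1) (D.smul_mem (ω v y / ω v x) hx)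
    rwa [sub_add_cancel] at h2
  obtain ⟨R, hRk, hRt, hRL⟩ := hne
  apply hRL
  have key : ∀ m : ℕ, m ≤ k → ∃ T ∈ L, m ≤ finrank F (R ⊓ T : Submodule F V) := by
    intro m
    induction m with
    | zero =>
      intro _
      obtain ⟨U, hU, -⟩ := hall 0
      exact ⟨U, hU, Nat.zero_le _⟩
    | succ m ih =>
      intro hm
      obtain ⟨T, hT, hmT⟩ := ih (by omega)
      by_cases hbig : m + 1 ≤ finrank F (R ⊓ T : Submodule F V)
      · exact ⟨T, hT, hbig⟩
      have hTt := hL.ti T hT
      have hTk := hL.dim T hT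
      have hRT : ¬ R ≤ T := by
        intro h
        rw [inf_eq_left.mpr h, hRk] at hbig
        omega
      obtain ⟨r, hrR, hrT⟩ := SetLike.not_le_iff_exists.mp hRT
      have hfin : ∀ T' : Submodule F V, r ∈ T' → R ⊓ T ≤ T' →
          m + 1 ≤ finrank F (R ⊓ T' : Submodule F V) := by
        intro T' hr' hle
        have h1 : R ⊓ T < R ⊓ T' := by
          refine lt_of_le_of_ne (le_inf inf_le_left hle) ?_
          intro heq
          have h2 : r ∈ R ⊓ T' := ⟨hrR, hr'⟩
          rw [← heq] at h2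
          exact hrT h2.2
        have h2 := Submodule.finrank_lt_finrank_of_lt h1
        omega
      by_cases ha : ∃ z ∈ T, ω r z ≠ 0
      · obtain ⟨z, hz, hrz⟩ := ha
        have hc : ω (r - z) z = ω r z := by
          rw [map_sub, LinearMap.sub_apply, self0 hA, sub_zero]
        refine ⟨T.map (sv hA (ω (r - z) z)⁻¹ (r - z) : V →ₗ[F] V), hL.sv_good hA _ (hall _) hT, ?_⟩
        apply hfin
        · refine ⟨z, hz, ?_⟩
          show sv hA (ω (r - z) z)⁻¹ (r - z) z = r
          rw [sv_apply, inv_mul_cancel₀ (by rw [hc]; exact hrz), one_smul, add_sub_cancel]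
        · intro y hy
          refine ⟨y, hy.2, ?_⟩
          show sv hA (ω (r - z) z)⁻¹ (r - z) y = y
          have h1 : ω (r - z) y = 0 := by
            rw [map_sub, LinearMap.sub_apply, hRt r hrR y hy.1, hTt z hz y hy.2, sub_zero]
          rw [sv_apply, h1, mul_zero, zero_smul, add_zero]
      · push Not at ha
        obtain ⟨Y, hY1, hY2, hY3⟩ := exists_between (A := R ⊓ T) (X := T) (m := k - 1) inf_le_right
          (by omega) (by omega)
        have hYT : ¬ T ≤ Y := by
          intro h
          have h1 := Submodule.finrank_mono h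
          omega
        obtain ⟨z, hzT, hzY⟩ := SetLike.not_le_iff_exists.mp hYT
        have hz1 : z ∉ Y ⊔ span F {r} := by
          intro h
          obtain ⟨y, hy, q, hq, hyq⟩ := mem_sup.mp h
          obtain ⟨c, rfl⟩ := mem_span_singleton.mp hq
          by_cases hc : c = 0
          · rw [hc, zero_smul, add_zero] at hyq
            exact hzY (hyq ▸ hy)
          · have h1 : c • r ∈ T := by
              have h2 := T.sub_mem hzT (hY2 hy)
              rwa [← hyq, add_sub_cancel_left] at h2
            rw [T.smul_mem_iff hc] at h1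
            exact hrT h1
        obtain ⟨w, hw, hwz⟩ := exists_pp hA hN hz1
        have hrw : ω r w = 0 := hw r (mem_sup_right (mem_span_singleton_self r))
        obtain ⟨w', hw', hwr⟩ := exists_pp hA hN hrT
        have hzw : ω z (-w') = 0 := by
          rw [map_neg, hw' z hzT, neg_zero]
        refine ⟨(T.map (ev hA hrw : V →ₗ[F] V)).map (ev hA hzw : V →ₗ[F] V),
          hL.ev_good hA hzw (hall z) (hL.ev_good hA hrw (hall r) hT), ?_⟩
        apply hfin
        · refine ⟨ev hA hrw z, Submodule.mem_map_of_mem hzT, ?_⟩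
          show ev hA hzw (ev hA hrw z) = r
          have h1 : ev hA hrw z = z + r := by
            rw [ev_apply, hwz, one_smul, ha z hzT, zero_smul, add_zero]
          have h2 : ω (-w') (z + r) = -1 := by
            rw [map_neg, LinearMap.neg_apply, map_add, swap0 hA (hw' z hzT), zero_add, hwr]
          have h3 : ω z (z + r) = 0 := by
            rw [map_add, self0 hA, swap0 hA (ha z hzT), add_zero]
          rw [h1, ev_apply, h2, h3, zero_smul, add_zero, neg_smul, one_smul]
          abel
        · intro y hy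
          have hyY := hY1 hy
          have h1 : ev hA hrw y = y := by
            rw [ev_apply, swap0 hA (hw y (mem_sup_left hyY)), zero_smul, add_zero, ha y hy.2,
              zero_smul, add_zero]
          have h2 : ev hA hzw y = y := by
            rw [ev_apply, map_neg, LinearMap.neg_apply, swap0 hA (hw' y hy.2), neg_zero, zero_smul,
              add_zero, hTt z hzT y hy.2, zero_smul, add_zero]
          refine ⟨y, ⟨y, hy.2, ?_⟩, ?_⟩
          · exact h1
          · exact h2
  obtain ⟨T, hT, hkT⟩ := key k le_rfl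
  have h1 : R ⊓ T = R := by
    apply Submodule.eq_of_le_of_finrank_le inf_le_left
    rw [hRk]
    exact hkT
  have h2 : R ⊓ T = T := by
    apply Submodule.eq_of_le_of_finrank_le inf_le_right
    rw [hL.dim T hT]
    exact hkT
  rw [← h1, h2]
  exact hT

end Pool.Agent.Helper20.SI
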