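import Pool.Agent.Helper20.SI.SpB
import Pool.Agent.Helper29.FT2.Aut

/-!
# SI-24 Hyps: the hyperbolic lines form a semipartial geometry

`hyps_inv`: `(hline ω H).image (map g) = hline ω (H.map g)` for an isometry `g` (`TI.map`, `map_symm_map'`), `¬ TI ω (H.map g)`. `hyps_coll`: for points `P, Q`: if they are not orthogonal,
`H = P ⊔ Q`; conversely a line through both is `hline ω H` with `H = P ⊔ Q` not totally isotropic, so `P` is not orthogonal to `Q`.
`hyps_nl`: `a ≠ 0`, `b ∈ pp (span {a})`, `b ∉ span {a}` (`n ≥ 4`).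
`hyps_flag`: flags `(P, H)`, `(P', H')`: `P = span {a}`, `H = span {a} ⊔ span {b}`, `ω a b = 1` (`b ∈ H` not orthogonal to `a`, scaled); the same for the second: `witt` with `X = H`,
`a ↦ a'`, `b ↦ b'`.
-/

open Module Submodule Finset

set_option linter.unusedSectionVars false

namespace Pool.Agent.Helper20.SI

open Pool.Agent.Helper29.FT Pool.Agent.Helper29.FT2

variable {F V : Type*} [Field F] [AddCommGroup V] [Module F V] [FiniteDimensional F V]
variable {ω : LinearMap.BilinForm F V}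

variable [Finite F] [DecidableEq (Submodule F V)] {B : Finset (Finset (Submodule F V))}
  {k α s t μ : ℕ}

theorem Hyps_image {g : V ≃ₗ[F] V} (hg : Iso ω g) (H : Submodule F V) :
    (hline ω H).image (fun U => U.map (g : V →ₗ[F] V)) = hline ω (H.map (g : V →ₗ[F] V)) := by
  ext P
  rw [mem_image, mem_hline]
  constructor
  · rintro ⟨Q, hQ, rfl⟩
    obtain ⟨h1, h2, h3⟩ := mem_hline.mp hQ
    exact ⟨by rw [finrank_map', h1], Submodule.map_mono h2, h3.map hg⟩
  · rintro ⟨h1, h2, h3⟩
    refine ⟨P.map (g.symm : V →ₗ[F] V), mem_hline.mpr ⟨by rw [finrank_map', h1], ?_, ?_⟩, ?_⟩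
    · have := Submodule.map_mono (f := (g.symm : V →ₗ[F] V)) h2
      rwa [map_symm_map'] at this
    · exact TI.map (Iso.symm hg) h3
    · have := map_symm_map' g.symm P
      rwa [g.symm_symm] at this

theorem hyps_inv : SpInvariant ω (hyps ω) := by
  intro g hg l hl
  obtain ⟨H, hH, hTI, rfl⟩ := mem_hyps.mp hl
  rw [Hyps_image hg, mem_hyps]
  refine ⟨_, by rw [finrank_map', hH], ?_, rfl⟩
  intro h
  apply hTI
  have := TI.map (Iso.symm hg) h
  rwa [map_symm_map'] at this

theorem Hyps_one {P : Submodule F V} (hP : finrank F P = 1) :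
    ∃ a : V, a ≠ 0 ∧ P = span F {a} := by
  obtain ⟨v, hv, h⟩ := finrank_eq_one_iff'.mp hP
  refine ⟨v, fun h0 => hv (Subtype.ext h0), ?_⟩
  apply le_antisymm
  · intro x hx
    obtain ⟨c, hc⟩ := h ⟨x, hx⟩
    exact mem_span_singleton.mpr ⟨c, congrArg Subtype.val hc⟩
  · rw [span_singleton_le_iff_mem]
    exact v.2

theorem Hyps_ti (hA : ω.IsAlt) {P : Submodule F V} (hP : finrank F P = 1) : TI ω P := by
  obtain ⟨a, -, rfl⟩ := Hyps_one hP
  exact ti_span hA a

theorem Hyps_sup {P Q : Submodule F V} (hP : finrank F P = 1) (hQ : finrank F Q = 1)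
    (h : P ≠ Q) : finrank F (P ⊔ Q : Submodule F V) = 2 := by
  have h1 := Submodule.finrank_sup_add_finrank_inf_eq P Q
  have h2 : finrank F (P ⊓ Q : Submodule F V) ≤ finrank F P := Submodule.finrank_mono inf_le_left
  have h3 : finrank F (P ⊓ Q : Submodule F V) ≠ 1 := by
    intro h3
    have h4 : P ⊓ Q = P := Submodule.eq_of_le_of_finrank_eq inf_le_left (by rw [h3, hP])
    have h5 : P ⊓ Q = Q := Submodule.eq_of_le_of_finrank_eq inf_le_right (by rw [h3, hQ])
    exact h (h4.symm.trans h5)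
  omega

theorem hyps_coll {P Q : Submodule F V} (hP : finrank F P = 1) (hQ : finrank F Q = 1)
    (hA : ω.IsAlt) : Coll (hyps ω) P Q ↔ ¬ P ≤ pp ω Q := by
  constructor
  · rintro ⟨hne, l, hl, hPl, hQl⟩ hle
    obtain ⟨H, hH, hTI, rfl⟩ := mem_hyps.mp hl
    obtain ⟨-, h1, h2⟩ := mem_hline.mp hPl
    obtain ⟨-, h3, h4⟩ := mem_hline.mp hQl
    have h5 : P ⊔ Q = H :=
      Submodule.eq_of_le_of_finrank_eq (sup_le h1 h3) (by rw [Hyps_sup hP hQ hne, hH])
    apply hTI
    rw [← h5]
    exact ti_sup hA h2 h4 hle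
  · intro h
    have hne : P ≠ Q := by
      rintro rfl
      exact h (ti_iff.mp (Hyps_ti hA hP))
    refine ⟨hne, hline ω (P ⊔ Q), mem_hyps.mpr ⟨_, Hyps_sup hP hQ hne, ?_, rfl⟩,
      mem_hline.mpr ⟨hP, le_sup_left, Hyps_ti hA hP⟩,
      mem_hline.mpr ⟨hQ, le_sup_right, Hyps_ti hA hQ⟩⟩
    intro hTI
    apply h
    intro x hx q hq
    exact hTI q (le_sup_right (a := P) hq) x (le_sup_left (b := Q) hx)

theorem hyps_nl (hA : ω.IsAlt) (hN : ω.Nondegenerate) (hn : 4 ≤ finrank F V) :
    NonLinear (IsoGr ω 1) (hyps ω) := by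
  have hnt : Nontrivial V := Module.nontrivial_of_finrank_pos (R := F) (by omega)
  obtain ⟨a, ha⟩ := exists_ne (0 : V)
  have h1 : finrank F (span F {a}) = 1 := finrank_span_singleton ha
  have h2 := finrank_pp hA hN (span F {a})
  have h3 : ¬ pp ω (span F {a}) ≤ span F {a} := by
    intro h
    have := Submodule.finrank_mono h
    omega
  obtain ⟨b, hb, hba⟩ := SetLike.not_le_iff_exists.mp h3
  have hb0 : b ≠ 0 := by
    rintro rfl
    exact hba (zero_mem _)
  have h4 : finrank F (span F {b}) = 1 := finrank_span_singleton hb0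
  refine ⟨span F {a}, mem_IsoGr.mpr ⟨h1, ti_span hA a⟩, span F {b},
    mem_IsoGr.mpr ⟨h4, ti_span hA b⟩, ?_, ?_⟩
  · intro h
    apply hba
    rw [h]
    exact mem_span_singleton_self b
  · rw [hyps_coll h1 h4 hA, not_not, span_singleton_le_iff_mem, mem_pp_span]
    exact swap0 hA (mem_pp_span.mp hb)

theorem Hyps_pair (hA : ω.IsAlt) {P H : Submodule F V} (hP : finrank F P = 1)
    (hH : finrank F H = 2) (hTI : ¬ TI ω H) (hPH : P ≤ H) :
    ∃ a b : V, P = span F {a} ∧ H = span F {a} ⊔ span F {b} ∧ ω a b = 1 := by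
  obtain ⟨a, ha, rfl⟩ := Hyps_one hP
  have haH : a ∈ H := hPH (mem_span_singleton_self a)
  have key : ∀ c ∈ H, c ∉ span F {a} → span F {a} ⊔ span F {c} = H := by
    intro c hc hca
    have hc0 : c ≠ 0 := by
      rintro rfl
      exact hca (zero_mem _)
    apply Submodule.eq_of_le_of_finrank_eq
      (sup_le hPH ((span_singleton_le_iff_mem _ _).mpr hc))
    rw [hH]
    apply Hyps_sup hP (finrank_span_singleton hc0)
    intro h
    apply hca
    rw [h]
    exact mem_span_singleton_self c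
  have h1 : ∃ b ∈ H, ω a b ≠ 0 := by
    by_contra hcon
    push Not at hcon
    have h2 : ¬ H ≤ span F {a} := by
      intro h
      have := Submodule.finrank_mono h
      omega
    obtain ⟨c, hc, hca⟩ := SetLike.not_le_iff_exists.mp h2
    apply hTI
    rw [← key c hc hca]
    apply ti_sup hA (ti_span hA a) (ti_span hA c)
    rw [span_singleton_le_iff_mem, mem_pp_span]
    exact swap0 hA (hcon c hc)
  obtain ⟨b, hb, hab⟩ := h1
  have h2 : ω a ((ω a b)⁻¹ • b) = 1 := by
    rw [map_smul, smul_eq_mul, inv_mul_cancel₀ hab]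
  refine ⟨a, (ω a b)⁻¹ • b, rfl, (key _ (H.smul_mem _ hb) ?_).symm, h2⟩
  intro h
  have := ti_span hA a a (mem_span_singleton_self a) _ h
  rw [h2] at this
  exact one_ne_zero this

theorem Hyps_coord (hA : ω.IsAlt) {a b x : V} (hab : ω a b = 1)
    (hx : x ∈ span F {a} ⊔ span F {b}) : x = ω x b • a + ω a x • b := by
  obtain ⟨y, hy, z, hz, rfl⟩ := mem_sup.mp hx
  obtain ⟨c, rfl⟩ := mem_span_singleton.mp hy
  obtain ⟨d, rfl⟩ := mem_span_singleton.mp hz
  simp [self0 hA, hab]

theorem hyps_flag (hA : ω.IsAlt) (hN : ω.Nondegenerate) : SpFlagTransitive ω (hyps ω) := by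
  intro l hl U hU m hm W hW
  obtain ⟨H, hH, hTI, rfl⟩ := mem_hyps.mp hl
  obtain ⟨H', hH', hTI', rfl⟩ := mem_hyps.mp hm
  obtain ⟨hU1, hUH, -⟩ := mem_hline.mp hU
  obtain ⟨hW1, hWH, -⟩ := mem_hline.mp hW
  obtain ⟨a, b, hUa, hHab, hab⟩ := Hyps_pair hA hU1 hH hTI hUH
  obtain ⟨a', b', hWa, hHab', hab'⟩ := Hyps_pair hA hW1 hH' hTI' hWH
  have hba : ω b a = -1 := by rw [swap hA, hab]
  have hba' : ω b' a' = -1 := by rw [swap hA, hab']
  set f : H →ₗ[F] V := ((-(ω b)).smulRight a' + (ω a).smulRight b') ∘ₗ H.subtype with hf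
  have hfx : ∀ x : H, f x = ω (x : V) b • a' + ω a (x : V) • b' := by
    intro x
    simp only [hf, LinearMap.comp_apply, Submodule.subtype_apply, LinearMap.add_apply,
      LinearMap.smulRight_apply, LinearMap.neg_apply]
    rw [swap hA (x : V) b]
  have hco : ∀ x : H, (x : V) = ω (x : V) b • a + ω a (x : V) • b := fun x =>
    Hyps_coord hA hab (by rw [← hHab]; exact x.2)
  have hinj : Function.Injective f := by
    rw [← LinearMap.ker_eq_bot, LinearMap.ker_eq_bot']
    intro x hx
    rw [hfx] at hx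
    have h1 : ω a (x : V) = 0 := by
      have := congrArg (fun v => ω a' v) hx
      simpa [self0 hA, hab'] using this
    have h2 : ω (x : V) b = 0 := by
      have := congrArg (fun v => ω b' v) hx
      simpa [self0 hA, hba'] using this
    apply Subtype.ext
    rw [hco x, h1, h2]
    simp
  have hiso : ∀ x y : H, ω (f x) (f y) = ω (x : V) (y : V) := by
    intro x y
    rw [hfx, hfx]
    conv_rhs => rw [hco x, hco y]
    simp only [map_add, map_smul, LinearMap.add_apply, LinearMap.smul_apply, smul_eq_mul,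
      self0 hA, hab, hab', hba, hba']
  obtain ⟨g, hg, hgf⟩ := witt hA hN H f hinj hiso
  have haH : a ∈ H := by
    rw [hHab]
    exact le_sup_left (a := span F {a}) (mem_span_singleton_self a)
  have hbH : b ∈ H := by
    rw [hHab]
    exact le_sup_right (a := span F {a}) (mem_span_singleton_self b)
  have hga : g a = a' := by
    rw [hgf ⟨a, haH⟩, hfx]
    simp [self0 hA, hab]
  have hgb : g b = b' := by
    rw [hgf ⟨b, hbH⟩, hfx]
    simp [self0 hA, hab]
  refine ⟨g, hg, ?_, ?_⟩
  · rw [hUa, hWa, Submodule.map_span, Set.image_singleton]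
    exact congrArg (fun v => span F {v}) hga
  · rw [Hyps_image hg]
    congr 1
    rw [hHab, hHab', Submodule.map_sup, Submodule.map_span, Submodule.map_span,
      Set.image_singleton, Set.image_singleton]
    exact congrArg₂ (fun v w => span F {v} ⊔ span F {w}) hga hgb

end Pool.Agent.Helper20.SI
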