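import Pool.Agent.Helper20.SI.Hyps
import Pool.Agent.Helper29.FT2.Conv

/-!
# SI-25 HypsSPG: the hyperbolic lines form a semipartial geometry

`hyps_spg`: `FT2.spg_of_trans`; the automorphisms are the permutations of `Submodule F V` induced by isometries (`IsAut`, see `FT2/Conv.lean` for the construction from `g`). Points and lines: `hyps_flag`
(or `trans_ti`). `haf`: `a ∉ l = hline ω H`, collinear with some `b ∈ l`: `P = span {x}`, the map `H → F`, `h ↦ ω x h` is not zero; let `span {b₀}` be its kernel, `b₁ ∈ H` with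
`ω x b₁ = 1`, `ω b₀ b₁ = 1` (scale `b₀`; `H` is hyperbolic). `x ∉ H`, so `x, b₀, b₁` are independent with the Gram matrix `ω x b₀ = 0`, `ω x b₁ = 1`, `ω b₀ b₁ = 1`: `witt` on their span gives
transitivity. `hnc`: orthogonal pairs of different points: `trans_perp`. `h1`-`h4`: `hline` of a hyperbolic plane `span {a, b}` contains `span {a}, span {b}`; two lines through `span {a}`:
`span {a, b}`, `span {a, b + c}` with `c ∈ pp (span {a, b})`, `c ≠ 0` (`n ≥ 4`); `span {a + c}` is not on `span {a, b}` and collinear with `span {b}`; `span {a}`, `span {c}` are orthogonal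
and have the common neighbour `span {b + d}`, `ω c d = 1`, `d ∈ pp (span {a, b})`.
-/

open Module Submodule Finset

set_option linter.unusedSectionVars false

namespace Pool.Agent.Helper20.SI

open Pool.Agent.Helper29.FT Pool.Agent.Helper29.FT2

variable {F V : Type*} [Field F] [AddCommGroup V] [Module F V] [FiniteDimensional F V]
variable {ω : LinearMap.BilinForm F V}

variable [Finite F] [DecidableEq (Submodule F V)] {B : Finset (Finset (Submodule F V))}
  {k α s t μ : ℕ}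

omit [Finite F] [DecidableEq (Submodule F V)] in
theorem HypsSPG_witt (hA : ω.IsAlt) (hN : ω.Nondegenerate) {m : ℕ} {b b' : Fin m → V}
    (hb : LinearIndependent F b) (hb' : LinearIndependent F b')
    (h : ∀ i j, ω (b' i) (b' j) = ω (b i) (b j)) :
    ∃ g : V ≃ₗ[F] V, Iso ω g ∧ ∀ i, g (b i) = b' i := by
  classical
  let e : span F (Set.range b) ≃ₗ[F] span F (Set.range b') :=
    (Basis.span hb).equiv (Basis.span hb') (Equiv.refl _)
  let f : span F (Set.range b) →ₗ[F] V := (span F (Set.range b')).subtype ∘ₗ (e : _ →ₗ[F] _)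
  have he : ∀ i, f (Basis.span hb i) = b' i := by
    intro i
    show ((e (Basis.span hb i) : span F (Set.range b')) : V) = b' i
    rw [Basis.equiv_apply, Basis.span_apply]
    rfl
  have hf : Function.Injective f := by
    intro x y hxy
    exact e.injective (Subtype.ext hxy)
  have hg : ω.compl₁₂ f f =
      ω.compl₁₂ (span F (Set.range b)).subtype (span F (Set.range b)).subtype := by
    apply (Basis.span hb).ext
    intro i
    apply (Basis.span hb).ext
    intro j
    rw [LinearMap.compl₁₂_apply, LinearMap.compl₁₂_apply, he, he, Submodule.subtype_apply,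
      Submodule.subtype_apply, Basis.span_apply, Basis.span_apply, h]
  obtain ⟨g, hg1, hg2⟩ := witt hA hN (span F (Set.range b)) f hf (by
    intro x y
    have h1 := LinearMap.congr_fun (LinearMap.congr_fun hg x) y
    rw [LinearMap.compl₁₂_apply, LinearMap.compl₁₂_apply] at h1
    exact h1)
  refine ⟨g, hg1, ?_⟩
  intro i
  have h1 := hg2 (Basis.span hb i)
  rw [he, Basis.span_apply] at h1
  exact h1

omit [Finite F] [DecidableEq (Submodule F V)] in
theorem HypsSPG_notin (hA : ω.IsAlt) {y z : V} (h : ω y z ≠ 0) : z ∉ span F {y} := by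
  intro hz
  obtain ⟨c, rfl⟩ := mem_span_singleton.mp hz
  apply h
  rw [map_smul, self0 hA, smul_zero]

omit [Finite F] [DecidableEq (Submodule F V)] in
theorem HypsSPG_ne0 {y z : V} (h : ω y z ≠ 0) : y ≠ 0 ∧ z ≠ 0 := by
  constructor
  · rintro rfl
    apply h
    rw [map_zero, LinearMap.zero_apply]
  · rintro rfl
    apply h
    rw [map_zero]

omit [Finite F] [DecidableEq (Submodule F V)] in
theorem HypsSPG_two (hA : ω.IsAlt) {y z : V} (h : ω y z ≠ 0) :
    finrank F (span F {y} ⊔ span F {z} : Submodule F V) = 2 := by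
  have h1 := HypsSPG_ne0 h
  have h2 := HypsSPG_notin hA h
  have h3 : span F {y} ⊓ span F {z} = ⊥ := by
    rw [← disjoint_iff, Submodule.disjoint_span_singleton' h1.2]
    exact h2
  have h4 := Submodule.finrank_sup_add_finrank_inf_eq (span F {y}) (span F {z})
  rw [h3, finrank_bot, finrank_span_singleton h1.1, finrank_span_singleton h1.2] at h4
  omega

omit [Finite F] [DecidableEq (Submodule F V)] in
theorem HypsSPG_span (hA : ω.IsAlt) {H : Submodule F V} (hH : finrank F H = 2) {y z : V}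
    (hy : y ∈ H) (hz : z ∈ H) (h : ω y z ≠ 0) : span F {y} ⊔ span F {z} = H := by
  apply Submodule.eq_of_le_of_finrank_eq
  · exact sup_le ((span_singleton_le_iff_mem _ _).mpr hy) ((span_singleton_le_iff_mem _ _).mpr hz)
  · rw [HypsSPG_two hA h, hH]

omit [Finite F] [DecidableEq (Submodule F V)] in
theorem HypsSPG_rad (hA : ω.IsAlt) {H : Submodule F V} (hH : finrank F H = 2)
    (hT : ¬ TI ω H) {x : V} (hx : x ∈ H) (hx0 : x ≠ 0) : ∃ c ∈ H, ω c x ≠ 0 := by
  by_contra hcon
  push Not at hcon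
  apply hT
  intro y hy z hz
  by_contra h0
  apply hx0
  have h1 := HypsSPG_span hA hH hy hz h0
  rw [← h1] at hx
  obtain ⟨u, hu, v, hv, huv⟩ := mem_sup.mp hx
  obtain ⟨α, rfl⟩ := mem_span_singleton.mp hu
  obtain ⟨β, rfl⟩ := mem_span_singleton.mp hv
  have h2 := hcon y hy
  have h3 := hcon z hz
  rw [← huv] at h2 h3
  rw [map_add, map_smul, map_smul, self0 hA, smul_zero, zero_add, smul_eq_mul] at h2
  rw [map_add, map_smul, map_smul, self0 hA, smul_zero, add_zero, smul_eq_mul] at h3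
  have h4 : β = 0 := by
    rcases mul_eq_zero.mp h2 with h | h
    · exact h
    · exact absurd h h0
  have h5 : α = 0 := by
    rcases mul_eq_zero.mp h3 with h | h
    · exact h
    · exact absurd (swap0 hA h) h0
  rw [← huv, h4, h5, zero_smul, zero_smul, add_zero]

omit [Finite F] [DecidableEq (Submodule F V)] in
theorem HypsSPG_pt {P : Submodule F V} (hP : finrank F P = 1) :
    ∃ x : V, x ≠ 0 ∧ P = span F {x} := by
  have h1 : P ≠ ⊥ := by
    rintro rfl
    rw [finrank_bot] at hP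
    omega
  obtain ⟨x, hx, hx0⟩ := Submodule.exists_mem_ne_zero_of_ne_bot h1
  refine ⟨x, hx0, ?_⟩
  symm
  apply Submodule.eq_of_le_of_finrank_eq ((span_singleton_le_iff_mem _ _).mpr hx)
  rw [hP, finrank_span_singleton hx0]

omit [Finite F] [DecidableEq (Submodule F V)] in
theorem HypsSPG_frame (hA : ω.IsAlt) {H : Submodule F V} (hH : finrank F H = 2)
    (hT : ¬ TI ω H) {x h : V} (hh : h ∈ H) (hxh : ω x h ≠ 0) :
    ∃ b₀ b₁ : V, b₀ ∈ H ∧ b₁ ∈ H ∧ ω x b₀ = 0 ∧ ω x b₁ = 1 ∧ ω b₀ b₁ = 1 := by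
  have h1 : ω x ((ω x h)⁻¹ • h) = 1 := by
    rw [map_smul, smul_eq_mul, inv_mul_cancel₀ hxh]
  have h2 : (ω x h)⁻¹ • h ∈ H := H.smul_mem _ hh
  generalize hb : (ω x h)⁻¹ • h = b₁ at h1 h2
  have h3 : b₁ ≠ 0 := by
    rintro rfl
    rw [map_zero] at h1
    exact zero_ne_one h1
  obtain ⟨c, hc, hcb⟩ := HypsSPG_rad hA hH hT h2 h3
  have h4 : ω (c - ω x c • b₁) b₁ = ω c b₁ := by
    rw [map_sub, map_smul, LinearMap.sub_apply, LinearMap.smul_apply, self0 hA, smul_zero,
      sub_zero]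
  refine ⟨(ω c b₁)⁻¹ • (c - ω x c • b₁), b₁, ?_, h2, ?_, h1, ?_⟩
  · exact H.smul_mem _ (H.sub_mem hc (H.smul_mem _ h2))
  · rw [map_smul, map_sub, map_smul, h1, smul_eq_mul, smul_eq_mul, mul_one, sub_self, mul_zero]
  · rw [map_smul, LinearMap.smul_apply, h4, smul_eq_mul, inv_mul_cancel₀ hcb]

omit [Finite F] [DecidableEq (Submodule F V)] in
theorem HypsSPG_li (hA : ω.IsAlt) {x b₀ b₁ : V} (h1 : ω b₀ b₁ = 1)
    (hx : x ∉ span F {b₀} ⊔ span F {b₁}) : LinearIndependent F ![x, b₀, b₁] := by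
  rw [Fintype.linearIndependent_iff]
  intro g hg
  rw [Fin.sum_univ_three] at hg
  simp only [Matrix.cons_val_zero, Matrix.cons_val_one, Matrix.cons_val] at hg
  have h0 : g 0 = 0 := by
    by_contra h0
    apply hx
    have h2 : x = (-(g 0)⁻¹ * g 1) • b₀ + (-(g 0)⁻¹ * g 2) • b₁ := by
      have h3 : g 0 • x = -(g 1 • b₀ + g 2 • b₁) := by
        rw [eq_neg_iff_add_eq_zero, ← add_assoc]
        exact hg
      have h4 : x = (g 0)⁻¹ • (g 0 • x) := by rw [smul_smul, inv_mul_cancel₀ h0, one_smul]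
      rw [h4, h3]
      module
    rw [h2]
    exact Submodule.add_mem_sup (Submodule.smul_mem _ _ (mem_span_singleton_self _))
      (Submodule.smul_mem _ _ (mem_span_singleton_self _))
  rw [h0, zero_smul, zero_add] at hg
  have h5 : g 2 = 0 := by
    have := congrArg (ω b₀) hg
    rw [map_add, map_smul, map_smul, self0 hA, h1, smul_zero, zero_add, smul_eq_mul, mul_one,
      map_zero] at this
    exact this
  have h6 : g 1 = 0 := by
    have := congrArg (fun v => ω v b₁) hg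
    simp only [map_add, map_smul, LinearMap.add_apply, LinearMap.smul_apply, self0 hA, h1,
      smul_eq_mul, mul_one, mul_zero, add_zero, map_zero, LinearMap.zero_apply] at this
    exact this
  intro i
  fin_cases i
  · exact h0
  · exact h6
  · exact h5

omit [Finite F] [DecidableEq (Submodule F V)] in
theorem HypsSPG_base (hA : ω.IsAlt) (hN : ω.Nondegenerate) (hn : 4 ≤ finrank F V) :
    ∃ a b c d : V, ω a b = 1 ∧ ω a c = 0 ∧ ω b c = 0 ∧ ω a d = 0 ∧ ω b d = 0 ∧ ω d c = 1 ∧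
      c ∉ span F {a} ⊔ span F {b} := by
  have hnt : (⊤ : Submodule F V) ≠ ⊥ := by
    intro h
    have h1 := finrank_top F V
    rw [h, finrank_bot] at h1
    omega
  obtain ⟨b, -, hb0⟩ := Submodule.exists_mem_ne_zero_of_ne_bot hnt
  obtain ⟨a, -, hab⟩ := exists_pp hA hN (U := ⊥) (x := b) (by rwa [Submodule.mem_bot])
  have hab0 : ω a b ≠ 0 := by
    rw [hab]
    exact one_ne_zero
  have h2 := HypsSPG_two hA hab0
  have h3 := finrank_pp hA hN (span F {a} ⊔ span F {b})
  have h4 : pp ω (span F {a} ⊔ span F {b}) ≠ ⊥ := by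
    intro h
    rw [h, finrank_bot] at h3
    omega
  obtain ⟨c, hc, hc0⟩ := Submodule.exists_mem_ne_zero_of_ne_bot h4
  have hac : ∀ v ∈ pp ω (span F {a} ⊔ span F {b}), ω a v = 0 ∧ ω b v = 0 := by
    intro v hv
    exact ⟨hv a (mem_sup_left (mem_span_singleton_self a)),
      hv b (mem_sup_right (mem_span_singleton_self b))⟩
  have hcS : c ∉ span F {a} ⊔ span F {b} := by
    intro hcS
    obtain ⟨e, he, hec⟩ := HypsSPG_rad hA h2 (by
      intro hT
      exact hab0 (hT a (mem_sup_left (mem_span_singleton_self a)) b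
        (mem_sup_right (mem_span_singleton_self b)))) hcS hc0
    exact hec (hc e he)
  obtain ⟨d, hd, hdc⟩ := exists_pp hA hN hcS
  exact ⟨a, b, c, d, hab, (hac c hc).1, (hac c hc).2, (hac d hd).1, (hac d hd).2, hdc, hcS⟩

theorem HypsSPG_aut (g : V ≃ₗ[F] V) (hg : Iso ω g) : IsAut (IsoGr ω 1) (hyps ω) (act g) := by
  refine ⟨?_, ?_⟩
  · intro x
    rw [mem_IsoGr, mem_IsoGr, act_apply, finrank_map']
    refine and_congr_right fun _ => ⟨?_, TI.map hg⟩
    intro h
    have h1 := TI.map hg.symm h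
    rwa [map_symm_map'] at h1
  · intro l
    have h0 : ∀ g : V ≃ₗ[F] V, Iso ω g → ∀ l ∈ hyps ω, l.map (act g).toEmbedding ∈ hyps ω := by
      intro g hg l hl
      rw [map_act]
      exact hyps_inv g hg l hl
    refine ⟨fun hl => ?_, h0 g hg l⟩
    have h1 := h0 g.symm hg.symm _ hl
    have h2 : (l.map (act g).toEmbedding).map (act g.symm).toEmbedding = l :=
      map_symm_map (act g).symm l
    rwa [h2] at h1

theorem HypsSPG_coll (hA : ω.IsAlt) {x y : V} (hx : x ≠ 0) (hy : y ≠ 0) :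
    Coll (hyps ω) (span F {x}) (span F {y}) ↔ ω y x ≠ 0 := by
  have h1 : finrank F (span F {x} : Submodule F V) = 1 := finrank_span_singleton hx
  have h2 : finrank F (span F {y} : Submodule F V) = 1 := finrank_span_singleton hy
  have h3 := hyps_coll (ω := ω) h1 h2 hA
  exact h3.trans (not_congr ((span_singleton_le_iff_mem x _).trans mem_pp_span))

omit [DecidableEq (Submodule F V)] in
theorem HypsSPG_mem (hA : ω.IsAlt) {x : V} (hx : x ≠ 0) : span F {x} ∈ IsoGr ω 1 :=
  mem_IsoGr.mpr ⟨finrank_span_singleton hx, ti_span hA x⟩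

omit [DecidableEq (Submodule F V)] in
theorem HypsSPG_memline (hA : ω.IsAlt) {x : V} {H : Submodule F V} (hx : x ≠ 0) :
    span F {x} ∈ hline ω H ↔ x ∈ H := by
  rw [mem_hline, span_singleton_le_iff_mem]
  exact ⟨fun h => h.2.1, fun h => ⟨finrank_span_singleton hx, h, ti_span hA x⟩⟩

theorem HypsSPG_line (hA : ω.IsAlt) {y z : V} (h : ω y z ≠ 0) :
    hline ω (span F {y} ⊔ span F {z}) ∈ hyps ω := by
  refine mem_hyps.mpr ⟨_, HypsSPG_two hA h, ?_, rfl⟩
  intro hT
  exact h (hT y (mem_sup_left (mem_span_singleton_self y)) z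
    (mem_sup_right (mem_span_singleton_self z)))

theorem HypsSPG_image (g : V ≃ₗ[F] V) (hg : Iso ω g) {H H' : Submodule F V}
    (h : H.map (g : V →ₗ[F] V) = H') :
    (hline ω H).map (act g).toEmbedding = hline ω H' := by
  rw [map_act]
  ext P
  rw [mem_image, mem_hline]
  constructor
  · rintro ⟨Q, hQ, rfl⟩
    rw [mem_hline] at hQ
    refine ⟨by rw [finrank_map', hQ.1], ?_, TI.map hg hQ.2.2⟩
    rw [← h]
    exact Submodule.map_mono hQ.2.1
  · rintro ⟨h1, h2, h3⟩
    have h4 : (P.map (g.symm : V →ₗ[F] V)).map (g : V →ₗ[F] V) = P := map_symm_map' g.symm P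
    refine ⟨P.map (g.symm : V →ₗ[F] V), ?_, h4⟩
    rw [mem_hline]
    refine ⟨by rw [finrank_map', h1], ?_, TI.map hg.symm h3⟩
    have h5 : H = H'.map (g.symm : V →ₗ[F] V) := by rw [← h, map_symm_map']
    rw [h5]
    exact Submodule.map_mono h2

theorem hyps_spg (hA : ω.IsAlt) (hN : ω.Nondegenerate) (hn : 4 ≤ finrank F V) :
    ∃ α s t μ, IsSPG (IsoGr ω 1) (hyps ω) α s t μ := by
  obtain ⟨a, b, c, d, hab, hac, hbc, had, hbd, hdc, hcS⟩ := HypsSPG_base hA hN hn
  have hab0 : ω a b ≠ 0 := by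
    rw [hab]
    exact one_ne_zero
  have hdc0 : ω d c ≠ 0 := by
    rw [hdc]
    exact one_ne_zero
  have ha0 := (HypsSPG_ne0 hab0).1
  have hb0 := (HypsSPG_ne0 hab0).2
  have hd0 := (HypsSPG_ne0 hdc0).1
  have hc0 := (HypsSPG_ne0 hdc0).2
  have haS : a ∈ span F {a} ⊔ span F {b} := mem_sup_left (mem_span_singleton_self a)
  have hbS : b ∈ span F {a} ⊔ span F {b} := mem_sup_right (mem_span_singleton_self b)
  -- a point that is not on a line and collinear with a point of it
  have hpl : ∀ P ∈ IsoGr ω 1, ∀ l ∈ hyps ω, P ∉ l → (∃ Q ∈ l, Coll (hyps ω) P Q) →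
      ∃ x b₀ b₁ : V, P = span F {x} ∧ l = hline ω (span F {b₀} ⊔ span F {b₁}) ∧
        ω x b₀ = 0 ∧ ω x b₁ = 1 ∧ ω b₀ b₁ = 1 ∧ LinearIndependent F ![x, b₀, b₁] := by
    rintro P hP l hl hPl ⟨Q, hQ, hPQ⟩
    obtain ⟨H, hH, hT, rfl⟩ := mem_hyps.mp hl
    obtain ⟨x, hx0, rfl⟩ := HypsSPG_pt (mem_IsoGr.mp hP).1
    rw [HypsSPG_memline hA hx0] at hPl
    obtain ⟨h1, h2, -⟩ := mem_hline.mp hQ
    obtain ⟨y, hy0, rfl⟩ := HypsSPG_pt h1
    rw [HypsSPG_coll hA hx0 hy0] at hPQ
    rw [span_singleton_le_iff_mem] at h2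
    obtain ⟨b₀, b₁, hb₀, hb₁, e1, e2, e3⟩ := HypsSPG_frame hA hH hT (x := x) h2
      (fun h => hPQ (swap0 hA h))
    have h3 := HypsSPG_span hA hH hb₀ hb₁ (by rw [e3]; exact one_ne_zero)
    refine ⟨x, b₀, b₁, rfl, by rw [h3], e1, e2, e3, HypsSPG_li hA e3 ?_⟩
    rw [h3]
    exact hPl
  apply spg_of_trans
  · intro l hl
    obtain ⟨H, hH, hT, rfl⟩ := mem_hyps.mp hl
    intro P hP
    rw [mem_hline] at hP
    exact mem_IsoGr.mpr ⟨hP.1, hP.2.2⟩
  · intro l hl m hm P Q hPQ hPl hQl hPm hQm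
    obtain ⟨H, hH, hT, rfl⟩ := mem_hyps.mp hl
    obtain ⟨H', hH', hT', rfl⟩ := mem_hyps.mp hm
    rw [mem_hline] at hPl hQl hPm hQm
    have h1 := lt_sup hPl.1 hQl.1 hPQ
    have h2 : P ⊔ Q = H := Submodule.eq_of_le_of_finrank_le (sup_le hPl.2.1 hQl.2.1) (by omega)
    have h3 : P ⊔ Q = H' := Submodule.eq_of_le_of_finrank_le (sup_le hPm.2.1 hQm.2.1) (by omega)
    rw [← h2, h3]
  · intro P hP Q hQ
    rw [mem_IsoGr] at hP hQ
    obtain ⟨g, hg, hgP, -⟩ := trans_ti hA hN (U := P) (U' := Q) (E := ⊥) (E' := ⊥) hP.2 hQ.2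
      bot_le bot_le (by omega) rfl
    exact ⟨act g, HypsSPG_aut g hg, hgP⟩
  · intro l hl m hm
    obtain ⟨H, hH, hT, rfl⟩ := mem_hyps.mp hl
    obtain ⟨H', hH', hT', rfl⟩ := mem_hyps.mp hm
    have hex : ∀ H : Submodule F V, finrank F H = 2 → ∃ P, P ∈ hline ω H := by
      intro H hH
      have h1 : H ≠ ⊥ := by
        rintro rfl
        rw [finrank_bot] at hH
        omega
      obtain ⟨x, hx, hx0⟩ := Submodule.exists_mem_ne_zero_of_ne_bot h1
      exact ⟨span F {x}, (HypsSPG_memline hA hx0).mpr hx⟩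
    obtain ⟨P, hP⟩ := hex H hH
    obtain ⟨P', hP'⟩ := hex H' hH'
    obtain ⟨g, hg, -, hgl⟩ := hyps_flag hA hN _ hl P hP _ hm P' hP'
    exact ⟨act g, HypsSPG_aut g hg, by rw [map_act, hgl]⟩
  · intro P hP l hl hPl hex P' hP' l' hl' hPl' hex'
    obtain ⟨x, b₀, b₁, rfl, rfl, e1, e2, e3, e4⟩ := hpl P hP l hl hPl hex
    obtain ⟨x', b₀', b₁', rfl, rfl, e1', e2', e3', e4'⟩ := hpl P' hP' l' hl' hPl' hex'
    obtain ⟨g, hg, hgb⟩ := HypsSPG_witt hA hN e4 e4' (by
      intro i j
      fin_cases i <;> fin_cases j <;>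
        simp [self0 hA, e1, e2, e3, e1', e2', e3', swap hA b₀ x, swap hA b₀' x', swap hA b₁ x,
          swap hA b₁' x', swap hA b₁ b₀, swap hA b₁' b₀'])
    have hg0 : g x = x' := hgb 0
    have hg1 : g b₀ = b₀' := hgb 1
    have hg2 : g b₁ = b₁' := hgb 2
    have hsp : ∀ v : V, (span F {v}).map (g : V →ₗ[F] V) = span F {g v} := by
      intro v
      rw [Submodule.map_span, Set.image_singleton]
      rfl
    refine ⟨act g, HypsSPG_aut g hg, ?_, ?_⟩
    · rw [act_apply, hsp, hg0]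
    · apply HypsSPG_image g hg
      rw [Submodule.map_sup, hsp, hsp, hg1, hg2]
  · intro P hP Q hQ hPQ hn P' hP' Q' hQ' hPQ' hn'
    rw [mem_IsoGr] at hP hQ hP' hQ'
    rw [hyps_coll hP.1 hQ.1 hA, not_not] at hn
    rw [hyps_coll hP'.1 hQ'.1 hA, not_not] at hn'
    have h1 := inf_lt hP.1 hQ.1 hPQ
    have h2 := inf_lt hP'.1 hQ'.1 hPQ'
    obtain ⟨g, hg, h3, h4⟩ := trans_perp hA hN hP.2 hQ.2 hP'.2 hQ'.2 hn hn' (by omega)
      (by omega) (by omega)
    exact ⟨act g, HypsSPG_aut g hg, h3, h4⟩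
  · refine ⟨_, HypsSPG_line hA hab0, ?_⟩
    refine Finset.one_lt_card.mpr ⟨span F {a}, (HypsSPG_memline hA ha0).mpr haS, span F {b},
      (HypsSPG_memline hA hb0).mpr hbS, ?_⟩
    intro h
    apply HypsSPG_notin hA hab0
    rw [h]
    exact mem_span_singleton_self b
  · have h5 : ω a (b + c) ≠ 0 := by
      rw [map_add, hac, add_zero]
      exact hab0
    refine ⟨span F {a}, HypsSPG_mem hA ha0, ?_⟩
    refine Finset.one_lt_card.mpr ⟨_, mem_filter.mpr ⟨HypsSPG_line hA hab0,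
      (HypsSPG_memline hA ha0).mpr haS⟩, _, mem_filter.mpr ⟨HypsSPG_line hA h5,
      (HypsSPG_memline hA ha0).mpr (mem_sup_left (mem_span_singleton_self a))⟩, ?_⟩
    intro h
    have h6 : span F {b + c} ∈ hline ω (span F {a} ⊔ span F {b}) := by
      rw [h, HypsSPG_memline hA (HypsSPG_ne0 h5).2]
      exact mem_sup_right (mem_span_singleton_self _)
    rw [HypsSPG_memline hA (HypsSPG_ne0 h5).2] at h6
    apply hcS
    have h7 := Submodule.sub_mem _ h6 hbS
    rwa [add_sub_cancel_left] at h7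
  · have h5 : ω (a + c) b ≠ 0 := by
      rw [map_add, LinearMap.add_apply, swap0 hA hbc, add_zero]
      exact hab0
    refine ⟨span F {a + c}, HypsSPG_mem hA (HypsSPG_ne0 h5).1, _, HypsSPG_line hA hab0, ?_,
      span F {b}, (HypsSPG_memline hA hb0).mpr hbS, ?_⟩
    · rw [HypsSPG_memline hA (HypsSPG_ne0 h5).1]
      intro h6
      apply hcS
      have h7 := Submodule.sub_mem _ h6 haS
      rwa [add_sub_cancel_left] at h7
    · rw [HypsSPG_coll hA (HypsSPG_ne0 h5).1 hb0]
      exact fun h => h5 (swap0 hA h)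
  · have h5 : ω a (b + d) ≠ 0 := by
      rw [map_add, had, add_zero]
      exact hab0
    refine ⟨span F {a}, HypsSPG_mem hA ha0, span F {c}, HypsSPG_mem hA hc0, ?_, ?_,
      span F {b + d}, HypsSPG_mem hA (HypsSPG_ne0 h5).2, ?_, ?_⟩
    · intro h
      apply hcS
      apply mem_sup_left
      rw [h]
      exact mem_span_singleton_self c
    · rw [HypsSPG_coll hA ha0 hc0, not_not]
      exact swap0 hA hac
    · rw [HypsSPG_coll hA ha0 (HypsSPG_ne0 h5).2]
      exact fun h => h5 (swap0 hA h)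
    · rw [HypsSPG_coll hA hc0 (HypsSPG_ne0 h5).2, map_add, LinearMap.add_apply, hbc, zero_add]
      exact hdc0

end Pool.Agent.Helper20.SI
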