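import Pool.Agent.Helper20.SI.SpB

/-!
# SI-21 Opp: parity and opposite subspaces

`even_dim`: take a totally isotropic subspace `M` of maximal dimension (dimensions are bounded by `n`; `⊥` is totally isotropic); `pp M = M` (`M ≤ pp M`; if `v ∈ pp M`, `v ∉ M`, then
`M ⊔ span {v}` is totally isotropic, `ti_sup_span`, of dimension one more), so `n = 2 finrank M` (`finrank_pp`).
`exists_opposite`: induction on `k` (`k = 0`: `⊥, ⊥`). Given `U, W` of dimension `k`, `2 k + 2 ≤ n`, with `U ⊓ W = ⊥`, `W ⊓ pp U = ⊥`: `X = U ⊔ W` has dimension `2 k`. `X ⊓ pp X = ⊥`: if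
`u + w ∈ pp X` (`u ∈ U`, `w ∈ W`) then `w ∈ pp U` (for `u' ∈ U`: `ω u' w = ω u' (u + w) - ω u' u = 0`), so `w = 0`, and `u ∈ U ⊓ pp W`, which is `⊥`:
`pp (U ⊓ pp W)`.. by dimension: `finrank (U ⊓ pp W) = finrank (W ⊓ pp U)` (`pp (U ⊔ pp W) = pp U ⊓ W` by `pp_sup`, `pp_pp`, and
`finrank (U ⊔ pp W) + finrank (U ⊓ pp W) = finrank U + finrank (pp W)`); or `OppMod.symm` (with `j = k`). `pp X` has dimension `n - 2 k ≥ 2`: take `a ∈ pp X`, `a ≠ 0`; some `b ∈ pp X` has
`ω a b ≠ 0` (else `a ∈ pp (pp X) = X`, so `a ∈ X ⊓ pp X = ⊥`). The new pair is `U' = U ⊔ span {a}`, `W' = W ⊔ span {b}` (`a, b ∉ X`): totally isotropic (`ti_sup_span`), dimension `k + 1`;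
`W' ⊓ pp U' = ⊥`: `w + c b ∈ pp U'`: orthogonal to `a`: `c ω a b = 0`, so `c = 0`; then `w ∈ W ⊓ pp U = ⊥`. `U' ⊓ W' ≤ W' ⊓ pp U'` as `U'` is totally isotropic.
-/

open Module Submodule Finset

set_option linter.unusedSectionVars false

namespace Pool.Agent.Helper20.SI

open Pool.Agent.Helper29.FT Pool.Agent.Helper29.FT2

variable {F V : Type*} [Field F] [AddCommGroup V] [Module F V] [FiniteDimensional F V]
variable {ω : LinearMap.BilinForm F V}

variable {k : ℕ}

theorem even_dim (hA : ω.IsAlt) (hN : ω.Nondegenerate) : Even (finrank F V) := by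
  have hex : ∃ M : Submodule F V, TI ω M ∧ ∀ N : Submodule F V, TI ω N →
      finrank F N ≤ finrank F M := by
    by_contra hcon
    push Not at hcon
    have h1 : ∀ m : ℕ, ∃ M : Submodule F V, TI ω M ∧ m ≤ finrank F M := by
      intro m
      induction m with
      | zero =>
        refine ⟨⊥, ?_, Nat.zero_le _⟩
        intro x hx y _
        rw [(Submodule.mem_bot F).mp hx, map_zero, LinearMap.zero_apply]
      | succ m ih =>
        obtain ⟨M, hM, hm⟩ := ih
        obtain ⟨N, hN', hlt⟩ := hcon M hM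
        exact ⟨N, hN', by omega⟩
    obtain ⟨M, -, hM⟩ := h1 (finrank F V + 1)
    have := Submodule.finrank_le M
    omega
  obtain ⟨M, hM, hmax⟩ := hex
  have h1 : pp ω M = M := by
    apply le_antisymm _ (ti_iff.mp hM)
    intro v hv
    by_contra hvM
    have h2 := hmax _ (ti_sup_span hA hM (fun u hu => hv u hu))
    rw [finrank_sup_span_singleton hvM] at h2
    omega
  have h2 := finrank_pp hA hN M
  rw [h1] at h2
  exact ⟨_, h2.symm⟩

theorem exists_opposite (hA : ω.IsAlt) (hN : ω.Nondegenerate) (hkn : 2 * k ≤ finrank F V) :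
    ∃ U W : Submodule F V, finrank F U = k ∧ finrank F W = k ∧ TI ω U ∧ TI ω W ∧
      U ⊓ W = ⊥ ∧ W ⊓ pp ω U = ⊥ := by
  induction k with
  | zero =>
    refine ⟨⊥, ⊥, finrank_bot F V, finrank_bot F V, ?_, ?_, inf_idem _, bot_inf_eq _⟩
    · intro x hx y _
      rw [(Submodule.mem_bot F).mp hx, map_zero, LinearMap.zero_apply]
    · intro x hx y _
      rw [(Submodule.mem_bot F).mp hx, map_zero, LinearMap.zero_apply]
  | succ k ih =>
    obtain ⟨U, W, dU, dW, tU, tW, hUW, hWU⟩ := ih (by omega)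
    have hUW' : U ⊓ pp ω W = ⊥ := by
      have h1 : OppMod ω k k U W := ⟨dU, dW, tU, tW, by rw [hUW, finrank_bot, zero_add],
        by rw [hUW, hWU]⟩
      rw [(h1.symm hA hN).opp, inf_comm, hUW]
    have hX : (U ⊔ W) ⊓ pp ω (U ⊔ W) = ⊥ := by
      rw [eq_bot_iff]
      rintro x ⟨hx1, hx2⟩
      obtain ⟨u, hu, w, hw, rfl⟩ := mem_sup.mp hx1
      have h1 : w ∈ W ⊓ pp ω U := by
        refine ⟨hw, fun u' hu' => ?_⟩
        have h2 := hx2 u' (le_sup_left (a := U) hu')
        rw [map_add, tU u' hu' u hu, zero_add] at h2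
        exact h2
      have h3 : u ∈ U ⊓ pp ω W := by
        refine ⟨hu, fun w' hw' => ?_⟩
        have h2 := hx2 w' (le_sup_right (a := U) hw')
        rw [map_add, tW w' hw' w hw, add_zero] at h2
        exact h2
      rw [hWU] at h1
      rw [hUW'] at h3
      exact Submodule.add_mem _ h3 h1
    have h1 := Submodule.finrank_sup_add_finrank_inf_eq U W
    have h2 := finrank_pp hA hN (U ⊔ W)
    rw [hUW, finrank_bot] at h1
    have h3 : pp ω (U ⊔ W) ≠ ⊥ := by
      intro h
      rw [h, finrank_bot] at h2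
      omega
    obtain ⟨a, ha, ha0⟩ := Submodule.exists_mem_ne_zero_of_ne_bot h3
    have h4 : ∃ b ∈ pp ω (U ⊔ W), ω a b ≠ 0 := by
      by_contra hcon
      push Not at hcon
      apply ha0
      have h5 : a ∈ (U ⊔ W) ⊓ pp ω (U ⊔ W) := by
        refine ⟨?_, ha⟩
        have h6 : a ∈ pp ω (pp ω (U ⊔ W)) := (mem_pp' hA).mpr hcon
        rwa [pp_pp hA hN (U ⊔ W)] at h6
      rw [hX] at h5
      exact (Submodule.mem_bot F).mp h5
    obtain ⟨b, hb, hab⟩ := h4
    have haX : a ∉ U ⊔ W := by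
      intro h
      apply ha0
      have h5 : a ∈ (U ⊔ W) ⊓ pp ω (U ⊔ W) := ⟨h, ha⟩
      rw [hX] at h5
      exact (Submodule.mem_bot F).mp h5
    have hbX : b ∉ U ⊔ W := by
      intro h
      have h5 : b ∈ (U ⊔ W) ⊓ pp ω (U ⊔ W) := ⟨h, hb⟩
      rw [hX] at h5
      rw [(Submodule.mem_bot F).mp h5, map_zero] at hab
      exact hab rfl
    have haU : a ∉ U := fun h => haX (le_sup_left (a := U) h)
    have hbW : b ∉ W := fun h => hbX (le_sup_right (a := U) h)
    have tU' : TI ω (U ⊔ span F {a}) :=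
      ti_sup_span hA tU (fun u hu => ha u (le_sup_left (a := U) hu))
    have tW' : TI ω (W ⊔ span F {b}) :=
      ti_sup_span hA tW (fun w hw => hb w (le_sup_right (a := U) hw))
    have key : (W ⊔ span F {b}) ⊓ pp ω (U ⊔ span F {a}) = ⊥ := by
      rw [eq_bot_iff]
      rintro x ⟨hx1, hx2⟩
      obtain ⟨w, hw, y, hy, rfl⟩ := mem_sup.mp hx1
      obtain ⟨c, rfl⟩ := mem_span_singleton.mp hy
      have h5 := hx2 a (le_sup_right (a := U) (mem_span_singleton_self a))
      have h6 : ω a w = 0 := swap0 hA (ha w (le_sup_right (a := U) hw))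
      rw [map_add, h6, map_smul, smul_eq_mul, zero_add] at h5
      have hc : c = 0 := (mul_eq_zero.mp h5).resolve_right hab
      rw [hc, zero_smul, add_zero] at hx2 ⊢
      have h7 : w ∈ W ⊓ pp ω U := ⟨hw, fun u hu => hx2 u (le_sup_left (a := U) hu)⟩
      rw [hWU] at h7
      exact h7
    refine ⟨U ⊔ span F {a}, W ⊔ span F {b}, ?_, ?_, tU', tW', ?_, key⟩
    · rw [finrank_sup_span_singleton haU, dU]
    · rw [finrank_sup_span_singleton hbW, dW]
    · rw [eq_bot_iff, ← key]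
      exact le_inf inf_le_right (inf_le_left.trans (ti_iff.mp tU'))

end Pool.Agent.Helper20.SI
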