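import Pool.Agent.Helper20.SI.Tri
import Pool.Agent.Helper20.SI.CaseA
import Pool.Agent.Helper20.SI.CaseA1
import Pool.Agent.Helper20.SI.CaseA2
import Pool.Agent.Helper20.SI.B2lt2
import Pool.Agent.Helper20.SI.B2eq3
import Pool.Agent.Helper20.SI.B1
import Pool.Agent.Helper20.SI.Opp

/-!
# SI-22 Main: no proper semipartial geometry for `k ≥ 2`

`two_le_s`. `2 k ≤ n` (`TI.le`, `NonLinear` gives a point). `line_cases`, for `l ∈ B` (`cl_of_line`, `exists_off`, `exists_third`): `D` of `exists_goodSub`, totally isotropic by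
`good_ti`. If some `T ∈ l` has `¬ D ≤ T`: `caseA_dich`, `caseA_h2`, `caseA_h1`: alternative (1). Otherwise `D ≤ T` for all `T ∈ l`, and `U ⊓ W ≤ D` for `U ≠ W` (good), so `U ⊓ W = D = E`.
`finrank E < k`. If `finrank E + 1 = k`: alternative (2). Otherwise `finrank E + 2 ≤ k`: `B2` by `caseB_i`, `caseB_ii`, `caseB_iii`, excluded by `b2_lt` (if `2 k + 2 ≤ n`;
`n` is even: `even_dim`) or `b2_eq` (`2 k = n`, so `k ≥ 3`).
Parity: `even_dim`.
`no_spg`: every pair of different points on a line is adjacent (in alternative (1): both are hyperplanes of `D`), so collinear points are adjacent.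
If `2 k + 2 ≤ n`: alternative (2) is excluded by `b1_lt`, so every line is as in (1), and collinear points are orthogonal. Take `U, W` totally isotropic of dimension `k` with `W ⊓ pp U = ⊥`
(`exists_opposite`). They are different and not collinear (`finrank (U ⊓ W) = 0`, `k ≥ 2`), so (`IsSPG.exists_common`) `C` is collinear with both: `finrank (C ⊓ W) = k - 1 ≥ 1`, `C ≤ pp U`
(orthogonal), so `C ⊓ W ≤ W ⊓ pp U = ⊥`. Contradiction. If `2 k = n`: `k ≥ 3`; the same `U, W`: `C` has `finrank (C ⊓ U) = finrank (C ⊓ W) = k - 1` and `(C ⊓ U) ⊓ (C ⊓ W) ≤ U ⊓ W = ⊥`,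
so `2 (k - 1) ≤ k`, contradiction.
-/

open Module Submodule Finset

set_option linter.unusedSectionVars false

namespace Pool.Agent.Helper20.SI

open Pool.Agent.Helper29.FT Pool.Agent.Helper29.FT2

variable {F V : Type*} [Field F] [AddCommGroup V] [Module F V] [FiniteDimensional F V]
variable {ω : LinearMap.BilinForm F V}

variable [Finite F] [DecidableEq (Submodule F V)] {B : Finset (Finset (Submodule F V))}
  {k α s t μ : ℕ}

theorem line_cases (hA : ω.IsAlt) (hN : ω.Nondegenerate) (hB : SpInvariant ω B)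
    (hS : IsSPG (IsoGr ω k) B α s t μ) (hNL : NonLinear (IsoGr ω k) B) (hk2 : 2 ≤ k)
    (hn : 6 ≤ finrank F V) {l : Finset (Submodule F V)} (hl : l ∈ B) :
    (∃ D : Submodule F V, TI ω D ∧ finrank F D = k + 1 ∧
      ∀ R : Submodule F V, R ∈ l ↔ R ≤ D ∧ finrank F R = k) ∨
    (∃ E : Submodule F V, finrank F E + 1 = k ∧ ∀ U ∈ l, ∀ W ∈ l, U ≠ W → U ⊓ W = E) := by
  have hs : 2 ≤ s := two_le_s hA hN hB hS hNL
  have hL : Cl ω k l := cl_of_line hB hS hl
  have h3 : ∀ U W : Submodule F V, ∃ T ∈ l, T ≠ U ∧ T ≠ W := fun U W =>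
    exists_third hS hs hl U W
  obtain ⟨U₀, hU₀, -, -⟩ := h3 ⊥ ⊥
  obtain ⟨W₀, hW₀, hWU₀, -⟩ := h3 U₀ U₀
  have h2 : ∃ U ∈ l, ∃ W ∈ l, U ≠ W := ⟨U₀, hU₀, W₀, hW₀, hWU₀.symm⟩
  obtain ⟨R, hR, hRl⟩ := exists_off hNL hl
  have hR' := mem_IsoGr.mp hR
  obtain ⟨D, hD⟩ := exists_goodSub hA hN hL h2
  have hTI : TI ω D := good_ti hA hN hL hD ⟨R, hR'.1, hR'.2, hRl⟩
  by_cases hex : ∃ T ∈ l, ¬ D ≤ T
  · rcases caseA_dich hk2 hA hN hL hD hTI hex with ⟨h4, h5⟩ | ⟨h4, h5⟩
    · obtain ⟨h6, h7⟩ := caseA_h1 (by omega) hA hN hL hD hTI h4 h5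
      exact Or.inl ⟨D, hTI, h6, h7⟩
    · exact (caseA_h2 hk2 hA hN hL hD hTI h4 h5).elim
  · push Not at hex
    have hE : ∀ U ∈ l, ∀ W ∈ l, U ≠ W → U ⊓ W = D := by
      intro U hU W hW hUW
      apply le_antisymm
      · intro v hv
        rw [hD]
        exact ⟨U, hU, W, hW, hUW, hv.1, hv.2⟩
      · exact le_inf (hex U hU) (hex W hW)
    have hdU₀ := hL.dim U₀ hU₀
    have hdW₀ := hL.dim W₀ hW₀
    have hlt : finrank F D < k := by
      have h4 : finrank F D ≤ finrank F U₀ := Submodule.finrank_mono (hex U₀ hU₀)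
      rcases h4.lt_or_eq with h5 | h5
      · omega
      · exfalso
        have h6 : D = U₀ := Submodule.eq_of_le_of_finrank_eq (hex U₀ hU₀) h5
        have h7 : D = W₀ := Submodule.eq_of_le_of_finrank_eq (hex W₀ hW₀) (by omega)
        exact hWU₀ (h7.symm.trans h6)
    by_cases h1 : finrank F D + 1 = k
    · exact Or.inr ⟨D, h1, hE⟩
    · exfalso
      have hk : finrank F D + 2 ≤ k := by omega
      have hB2 : B2 ω k l D :=
        ⟨caseB_iii hA hN hL h3 hE hk, hE, caseB_i hA hN hL h3 hE hk, caseB_ii hA hN hL h3 hE hk⟩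
      have h4 := TI.le hA hN (hL.ti U₀ hU₀)
      rw [hdU₀] at h4
      obtain ⟨r, hr⟩ := even_dim (ω := ω) hA hN
      by_cases h5 : 2 * k = finrank F V
      · exact b2_eq hA hN hB hS hNL hs hl hB2 h5 (by omega)
      · exact b2_lt hA hN hB hS hNL hs hl hB2 (by omega)

theorem no_spg (hA : ω.IsAlt) (hN : ω.Nondegenerate) (hB : SpInvariant ω B)
    (hS : IsSPG (IsoGr ω k) B α s t μ) (hNL : NonLinear (IsoGr ω k) B) (hk2 : 2 ≤ k)
    (hn : 6 ≤ finrank F V) : False := by
  have hs : 2 ≤ s := two_le_s hA hN hB hS hNL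
  have hadj : ∀ U W, Coll B U W → finrank F (U ⊓ W : Submodule F V) + 1 = k := by
    rintro U W ⟨hUW, l, hl, hU, hW⟩
    have hL : Cl ω k l := cl_of_line hB hS hl
    rcases line_cases hA hN hB hS hNL hk2 hn hl with ⟨D, -, hD, hDl⟩ | ⟨E, hE, hEl⟩
    · have hU' := (hDl U).mp hU
      have hW' := (hDl W).mp hW
      have h1 := Submodule.finrank_sup_add_finrank_inf_eq U W
      have h2 : finrank F (U ⊔ W : Submodule F V) ≤ finrank F D :=
        Submodule.finrank_mono (sup_le hU'.1 hW'.1)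
      have h3 : finrank F U < finrank F (U ⊔ W : Submodule F V) := by
        apply Submodule.finrank_lt_finrank_of_lt
        refine lt_of_le_of_ne le_sup_left (fun h => ?_)
        have h4 : W ≤ U := by
          rw [h]
          exact le_sup_right
        exact hUW (Submodule.eq_of_le_of_finrank_eq h4 (by rw [hU'.2, hW'.2])).symm
      have h4 := hU'.2
      have h5 := hW'.2
      omega
    · rw [hEl U hU W hW hUW]
      exact hE
  obtain ⟨a, ha, -⟩ := id hNL
  have ha' := mem_IsoGr.mp ha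
  have h2k : 2 * k ≤ finrank F V := by
    have := TI.le hA hN ha'.2
    rwa [ha'.1] at this
  obtain ⟨r, hr⟩ := even_dim (ω := ω) hA hN
  obtain ⟨U, W, hU, hW, tU, tW, hUW, hWU⟩ := exists_opposite (ω := ω) hA hN h2k
  have hne : U ≠ W := by
    rintro rfl
    rw [inf_idem] at hUW
    rw [hUW, finrank_bot] at hU
    omega
  have hnc : ¬ Coll B U W := by
    intro h
    have h1 := hadj U W h
    rw [hUW, finrank_bot] at h1
    omega
  obtain ⟨C, hC, hUC, hWC⟩ := hS.exists_common (mem_IsoGr.mpr ⟨hU, tU⟩)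
    (mem_IsoGr.mpr ⟨hW, tW⟩) hne hnc
  have hdUC := hadj U C hUC
  have hdWC := hadj W C hWC
  by_cases h5 : 2 * k = finrank F V
  · have h1 := Submodule.finrank_sup_add_finrank_inf_eq (U ⊓ C) (W ⊓ C)
    have h2 : (U ⊓ C) ⊓ (W ⊓ C) = ⊥ := by
      rw [eq_bot_iff, ← hUW]
      exact inf_le_inf inf_le_left inf_le_left
    have h3 : finrank F ((U ⊓ C) ⊔ (W ⊓ C) : Submodule F V) ≤ finrank F C :=
      Submodule.finrank_mono (sup_le inf_le_right inf_le_right)
    rw [h2, finrank_bot] at h1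
    have h4 := (mem_IsoGr.mp hC).1
    omega
  · have hkn : 2 * k + 2 ≤ finrank F V := by omega
    have horth : C ≤ pp ω U := by
      obtain ⟨-, l, hl, hUl, hCl⟩ := hUC
      rcases line_cases hA hN hB hS hNL hk2 hn hl with ⟨D, hDT, hD, hDl⟩ | ⟨E, hE, hEl⟩
      · have hU' := (hDl U).mp hUl
        have hC' := (hDl C).mp hCl
        intro c hc u hu
        exact hDT u (hU'.1 hu) c (hC'.1 hc)
      · exact (b1_lt hA hN hB hS hNL hs hk2 hkn hadj hl hE hEl).elim
    have h1 : W ⊓ C ≤ W ⊓ pp ω U := inf_le_inf_left W horth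
    have h2 := Submodule.finrank_mono h1
    rw [hWU, finrank_bot] at h2
    omega

end Pool.Agent.Helper20.SI
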