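import Pool.Agent.Helper20.SI.Tri
import Pool.Agent.Helper20.SI.Gen

/-!
# SI-23 One: the case `k = 1` (necessity)

Points: all one-dimensional subspaces (`ti_span`). For `k = 1`: `PerpAdj 1` means different and orthogonal, `OppMod 1 1` not orthogonal (`adj_cases` with `finrank (U ⊓ W) = 0` for
different points). `2 ≤ s` (`two_le_s`).
(1) No orthogonal pair of different points is collinear. Suppose one is; then all are (`coll_perpAdj`), let `l` be a line with orthogonal `T ≠ T'`, `X = T ⊔ T'`, `finrank X = 2`, totally isotropic. If some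
`A ∈ l` is not `≤ X`: `v ∈ pp X`, `x ∈ A` with `ω v x = 1`, `A' = A.map (sv hA 1 v) ∈ l` (`Cl.sv`), `OppMod 1 1 A A'` as in SI-20 (1b), so all pairs of different points are collinear:
contradicts `NonLinear`. So all elements of `l` are `≤ X`. `finrank (pp X) = n - 2 ≥ 4`: take `z ∈ pp X`, `z ∉ X`: `span {z}` is orthogonal to and different from all elements of `l`, not in `l`:
contradicts `max_clique`.
(2) So collinear points are not orthogonal, and (`coll_oppMod`; there is a collinear pair) all pairs of non-orthogonal points are collinear.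
(3) Every `l ∈ B` is `hline ω H` for some `H`, `finrank H = 2`, `¬ TI ω H`. Take `span {a} ≠ span {b}` in `l`, scaled `ω a b = 1`, `H = span {a} ⊔ span {b}`. Suppose `span {c} ∈ l`, `c ∉ H`.
`c = h + w` with `h ∈ H`, `w ∈ pp H` (`h = (ω c b) • a + (ω a c) • b`), `w ≠ 0`. `finrank (pp H) = n - 2 ≥ 4`, `pp H ⊓ H = ⊥`: choose `y ∈ pp H`, `ω w y = 0`, `y ∉ span {w}`
(dimension `≥ 3`); `w ∉ H ⊔ span {y}` (as `w ∈ span {y}`, modulo `H ⊓ pp H`): `exists_pp` gives `v ∈ pp (H ⊔ span {y})`, `ω v w = 1`, so `ω v c = 1` (`v ∈ pp H`). `g = ev (a := y, b := v)`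
(`ω y v = 0`) fixes `a`, `b`: `span {a}`, `span {b}` are fixed, so `g` preserves `l` (`Cl.cl`): `g c = c + ω v c • y + ω y c • v = c + y` (`ω y c = ω y w = 0`). `span {c + y} ∈ l`, different from
`span {c}` (`y ∉ span {c}`: `y ∈ pp H`, `c = h + w`; if `y = d c` then `d h = 0`-part: `d h ∈ pp H ⊓ H = ⊥`, `y = d w`, contradiction) and orthogonal: `ω c (c + y) = ω c y = ω w y = 0`. But two
points of a line are collinear, contradiction with (1). So `l ⊆ hline ω H`. Conversely `P ∈ hline ω H`, `P ∉ l`: for `Q ∈ l`, `P ≠ Q` in `H`, `P ⊔ Q = H` is not totally isotropic, so `P, Q` are not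
orthogonal, so collinear: contradicts `max_clique`.
(4) `B = hyps ω`: `⊆` is (3). `⊇`: `H` with `finrank H = 2`, `¬ TI ω H`: two non-orthogonal points of `H` are collinear by (2), on a line `l = hline ω H'` with `H' ≥ H`, so `H' = H`.
-/

open Module Submodule Finset

set_option linter.unusedSectionVars false

namespace Pool.Agent.Helper20.SI

open Pool.Agent.Helper29.FT Pool.Agent.Helper29.FT2

variable {F V : Type*} [Field F] [AddCommGroup V] [Module F V] [FiniteDimensional F V]
variable {ω : LinearMap.BilinForm F V}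

theorem one_pt {U : Submodule F V} (h : finrank F U = 1) : ∃ v : V, v ≠ 0 ∧ U = span F {v} := by
  have h1 : U ≠ ⊥ := by
    rintro rfl
    rw [finrank_bot] at h
    exact absurd h (by norm_num)
  obtain ⟨v, hv, hv0⟩ := U.ne_bot_iff.mp h1
  refine ⟨v, hv0, ?_⟩
  symm
  apply Submodule.eq_of_le_of_finrank_eq
  · rw [span_singleton_le_iff_mem]
    exact hv
  · rw [finrank_span_singleton hv0, h]

theorem one_ti (hA : ω.IsAlt) {U : Submodule F V} (h : finrank F U = 1) : TI ω U := by
  obtain ⟨v, -, rfl⟩ := one_pt h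
  exact ti_span hA v

theorem one_inf {U W : Submodule F V} (hU : finrank F U = 1) (hW : finrank F W = 1)
    (h : U ≠ W) : finrank F (U ⊓ W : Submodule F V) = 0 := by
  have h1 : finrank F (U ⊓ W : Submodule F V) ≤ 1 := by
    rw [← hU]
    exact Submodule.finrank_mono inf_le_left
  by_contra h0
  have h2 : finrank F (U ⊓ W : Submodule F V) = 1 := by omega
  have h3 : U ⊓ W = U := Submodule.eq_of_le_of_finrank_eq inf_le_left (by rw [h2, hU])
  have h4 : U ⊓ W = W := Submodule.eq_of_le_of_finrank_eq inf_le_right (by rw [h2, hW])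
  exact h (h3.symm.trans h4)

theorem one_sup {U W : Submodule F V} (hU : finrank F U = 1) (hW : finrank F W = 1)
    (h : U ≠ W) : finrank F (U ⊔ W : Submodule F V) = 2 := by
  have h1 := Submodule.finrank_sup_add_finrank_inf_eq U W
  rw [one_inf hU hW h, hU, hW] at h1
  omega

theorem one_perp (hA : ω.IsAlt) {U W : Submodule F V} (hU : finrank F U = 1)
    (hW : finrank F W = 1) (h : U ≠ W) (hp : U ≤ pp ω W) : PerpAdj ω 1 U W :=
  ⟨hU, hW, one_ti hA hU, one_ti hA hW, by rw [one_inf hU hW h], hp⟩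

theorem one_ne (hA : ω.IsAlt) {U W : Submodule F V} (hU : finrank F U = 1)
    (hp : ¬ U ≤ pp ω W) : U ≠ W := by
  rintro rfl
  exact hp (ti_iff.mp (one_ti hA hU))

theorem one_opp (hA : ω.IsAlt) {U W : Submodule F V} (hU : finrank F U = 1)
    (hW : finrank F W = 1) (hp : ¬ U ≤ pp ω W) : OppMod ω 1 1 U W := by
  rcases adj_cases hA hU hW (one_ti hA hU) (one_ti hA hW)
    (by rw [one_inf hU hW (one_ne hA hU hp)]) with h | h
  · exact absurd h.perp hp
  · exact h

theorem one_span_le {a b : V} : span F {a} ≤ pp ω (span F {b}) ↔ ω b a = 0 := by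
  rw [span_singleton_le_iff_mem, mem_pp_span]

variable [Finite F] [DecidableEq (Submodule F V)] {B : Finset (Finset (Submodule F V))}
  {k α s t μ : ℕ}

theorem one_orth (hA : ω.IsAlt) (hN : ω.Nondegenerate) (hB : SpInvariant ω B)
    (hS : IsSPG (IsoGr ω 1) B α s t μ) (hNL : NonLinear (IsoGr ω 1) B)
    (hn : 6 ≤ finrank F V) {U W : Submodule F V} (hc : Coll B U W) : ¬ U ≤ pp ω W := by
  intro hp
  have hU := (mem_IsoGr.mp (coll_mem hS hc).1).1
  have hW := (mem_IsoGr.mp (coll_mem hS hc).2).1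
  have hperp : ∀ U' W' : Submodule F V, finrank F U' = 1 → finrank F W' = 1 → U' ≠ W' →
      U' ≤ pp ω W' → Coll B U' W' := fun U' W' h1 h2 h3 h4 =>
    coll_perpAdj hA hN hB hc (one_perp hA hU hW hc.1 hp) (one_perp hA h1 h2 h3 h4)
  obtain ⟨hne, l, hl, hUl, hWl⟩ := hc
  have hcl := cl_of_line hB hS hl
  by_cases hall : ∀ A ∈ l, A ≤ U ⊔ W
  · have h2 := finrank_pp hA hN (U ⊔ W)
    have h3 := one_sup hU hW hne
    have h4 : ¬ pp ω (U ⊔ W) ≤ U ⊔ W := by
      intro h
      have := Submodule.finrank_mono h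
      omega
    obtain ⟨z, hz, hzX⟩ := SetLike.not_le_iff_exists.mp h4
    have hz0 : z ≠ 0 := by
      rintro rfl
      exact hzX (zero_mem _)
    have hzf : finrank F (span F {z}) = 1 := finrank_span_singleton hz0
    have hzl : span F {z} ∉ l := fun h => hzX (hall _ h (mem_span_singleton_self z))
    obtain ⟨b, hb, hnb⟩ := max_clique hS hNL hl (a := span F {z})
      (mem_IsoGr.mpr ⟨hzf, ti_span hA z⟩) hzl
    apply hnb
    apply hperp _ _ hzf (hcl.dim b hb)
    · rintro rfl
      exact hzl hb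
    · rw [span_singleton_le_iff_mem]
      exact pp_anti (hall b hb) hz
  · push Not at hall
    obtain ⟨A, hAl, hAX⟩ := hall
    obtain ⟨v, hv, x, hx, hvx⟩ := exists_pp_of_not_le hA hN hAX
    have hA' := hcl.sv hA 1 hUl hWl hne (pp_anti le_sup_left hv) (pp_anti le_sup_right hv) hAl
    have hno : ¬ A ≤ pp ω (A.map (sv hA 1 v : V →ₗ[F] V)) := by
      intro h
      have h1 := h hx (sv hA 1 v x) (Submodule.mem_map_of_mem hx)
      rw [sv_apply, hvx, map_add, LinearMap.add_apply, self0 hA x] at h1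
      simp [hvx] at h1
    have hcA : Coll B A (A.map (sv hA 1 v : V →ₗ[F] V)) :=
      ⟨one_ne hA (hcl.dim A hAl) hno, l, hl, hAl, hA'⟩
    obtain ⟨a, ha, b, hb, hab, hnc⟩ := hNL
    apply hnc
    have ha1 := (mem_IsoGr.mp ha).1
    have hb1 := (mem_IsoGr.mp hb).1
    by_cases hpab : a ≤ pp ω b
    · exact hperp a b ha1 hb1 hab hpab
    · exact coll_oppMod hA hN hB hcA (one_opp hA (hcl.dim A hAl) (hcl.dim _ hA') hno)
        (one_opp hA ha1 hb1 hpab)

theorem one_coll (hA : ω.IsAlt) (hN : ω.Nondegenerate) (hB : SpInvariant ω B)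
    (hS : IsSPG (IsoGr ω 1) B α s t μ) (hNL : NonLinear (IsoGr ω 1) B)
    (hn : 6 ≤ finrank F V) {U W : Submodule F V} (hU : finrank F U = 1) (hW : finrank F W = 1)
    (hp : ¬ U ≤ pp ω W) : Coll B U W := by
  have hs := two_le_s hA hN hB hS hNL
  have hNL' := hNL
  obtain ⟨a, ha, -⟩ := hNL'
  obtain ⟨l, hl, hal⟩ := hS.exists_line ha
  obtain ⟨c, hc, hca, -⟩ := exists_third hS hs hl a a
  have hcl := cl_of_line hB hS hl
  have h1 : Coll B a c := ⟨hca.symm, l, hl, hal, hc⟩
  exact coll_oppMod hA hN hB h1 (one_opp hA (hcl.dim a hal) (hcl.dim c hc)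
    (one_orth hA hN hB hS hNL hn h1)) (one_opp hA hU hW hp)

theorem one_line (hA : ω.IsAlt) (hN : ω.Nondegenerate) (hB : SpInvariant ω B)
    (hS : IsSPG (IsoGr ω 1) B α s t μ) (hNL : NonLinear (IsoGr ω 1) B)
    (hn : 6 ≤ finrank F V) {l : Finset (Submodule F V)} (hl : l ∈ B) :
    ∃ H : Submodule F V, finrank F H = 2 ∧ ¬ TI ω H ∧ l = hline ω H := by
  have hs := two_le_s hA hN hB hS hNL
  have hcl := cl_of_line hB hS hl
  have hne : 0 < #l := by
    rw [hS.line_card l hl]
    omega
  obtain ⟨A, hAl⟩ := card_pos.mp hne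
  obtain ⟨A', hAl', hAA, -⟩ := exists_third hS hs hl A A
  obtain ⟨a, ha0, rfl⟩ := one_pt (hcl.dim A hAl)
  obtain ⟨b', hb0, rfl⟩ := one_pt (hcl.dim A' hAl')
  have hab' : ω a b' ≠ 0 := by
    intro h
    exact one_orth hA hN hB hS hNL hn ⟨hAA, l, hl, hAl', hAl⟩ (one_span_le.mpr h)
  obtain ⟨b, hbdef⟩ : ∃ b : V, b = (ω a b')⁻¹ • b' := ⟨_, rfl⟩
  have hspan : span F {b} = span F {b'} := by
    rw [hbdef]
    exact span_singleton_smul_eq (isUnit_iff_ne_zero.mpr (inv_ne_zero hab')) b'
  rw [← hspan] at hAl' hAA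
  have hab : ω a b = 1 := by
    rw [hbdef, map_smul, smul_eq_mul, inv_mul_cancel₀ hab']
  have hba : ω b a = -1 := by rw [swap hA, hab]
  have hH2 := one_sup (hcl.dim _ hAl) (hcl.dim _ hAl') hAA.symm
  have hnTI : ¬ TI ω (span F {a} ⊔ span F {b}) := by
    intro h
    have := h a (mem_sup_left (mem_span_singleton_self a)) b
      (mem_sup_right (mem_span_singleton_self b))
    rw [hab] at this
    exact one_ne_zero this
  have hmpp : ∀ x : V, x ∈ pp ω (span F {a} ⊔ span F {b}) ↔ ω a x = 0 ∧ ω b x = 0 := by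
    intro x
    rw [pp_sup, Submodule.mem_inf, mem_pp_span, mem_pp_span]
  have hHpp : ∀ x ∈ span F {a} ⊔ span F {b}, x ∈ pp ω (span F {a} ⊔ span F {b}) → x = 0 := by
    intro x hx hx'
    obtain ⟨y, hy, z, hz, rfl⟩ := mem_sup.mp hx
    obtain ⟨p, rfl⟩ := mem_span_singleton.mp hy
    obtain ⟨q, rfl⟩ := mem_span_singleton.mp hz
    obtain ⟨h1, h2⟩ := (hmpp _).mp hx'
    rw [map_add, map_smul, map_smul, self0 hA a, hab] at h1
    rw [map_add, map_smul, map_smul, self0 hA b, hba] at h2
    simp only [smul_eq_mul, mul_zero, zero_add, mul_one, add_zero, mul_neg,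
      neg_eq_zero] at h1 h2
    rw [h1, h2, zero_smul, zero_smul, add_zero]
  have hsub : ∀ C ∈ l, C ≤ span F {a} ⊔ span F {b} := by
    intro C hC
    obtain ⟨c, hc0, rfl⟩ := one_pt (hcl.dim C hC)
    rw [span_singleton_le_iff_mem]
    by_contra hcH
    obtain ⟨h, hh⟩ : ∃ h : V, h = (ω c b) • a + (ω a c) • b := ⟨_, rfl⟩
    obtain ⟨w, hw⟩ : ∃ w : V, w = c - h := ⟨_, rfl⟩
    have hcw : c = h + w := by rw [hw]; abel
    have hhH : h ∈ span F {a} ⊔ span F {b} := by
      rw [hh]
      exact add_mem (mem_sup_left (smul_mem _ _ (mem_span_singleton_self a)))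
        (mem_sup_right (smul_mem _ _ (mem_span_singleton_self b)))
    have hwpp : w ∈ pp ω (span F {a} ⊔ span F {b}) := by
      rw [hmpp, hw, hh]
      constructor
      · rw [map_sub, map_add, map_smul, map_smul, self0 hA a, hab]
        simp
      · rw [map_sub, map_add, map_smul, map_smul, self0 hA b, hba, swap hA b c]
        simp
    have hw0 : w ≠ 0 := by
      rintro h0
      rw [h0, add_zero] at hcw
      rw [hcw] at hcH
      exact hcH hhH
    have hfp := finrank_pp hA hN (span F {a} ⊔ span F {b})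
    have hfk := finrank_inf_ker_ge (pp ω (span F {a} ⊔ span F {b})) (ω w)
    have hnle : ¬ pp ω (span F {a} ⊔ span F {b}) ⊓ LinearMap.ker (ω w) ≤ span F {w} := by
      intro h
      have h1 := Submodule.finrank_mono h
      rw [finrank_span_singleton hw0] at h1
      omega
    obtain ⟨y, hy, hyw⟩ := SetLike.not_le_iff_exists.mp hnle
    have hypp := hy.1
    have hwy : ω w y = 0 := LinearMap.mem_ker.mp hy.2
    have hnw : w ∉ span F {a} ⊔ span F {b} ⊔ span F {y} := by
      intro hmem
      obtain ⟨h', hh', z, hz, hsum⟩ := mem_sup.mp hmem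
      obtain ⟨d, rfl⟩ := mem_span_singleton.mp hz
      have h1 : h' = 0 := by
        apply hHpp h' hh'
        have h2 : h' = w - d • y := by rw [← hsum]; abel
        rw [h2]
        exact sub_mem hwpp (smul_mem _ _ hypp)
      rw [h1, zero_add] at hsum
      have hd : d ≠ 0 := by
        rintro rfl
        rw [zero_smul] at hsum
        exact hw0 hsum.symm
      apply hyw
      rw [mem_span_singleton]
      exact ⟨d⁻¹, by rw [← hsum, smul_smul, inv_mul_cancel₀ hd, one_smul]⟩
    obtain ⟨v, hv, hvw⟩ := exists_pp hA hN hnw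
    have hvH : v ∈ pp ω (span F {a} ⊔ span F {b}) := pp_anti le_sup_left hv
    have hyv : ω y v = 0 := mem_pp_span.mp (pp_anti le_sup_right hv)
    have hvh : ω v h = 0 := (mem_pp' hA).mp hvH h hhH
    have hyh : ω y h = 0 := (mem_pp' hA).mp hypp h hhH
    have hvc : ω v c = 1 := by rw [hcw, map_add, hvh, hvw, zero_add]
    have hyc : ω y c = 0 := by rw [hcw, map_add, hyh, swap0 hA hwy, zero_add]
    have hgc : ev hA hyv c = c + y := by
      rw [ev_apply, hvc, hyc, one_smul, zero_smul, add_zero]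
    have hgl := hcl.cl (ev hA hyv) (iso_ev hA hyv) _ hAl _ hAl' hAA.symm
      (ev_fix_pp hA hyv (pp_anti le_sup_left hypp) (pp_anti le_sup_left hvH))
      (ev_fix_pp hA hyv (pp_anti le_sup_right hypp) (pp_anti le_sup_right hvH)) _ hC
    have hmapC : (span F {c}).map (ev hA hyv : V →ₗ[F] V) = span F {c + y} := by
      rw [Submodule.map_span, Set.image_singleton]
      change span F {ev hA hyv c} = _
      rw [hgc]
    rw [hmapC] at hgl
    have hne' : span F {c} ≠ span F {c + y} := by
      intro heq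
      have h1 : c + y ∈ span F {c} := by
        rw [heq]
        exact mem_span_singleton_self _
      have h2 : y ∈ span F {c} := by
        have := sub_mem h1 (mem_span_singleton_self c)
        rwa [add_sub_cancel_left] at this
      obtain ⟨d, hd⟩ := mem_span_singleton.mp h2
      have h3 : d • h = 0 := by
        apply hHpp _ (smul_mem _ _ hhH)
        have h4 : d • h = y - d • w := by
          rw [← hd, hcw, smul_add]
          abel
        rw [h4]
        exact sub_mem hypp (smul_mem _ _ hwpp)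
      apply hyw
      rw [mem_span_singleton]
      refine ⟨d, ?_⟩
      rw [← hd]
      conv_rhs => rw [hcw, smul_add, h3, zero_add]
    exact one_orth hA hN hB hS hNL hn ⟨hne', l, hl, hC, hgl⟩
      (one_span_le.mpr (by rw [map_add, LinearMap.add_apply, self0 hA, hyc, add_zero]))
  refine ⟨span F {a} ⊔ span F {b}, hH2, hnTI, ?_⟩
  ext P
  rw [mem_hline]
  constructor
  · intro hP
    exact ⟨hcl.dim P hP, hsub P hP, hcl.ti P hP⟩
  · rintro ⟨hP1, hPH, hPt⟩
    by_contra hPl
    obtain ⟨Q, hQ, hnQ⟩ := max_clique hS hNL hl (a := P) (mem_IsoGr.mpr ⟨hP1, hPt⟩) hPl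
    apply hnQ
    have hPQ : P ≠ Q := by
      rintro rfl
      exact hPl hQ
    apply one_coll hA hN hB hS hNL hn hP1 (hcl.dim Q hQ)
    intro hpp
    apply hnTI
    have h1 : P ⊔ Q = span F {a} ⊔ span F {b} := by
      apply Submodule.eq_of_le_of_finrank_eq (sup_le hPH (hsub Q hQ))
      rw [one_sup hP1 (hcl.dim Q hQ) hPQ, hH2]
    rw [← h1]
    exact ti_sup hA hPt (hcl.ti Q hQ) hpp

theorem necessity_one (hA : ω.IsAlt) (hN : ω.Nondegenerate) (hB : SpInvariant ω B)
    (hS : IsSPG (IsoGr ω 1) B α s t μ) (hNL : NonLinear (IsoGr ω 1) B)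
    (hn : 6 ≤ finrank F V) : B = hyps ω := by
  ext l
  rw [mem_hyps]
  constructor
  · exact one_line hA hN hB hS hNL hn
  · rintro ⟨H, hH2, hnTI, rfl⟩
    unfold TI at hnTI
    push Not at hnTI
    obtain ⟨x, hx, y, hy, hxy⟩ := hnTI
    have hx0 : x ≠ 0 := by
      rintro rfl
      exact hxy (by simp)
    have hy0 : y ≠ 0 := by
      rintro rfl
      exact hxy (by simp)
    have hX : finrank F (span F {x}) = 1 := finrank_span_singleton hx0
    have hY : finrank F (span F {y}) = 1 := finrank_span_singleton hy0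
    have hno : ¬ span F {y} ≤ pp ω (span F {x}) := fun h => hxy (one_span_le.mp h)
    obtain ⟨hne, m, hm, hym, hxm⟩ := one_coll hA hN hB hS hNL hn hY hX hno
    obtain ⟨H', hH', -, hm'⟩ := one_line hA hN hB hS hNL hn hm
    rw [hm'] at hym hxm
    have h1 : span F {y} ⊔ span F {x} = H' := by
      apply Submodule.eq_of_le_of_finrank_eq
        (sup_le (mem_hline.mp hym).2.1 (mem_hline.mp hxm).2.1)
      rw [one_sup hY hX hne, hH']
    have h2 : span F {y} ⊔ span F {x} = H := by
      apply Submodule.eq_of_le_of_finrank_eq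
      · apply sup_le
        · rw [span_singleton_le_iff_mem]
          exact hy
        · rw [span_singleton_le_iff_mem]
          exact hx
      · rw [one_sup hY hX hne, hH2]
    rw [← h2, h1, ← hm']
    exact hm

end Pool.Agent.Helper20.SI
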