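import Pool.Agent.Helper20.SI.Witt

/-!
# SI-02 Orbit: orbits on totally isotropic subspaces and on pairs

`trans_ti`: a linear bijection `U ≃ U'` that maps `E` into `E'` (`FT2.exists_equiv_sub`, then equality by dimension);
apply `witt` to `X = U`, `f` = this bijection followed by the inclusion (both forms vanish).
`trans_perp`: `FT2.trans_gl` gives a linear bijection `g₀` of `V` with `U ↦ U'`, `W ↦ W'`. `U ⊔ W` and `U' ⊔ W'` are totally
isotropic (`ti_sup`), so the restriction of `g₀` to `U ⊔ W` is an injective isometry: `witt`.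
-/

open Module Submodule Finset

set_option linter.unusedSectionVars false

namespace Pool.Agent.Helper20.SI

open Pool.Agent.Helper29.FT Pool.Agent.Helper29.FT2

variable {F V : Type*} [Field F] [AddCommGroup V] [Module F V] [FiniteDimensional F V]
variable {ω : LinearMap.BilinForm F V}

theorem trans_ti (hA : ω.IsAlt) (hN : ω.Nondegenerate) {U U' E E' : Submodule F V}
    (hU : TI ω U) (hU' : TI ω U') (hE : E ≤ U) (hE' : E' ≤ U')
    (h1 : finrank F U = finrank F U') (h2 : finrank F E = finrank F E') :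
    ∃ g : V ≃ₗ[F] V, Iso ω g ∧ U.map (g : V →ₗ[F] V) = U' ∧ E.map (g : V →ₗ[F] V) = E' := by
  obtain ⟨e, he⟩ := exists_equiv_sub h1 hE hE' h2
  have hf : Function.Injective (U'.subtype ∘ₗ (e : U →ₗ[F] U')) :=
    Subtype.val_injective.comp e.injective
  obtain ⟨g, hg, hgf⟩ := witt hA hN U (U'.subtype ∘ₗ (e : U →ₗ[F] U')) hf (by
    intro x y
    rw [hU _ x.2 _ y.2]
    exact hU' _ (e x).2 _ (e y).2)
  refine ⟨g, hg, map_eq_of_le ?_ h1, map_eq_of_le ?_ h2⟩
  · intro x hx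
    have h3 : g x = (e ⟨x, hx⟩ : V) := hgf ⟨x, hx⟩
    rw [h3]
    exact (e ⟨x, hx⟩).2
  · intro x hx
    have h3 : g x = (e ⟨x, hE hx⟩ : V) := hgf ⟨x, hE hx⟩
    rw [h3]
    exact he ⟨x, hE hx⟩ hx

theorem trans_perp (hA : ω.IsAlt) (hN : ω.Nondegenerate) {U W U' W' : Submodule F V}
    (hU : TI ω U) (hW : TI ω W) (hU' : TI ω U') (hW' : TI ω W')
    (h : U ≤ pp ω W) (h' : U' ≤ pp ω W')
    (h1 : finrank F U = finrank F U') (h2 : finrank F W = finrank F W')
    (h3 : finrank F (U ⊓ W : Submodule F V) = finrank F (U' ⊓ W' : Submodule F V)) :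
    ∃ g : V ≃ₗ[F] V, Iso ω g ∧ U.map (g : V →ₗ[F] V) = U' ∧ W.map (g : V →ₗ[F] V) = W' := by
  obtain ⟨g0, hg0U, hg0W⟩ := trans_gl h1 h2 h3
  have hT : TI ω (U ⊔ W) := ti_sup hA hU hW h
  have hT' : TI ω (U' ⊔ W') := ti_sup hA hU' hW' h'
  have hmem : ∀ x ∈ U ⊔ W, g0 x ∈ U' ⊔ W' := by
    intro x hx
    have h4 := Submodule.mem_map_of_mem (f := (g0 : V →ₗ[F] V)) hx
    rw [Submodule.map_sup, hg0U, hg0W] at h4
    exact h4
  obtain ⟨g, hg, hgf⟩ := witt hA hN (U ⊔ W) ((g0 : V →ₗ[F] V) ∘ₗ (U ⊔ W).subtype)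
    (g0.injective.comp Subtype.val_injective) (by
    intro x y
    rw [hT _ x.2 _ y.2]
    exact hT' _ (hmem _ x.2) _ (hmem _ y.2))
  refine ⟨g, hg, map_eq_of_le ?_ h1, map_eq_of_le ?_ h2⟩
  · intro x hx
    have h4 : g x = g0 x := hgf ⟨x, le_sup_left (a := U) hx⟩
    rw [h4, ← hg0U]
    exact Submodule.mem_map_of_mem hx
  · intro x hx
    have h4 : g x = g0 x := hgf ⟨x, le_sup_right (a := U) hx⟩
    rw [h4, ← hg0W]
    exact Submodule.mem_map_of_mem hx

end Pool.Agent.Helper20.SI
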