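import Pool.Agent.Helper20.SI.Orbit

/-!
# SI-03 Orbit2: pairs that are opposite modulo their intersection form one orbit

`trans_fix`: induction on `finrank W - finrank (W ⊓ W')`. If `W ≤ W'` they are equal (dimension), take `1`. Otherwise there is
`w' ∈ W'`, `w' ∉ W`. CLAIM: there is `w ∈ W` with `w' - w ∈ pp ω U`. The linear map `φ : W → Dual U`, `φ w = ω (·) w` has
kernel `W ⊓ U^⊥ = U ⊓ W = E`, so its range has dimension `finrank W - finrank E`; the range lies in
`A = {f | f = 0 on E}` (as `E ≤ W` and `W` is totally isotropic), of dimension `finrank U - finrank E`; so range = `A`. The same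
holds for `W'` (same `E`), so `φ' w' ∈ A` = range of `φ`. (Or: by `finrank`, `pp ω U ⊔ W` has dimension
`n - k + k - e = n - e = finrank (pp ω E)` and is contained in `pp ω E`, so `pp ω U ⊔ W = pp ω E ∋ w'`: this is shorter.)
Put `M = U ⊔ (W ⊓ W')`: `w ∉ M`: if `w = u + v`, `v ∈ W ⊓ W'`, then `u = w - v ∈ U ⊓ W = U ⊓ W' ≤ W'`, so `w ∈ W'` and
`w' - w ∈ W' ⊓ U^⊥ = U ⊓ W' = U ⊓ W ≤ W`, so `w' ∈ W`, contradiction. `w' ∉ M`: if `w' = u + v` then `u ∈ U ⊓ W' = U ⊓ W`, so
`w' ∈ W`. `w' - w ∈ pp ω M` (`W`, `W'` are totally isotropic). `witt_step` gives `g₁`, identity on `M`, `g₁ w = w'`.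
`W₁ = W.map g₁` satisfies the hypotheses (`g₁` is the identity on `U`) and `W₁ ⊓ W' ≥ (W ⊓ W') ⊔ span {w'}`: induction.
`trans_opp`: `trans_ti` (with `E = U ⊓ W`, `E' = U' ⊓ W'`) gives `g₁` with `U ↦ U'`, `U ⊓ W ↦ U' ⊓ W'`; then `trans_fix` for
`U'`, `W.map g₁`, `W'` (`map_inf'`, `pp_map`).
-/

open Module Submodule Finset

set_option linter.unusedSectionVars false

namespace Pool.Agent.Helper20.SI

open Pool.Agent.Helper29.FT Pool.Agent.Helper29.FT2

variable {F V : Type*} [Field F] [AddCommGroup V] [Module F V] [FiniteDimensional F V]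
variable {ω : LinearMap.BilinForm F V}

theorem Orbit2_map_mul (g h : V ≃ₗ[F] V) (W : Submodule F V) :
    W.map ((g * h : V ≃ₗ[F] V) : V →ₗ[F] V) = (W.map (h : V →ₗ[F] V)).map (g : V →ₗ[F] V) := by
  rw [← Submodule.map_comp]
  rfl

theorem Orbit2_ind (hA : ω.IsAlt) (hN : ω.Nondegenerate) {U W' : Submodule F V}
    (hU : TI ω U) (hW' : TI ω W') (hd' : finrank F U = finrank F W')
    (h3 : W' ⊓ pp ω U = U ⊓ W') (d : ℕ) :
    ∀ W : Submodule F V, TI ω W → finrank F U = finrank F W → U ⊓ W = U ⊓ W' →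
      W ⊓ pp ω U = U ⊓ W → finrank F W ≤ finrank F (W ⊓ W' : Submodule F V) + d →
      ∃ g : V ≃ₗ[F] V, Iso ω g ∧ (∀ u ∈ U, g u = u) ∧ W.map (g : V →ₗ[F] V) = W' := by
  have base : ∀ W : Submodule F V, finrank F U = finrank F W → W ≤ W' →
      ∃ g : V ≃ₗ[F] V, Iso ω g ∧ (∀ u ∈ U, g u = u) ∧ W.map (g : V →ₗ[F] V) = W' := by
    intro W hd hle
    refine ⟨1, Iso.one, fun _ _ => rfl, ?_⟩
    rw [map_fix (g := (1 : V ≃ₗ[F] V)) (U := W) fun _ _ => rfl]
    exact Submodule.eq_of_le_of_finrank_eq hle (by omega)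
  induction d with
  | zero =>
    intro W hW hd h1 h2 hdim
    apply base W hd
    have h4 : W ⊓ W' = W := Submodule.eq_of_le_of_finrank_le inf_le_left (by omega)
    rw [← h4]
    exact inf_le_right
  | succ d ih =>
    intro W hW hd h1 h2 hdim
    by_cases hle : W ≤ W'
    · exact base W hd hle
    have hle' : ¬ W' ≤ W := by
      intro h
      have h4 : W' = W := Submodule.eq_of_le_of_finrank_eq h (by omega)
      exact hle h4.ge
    obtain ⟨w', hw', hw'W⟩ := SetLike.not_le_iff_exists.mp hle'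
    have hsup : pp ω U ⊔ W = pp ω (U ⊓ W) := by
      apply Submodule.eq_of_le_of_finrank_eq
      · exact sup_le (pp_anti inf_le_left) ((ti_iff.mp hW).trans (pp_anti inf_le_right))
      · have e1 := Submodule.finrank_sup_add_finrank_inf_eq (pp ω U) W
        have e2 : pp ω U ⊓ W = U ⊓ W := by rw [inf_comm, h2]
        rw [e2] at e1
        have e3 := finrank_pp hA hN U
        have e4 := finrank_pp hA hN (U ⊓ W)
        omega
    have hw'1 : w' ∈ pp ω U ⊔ W := by
      rw [hsup, h1]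
      exact pp_anti inf_le_right (ti_iff.mp hW' hw')
    obtain ⟨p, hp, w, hw, hpw⟩ := mem_sup.mp hw'1
    have hsub : w' - w ∈ pp ω U := by
      rw [← hpw, add_sub_cancel_right]
      exact hp
    have hwM : w ∉ U ⊔ (W ⊓ W') := by
      intro h
      obtain ⟨u, hu, v, hv, huv⟩ := mem_sup.mp h
      have e1 : u ∈ W := by
        have : u = w - v := by rw [← huv, add_sub_cancel_right]
        rw [this]
        exact W.sub_mem hw hv.1
      have e2 : u ∈ U ⊓ W' := by
        rw [← h1]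
        exact ⟨hu, e1⟩
      have e3 : w ∈ W' := by
        rw [← huv]
        exact W'.add_mem e2.2 hv.2
      have e4 : w' - w ∈ W' ⊓ pp ω U := ⟨W'.sub_mem hw' e3, hsub⟩
      rw [h3, ← h1] at e4
      apply hw'W
      have := W.add_mem e4.2 hw
      rwa [sub_add_cancel] at this
    have hw'M : w' ∉ U ⊔ (W ⊓ W') := by
      intro h
      obtain ⟨u, hu, v, hv, huv⟩ := mem_sup.mp h
      have e1 : u ∈ W' := by
        have : u = w' - v := by rw [← huv, add_sub_cancel_right]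
        rw [this]
        exact W'.sub_mem hw' hv.2
      have e2 : u ∈ U ⊓ W := by
        rw [h1]
        exact ⟨hu, e1⟩
      apply hw'W
      rw [← huv]
      exact W.add_mem e2.2 hv.1
    have hM : w' - w ∈ pp ω (U ⊔ (W ⊓ W')) := by
      rw [pp_sup]
      exact ⟨hsub, (pp ω (W ⊓ W')).sub_mem (pp_anti inf_le_right (ti_iff.mp hW' hw'))
        (pp_anti inf_le_left (ti_iff.mp hW hw))⟩
    obtain ⟨g₁, hg₁, hfix, hg₁w⟩ := witt_step hA hN hwM hw'M hM
    have hfU : ∀ u ∈ U, g₁ u = u := fun u hu => hfix u (mem_sup_left hu)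
    have hUm : U.map (g₁ : V →ₗ[F] V) = U := map_fix hfU
    have hinf : (U ⊓ W).map (g₁ : V →ₗ[F] V) = U ⊓ W := map_fix fun x hx => hfU x hx.1
    have k1 : U ⊓ W.map (g₁ : V →ₗ[F] V) = U ⊓ W := by
      conv_lhs => rw [← hUm]
      rw [← map_inf', hinf]
    obtain ⟨g₂, hg₂, hfix₂, hg₂W⟩ := ih (W.map (g₁ : V →ₗ[F] V)) (hW.map hg₁)
      (by rw [finrank_map']; exact hd) (k1.trans h1)
      (by
        have e1 : pp ω U = (pp ω U).map (g₁ : V →ₗ[F] V) := by
          rw [← pp_map hg₁, hUm]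
        rw [e1, ← map_inf', h2, hinf, k1])
      (by
        rw [finrank_map']
        have e1 : W ⊓ W' < W.map (g₁ : V →ₗ[F] V) ⊓ W' := by
          refine lt_of_le_of_ne ?_ ?_
          · intro x hx
            refine ⟨?_, hx.2⟩
            rw [← hfix x (mem_sup_right hx)]
            exact Submodule.mem_map_of_mem hx.1
          · intro h
            have e2 : w' ∈ W.map (g₁ : V →ₗ[F] V) ⊓ W' := by
              refine ⟨?_, hw'⟩
              rw [← hg₁w]
              exact Submodule.mem_map_of_mem hw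
            rw [← h] at e2
            exact hw'W e2.1
        have e3 := Submodule.finrank_lt_finrank_of_lt e1
        omega)
    refine ⟨g₂ * g₁, hg₂.mul hg₁, fun u hu => ?_, ?_⟩
    · show g₂ (g₁ u) = u
      rw [hfU u hu, hfix₂ u hu]
    · rw [Orbit2_map_mul, hg₂W]

theorem trans_fix (hA : ω.IsAlt) (hN : ω.Nondegenerate) {U W W' : Submodule F V}
    (hU : TI ω U) (hW : TI ω W) (hW' : TI ω W')
    (hd : finrank F U = finrank F W) (hd' : finrank F U = finrank F W')
    (h1 : U ⊓ W = U ⊓ W') (h2 : W ⊓ pp ω U = U ⊓ W) (h3 : W' ⊓ pp ω U = U ⊓ W') :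
    ∃ g : V ≃ₗ[F] V, Iso ω g ∧ (∀ u ∈ U, g u = u) ∧ W.map (g : V →ₗ[F] V) = W' :=
  Orbit2_ind hA hN hU hW' hd' h3 (finrank F W) W hW hd h1 h2 (by omega)

theorem trans_opp (hA : ω.IsAlt) (hN : ω.Nondegenerate) {U W U' W' : Submodule F V}
    (hU : TI ω U) (hW : TI ω W) (hU' : TI ω U') (hW' : TI ω W')
    (hd : finrank F U = finrank F W) (hd' : finrank F U' = finrank F W')
    (hdd : finrank F U = finrank F U')
    (h1 : finrank F (U ⊓ W : Submodule F V) = finrank F (U' ⊓ W' : Submodule F V))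
    (h2 : W ⊓ pp ω U = U ⊓ W) (h3 : W' ⊓ pp ω U' = U' ⊓ W') :
    ∃ g : V ≃ₗ[F] V, Iso ω g ∧ U.map (g : V →ₗ[F] V) = U' ∧ W.map (g : V →ₗ[F] V) = W' := by
  obtain ⟨g₁, hg₁, hgU, hgE⟩ := trans_ti hA hN hU hU' (inf_le_left : U ⊓ W ≤ U)
    (inf_le_left : U' ⊓ W' ≤ U') hdd h1
  have k1 : U' ⊓ W.map (g₁ : V →ₗ[F] V) = U' ⊓ W' := by
    rw [← hgU, ← map_inf', hgE, hgU]
  obtain ⟨g₂, hg₂, hfix, hg₂W⟩ := trans_fix hA hN hU' (hW.map hg₁) hW'
    (by rw [finrank_map']; omega) hd' k1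
    (by
      have e1 : pp ω U' = (pp ω U).map (g₁ : V →ₗ[F] V) := by
        rw [← pp_map hg₁, hgU]
      rw [e1, ← map_inf', h2, hgE, k1]) h3
  refine ⟨g₂ * g₁, hg₂.mul hg₁, ?_, ?_⟩
  · rw [Orbit2_map_mul, hgU]
    exact map_fix hfix
  · rw [Orbit2_map_mul, hg₂W]

end Pool.Agent.Helper20.SI
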