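import Pool.Agent.Helper20.SI.Defs
import Pool.Agent.Helper29.FT2.Trans

/-!
# Project SI (MP_cc38df_co): transvections and long root elements

`sv hA c v : x ↦ x + (c * ω v x) • v` and, for `ω a b = 0`,
`ev hA h : x ↦ x + ω b x • a + ω a x • b`; both are isometries.
-/

open Module Submodule Finset

set_option linter.unusedSectionVars false

namespace Pool.Agent.Helper20.SI

open Pool.Agent.Helper29.FT Pool.Agent.Helper29.FT2

variable {F V : Type*} [Field F] [AddCommGroup V] [Module F V] [FiniteDimensional F V]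
variable {ω : LinearMap.BilinForm F V}

theorem Iso.mul {g h : V ≃ₗ[F] V} (hg : Iso ω g) (hh : Iso ω h) : Iso ω (g * h) := by
  intro x y
  show ω (g (h x)) (g (h y)) = ω x y
  rw [hg, hh]

theorem Iso.symm {g : V ≃ₗ[F] V} (hg : Iso ω g) : Iso ω g.symm := by
  intro x y
  rw [← hg, g.apply_symm_apply, g.apply_symm_apply]

theorem Iso.one : Iso ω (1 : V ≃ₗ[F] V) := fun _ _ => rfl

theorem TI.map {g : V ≃ₗ[F] V} (hg : Iso ω g) {U : Submodule F V} (hU : TI ω U) :
    TI ω (U.map (g : V →ₗ[F] V)) := by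
  rintro _ ⟨x, hx, rfl⟩ _ ⟨y, hy, rfl⟩
  show ω (g x) (g y) = 0
  rw [hg, hU x hx y hy]

theorem pp_map {g : V ≃ₗ[F] V} (hg : Iso ω g) (U : Submodule F V) :
    pp ω (U.map (g : V →ₗ[F] V)) = (pp ω U).map (g : V →ₗ[F] V) := by
  ext x
  constructor
  · intro h
    refine ⟨g.symm x, ?_, g.apply_symm_apply x⟩
    intro u hu
    have h1 := h (g u) (Submodule.mem_map_of_mem hu)
    rw [← hg u (g.symm x), g.apply_symm_apply]
    exact h1
  · rintro ⟨y, hy, rfl⟩ _ ⟨u, hu, rfl⟩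
    show ω (g u) (g y) = 0
    rw [hg, hy u hu]

theorem map_symm_map' (g : V ≃ₗ[F] V) (U : Submodule F V) :
    (U.map (g : V →ₗ[F] V)).map (g.symm : V →ₗ[F] V) = U := by
  rw [← Submodule.map_comp]
  simp

theorem map_inf' (g : V ≃ₗ[F] V) (U W : Submodule F V) :
    (U ⊓ W).map (g : V →ₗ[F] V) = U.map (g : V →ₗ[F] V) ⊓ W.map (g : V →ₗ[F] V) :=
  Submodule.map_inf (g : V →ₗ[F] V) g.injective

theorem map_inj' (g : V ≃ₗ[F] V) {U W : Submodule F V}
    (h : U.map (g : V →ₗ[F] V) = W.map (g : V →ₗ[F] V)) : U = W :=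
  Submodule.map_injective_of_injective (f := (g : V →ₗ[F] V)) g.injective h

theorem map_fix {g : V ≃ₗ[F] V} {U : Submodule F V} (h : ∀ x ∈ U, g x = x) :
    U.map (g : V →ₗ[F] V) = U :=
  map_eq_of_le (fun x hx => by rw [h x hx]; exact hx) rfl

theorem mem_map_iff (g : V ≃ₗ[F] V) {U : Submodule F V} {x : V} :
    g x ∈ U.map (g : V →ₗ[F] V) ↔ x ∈ U := by
  constructor
  · rintro ⟨y, hy, hxy⟩
    have : y = x := g.injective hxy
    rwa [← this]
  · exact fun h => Submodule.mem_map_of_mem h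

/-! ### transvections -/

/-- the transvection `x ↦ x + (c * ω v x) • v` -/
noncomputable def sv (hA : ω.IsAlt) (c : F) (v : V) : V ≃ₗ[F] V :=
  tv (c • ω v) v (by rw [LinearMap.smul_apply, self0 hA, smul_zero])

theorem sv_apply (hA : ω.IsAlt) (c : F) (v x : V) : sv hA c v x = x + (c * ω v x) • v := rfl

theorem iso_sv (hA : ω.IsAlt) (c : F) (v : V) : Iso ω (sv hA c v) := by
  intro x y
  rw [sv_apply, sv_apply]
  simp only [map_add, map_smul, LinearMap.add_apply, LinearMap.smul_apply, smul_eq_mul,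
    self0 hA v]
  rw [swap hA x v]
  ring

theorem sv_fix (hA : ω.IsAlt) (c : F) {v : V} {U : Submodule F V} (h : v ∈ pp ω U) :
    U.map (sv hA c v : V →ₗ[F] V) = U := by
  apply map_fix
  intro x hx
  rw [sv_apply, (mem_pp' hA).mp h x hx, mul_zero, zero_smul, add_zero]

/-! ### long root elements -/

/-- `E(a, b) : x ↦ x + ω b x • a + ω a x • b` for `ω a b = 0` -/
noncomputable def ev (hA : ω.IsAlt) {a b : V} (h : ω a b = 0) : V ≃ₗ[F] V :=
  LinearEquiv.ofLinearMap
    (LinearMap.id + (ω b).smulRight a + (ω a).smulRight b)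
    (LinearMap.id - (ω b).smulRight a - (ω a).smulRight b)
    (by
      ext x
      simp only [LinearMap.coe_comp, Function.comp_apply, LinearMap.add_apply,
        LinearMap.sub_apply, LinearMap.id_apply, LinearMap.smulRight_apply, map_sub, map_smul,
        self0 hA, h, swap0 hA h, zero_smul]
      abel_nf)
    (by
      ext x
      simp only [LinearMap.coe_comp, Function.comp_apply, LinearMap.add_apply,
        LinearMap.sub_apply, LinearMap.id_apply, LinearMap.smulRight_apply, map_add, map_smul,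
        self0 hA, h, swap0 hA h, zero_smul]
      abel_nf)

theorem ev_apply (hA : ω.IsAlt) {a b : V} (h : ω a b = 0) (x : V) :
    ev hA h x = x + ω b x • a + ω a x • b := rfl

theorem iso_ev (hA : ω.IsAlt) {a b : V} (h : ω a b = 0) : Iso ω (ev hA h) := by
  intro x y
  rw [ev_apply, ev_apply]
  simp only [map_add, map_smul, LinearMap.add_apply, LinearMap.smul_apply, smul_eq_mul,
    self0 hA, h, swap0 hA h]
  rw [swap hA x a, swap hA x b]
  ring

theorem ev_fix_left (hA : ω.IsAlt) {a b : V} (h : ω a b = 0) {U : Submodule F V}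
    (hU : TI ω U) (ha : a ∈ U) : U.map (ev hA h : V →ₗ[F] V) = U := by
  apply map_eq_of_le _ rfl
  intro x hx
  rw [ev_apply, hU a ha x hx, zero_smul, add_zero]
  exact U.add_mem hx (U.smul_mem _ ha)

theorem ev_fix_right (hA : ω.IsAlt) {a b : V} (h : ω a b = 0) {U : Submodule F V}
    (hU : TI ω U) (hb : b ∈ U) : U.map (ev hA h : V →ₗ[F] V) = U := by
  apply map_eq_of_le _ rfl
  intro x hx
  rw [ev_apply, hU b hb x hx, zero_smul, add_zero]
  exact U.add_mem hx (U.smul_mem _ hb)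

theorem ev_fix_pp (hA : ω.IsAlt) {a b : V} (h : ω a b = 0) {U : Submodule F V}
    (ha : a ∈ pp ω U) (hb : b ∈ pp ω U) : U.map (ev hA h : V →ₗ[F] V) = U := by
  apply map_fix
  intro x hx
  rw [ev_apply, (mem_pp' hA).mp ha x hx, (mem_pp' hA).mp hb x hx]
  simp

/-! ### closed sets -/

variable {k : ℕ} {L : Finset (Submodule F V)}

/-- a transvection with centre orthogonal to two elements -/
theorem Cl.sv (hA : ω.IsAlt) (hL : Cl ω k L) (c : F) {v : V} {U W T : Submodule F V}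
    (hU : U ∈ L) (hW : W ∈ L) (hUW : U ≠ W) (hvU : v ∈ pp ω U) (hvW : v ∈ pp ω W) (hT : T ∈ L) :
    T.map (sv hA c v : V →ₗ[F] V) ∈ L :=
  hL.cl _ (iso_sv hA c v) U hU W hW hUW (sv_fix hA c hvU) (sv_fix hA c hvW) T hT

/-- a transvection whose centre lies in two elements -/
theorem Cl.sv_good (hA : ω.IsAlt) (hL : Cl ω k L) (c : F) {v : V} (hv : Good L v)
    {T : Submodule F V} (hT : T ∈ L) : T.map (SI.sv hA c v : V →ₗ[F] V) ∈ L := by
  obtain ⟨U, hU, W, hW, hUW, hvU, hvW⟩ := hv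
  exact hL.sv hA c hU hW hUW (ti_iff.mp (hL.ti U hU) hvU) (ti_iff.mp (hL.ti W hW) hvW) hT

/-- `E(a, b)` with `a` in two elements -/
theorem Cl.ev_good (hA : ω.IsAlt) (hL : Cl ω k L) {a b : V} (h : ω a b = 0) (ha : Good L a)
    {T : Submodule F V} (hT : T ∈ L) : T.map (ev hA h : V →ₗ[F] V) ∈ L := by
  obtain ⟨U, hU, W, hW, hUW, haU, haW⟩ := ha
  exact hL.cl _ (iso_ev hA h) U hU W hW hUW (ev_fix_left hA h (hL.ti U hU) haU)
    (ev_fix_left hA h (hL.ti W hW) haW) T hT

/-- `E(a, b)` with `a ∈ U`, `b ∈ W` -/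
theorem Cl.ev_cross (hA : ω.IsAlt) (hL : Cl ω k L) {a b : V} (h : ω a b = 0)
    {U W T : Submodule F V} (hU : U ∈ L) (hW : W ∈ L) (hUW : U ≠ W) (ha : a ∈ U) (hb : b ∈ W)
    (hT : T ∈ L) : T.map (ev hA h : V →ₗ[F] V) ∈ L :=
  hL.cl _ (iso_ev hA h) U hU W hW hUW (ev_fix_left hA h (hL.ti U hU) ha)
    (ev_fix_right hA h (hL.ti W hW) hb) T hT

/-- `E(a, b)` with `a ∈ U` and `a, b` orthogonal to `W` -/
theorem Cl.ev_mixed (hA : ω.IsAlt) (hL : Cl ω k L) {a b : V} (h : ω a b = 0)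
    {U W T : Submodule F V} (hU : U ∈ L) (hW : W ∈ L) (hUW : U ≠ W) (ha : a ∈ U)
    (haW : a ∈ pp ω W) (hbW : b ∈ pp ω W) (hT : T ∈ L) : T.map (ev hA h : V →ₗ[F] V) ∈ L :=
  hL.cl _ (iso_ev hA h) U hU W hW hUW (ev_fix_left hA h (hL.ti U hU) ha)
    (ev_fix_pp hA h haW hbW) T hT

/-- an isometry that preserves `L` preserves the good vectors -/
theorem Good.map {g : V ≃ₗ[F] V} (hg : ∀ T ∈ L, T.map (g : V →ₗ[F] V) ∈ L) {v : V}
    (hv : Good L v) : Good L (g v) := by
  obtain ⟨U, hU, W, hW, hUW, hvU, hvW⟩ := hv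
  exact ⟨_, hg U hU, _, hg W hW, fun h => hUW (map_inj' g h), Submodule.mem_map_of_mem hvU,
    Submodule.mem_map_of_mem hvW⟩

/-- the dimension of the intersection with the complement of a vector -/
theorem finrank_inf_ker_ge (T : Submodule F V) (f : Dual F V) :
    finrank F T ≤ finrank F (T ⊓ LinearMap.ker f : Submodule F V) + 1 := by
  by_cases h : ∃ x ∈ T, f x ≠ 0
  · obtain ⟨x, hx, hfx⟩ := h
    rw [finrank_inf_ker hx hfx]
  · push Not at h
    have : T ⊓ LinearMap.ker f = T := inf_eq_left.mpr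
      (fun x hx => LinearMap.mem_ker.mpr (h x hx))
    rw [this]
    omega

/-- `T ∩ v^⊥` lies in the image of `T` under a transvection with centre `v` -/
theorem inf_le_sv (hA : ω.IsAlt) (c : F) (v : V) (T : Submodule F V) :
    T ⊓ LinearMap.ker (ω v) ≤ T.map (SI.sv hA c v : V →ₗ[F] V) := by
  intro x hx
  refine ⟨x, hx.1, ?_⟩
  show SI.sv hA c v x = x
  rw [sv_apply, LinearMap.mem_ker.mp hx.2, mul_zero, zero_smul, add_zero]

/-- a transvection moves `T` -/
theorem sv_ne (hA : ω.IsAlt) {c : F} (hc : c ≠ 0) {v x : V} {T : Submodule F V} (hvT : v ∉ T)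
    (hx : x ∈ T) (hvx : ω v x ≠ 0) : T.map (SI.sv hA c v : V →ₗ[F] V) ≠ T := by
  intro h
  have h1 : SI.sv hA c v x ∈ T.map (SI.sv hA c v : V →ₗ[F] V) := Submodule.mem_map_of_mem hx
  rw [h, sv_apply] at h1
  have h2 := T.sub_mem h1 hx
  rw [add_sub_cancel_left, T.smul_mem_iff (mul_ne_zero hc hvx)] at h2
  exact hvT h2

end Pool.Agent.Helper20.SI
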