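import Pool.Agent.Helper20.SI.Orbit2

/-!
# SI-05 SpB: invariant sets of lines (short)

`coll_map`, `cl_of_line`: as `FT2.coll_map`, `FT2.line_cl` (two points determine a line, so an isometry that fixes two points of
`l` maps `l` to `l`). `PerpAdj`: `dim (U ∩ W) = k - 1` and `U ≤ W^⊥`; `OppMod j`: `dim (U ∩ W) = k - j` and
`W ∩ U^⊥ = U ∩ W` (for `j = 1`: adjacent, not orthogonal). `coll_perpAdj`: `trans_perp`; `coll_oppMod`: `trans_opp`.
`oppMod_symm`: `finrank (U ⊓ pp W) = finrank (W ⊓ pp U)` (both are `n - finrank (U ⊔ pp W)..`: `pp (U ⊔ pp W) = pp U ⊓ W`,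
`finrank (U ⊔ pp W) + finrank (U ⊓ pp W) = finrank U + finrank (pp W)`), and `U ⊓ W ≤ U ⊓ pp W`.
`adj_cases`: adjacent totally isotropic spaces are `PerpAdj` or `OppMod 1` (if `W ⊓ pp U ≠ U ⊓ W` then, as
`U ⊓ W ≤ W ⊓ pp U ≤ W` and `finrank (U ⊓ W) + 1 = k`, `W ≤ pp U`).
-/

open Module Submodule Finset

set_option linter.unusedSectionVars false

namespace Pool.Agent.Helper20.SI

open Pool.Agent.Helper29.FT Pool.Agent.Helper29.FT2

variable {F V : Type*} [Field F] [AddCommGroup V] [Module F V] [FiniteDimensional F V]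
variable {ω : LinearMap.BilinForm F V}

variable {k : ℕ}

/-- adjacent and orthogonal -/
structure PerpAdj (ω : LinearMap.BilinForm F V) (k : ℕ) (U W : Submodule F V) : Prop where
  dU : finrank F U = k
  dW : finrank F W = k
  tU : TI ω U
  tW : TI ω W
  inf : finrank F (U ⊓ W : Submodule F V) + 1 = k
  perp : U ≤ pp ω W

/-- `dim (U ∩ W) = k - j` and `W ∩ U^⊥ = U ∩ W` -/
structure OppMod (ω : LinearMap.BilinForm F V) (k j : ℕ) (U W : Submodule F V) : Prop where
  dU : finrank F U = k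
  dW : finrank F W = k
  tU : TI ω U
  tW : TI ω W
  inf : finrank F (U ⊓ W : Submodule F V) + j = k
  opp : W ⊓ pp ω U = U ⊓ W

theorem PerpAdj.symm (hA : ω.IsAlt) {U W : Submodule F V} (h : PerpAdj ω k U W) :
    PerpAdj ω k W U := by
  refine ⟨h.dW, h.dU, h.tW, h.tU, ?_, (le_pp_iff hA).mp h.perp⟩
  rw [inf_comm]
  exact h.inf

theorem OppMod.symm (hA : ω.IsAlt) (hN : ω.Nondegenerate) {j : ℕ} {U W : Submodule F V}
    (h : OppMod ω k j U W) : OppMod ω k j W U := by
  refine ⟨h.dW, h.dU, h.tW, h.tU, ?_, ?_⟩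
  · rw [inf_comm]
    exact h.inf
  · have h1 : W ⊓ U ≤ U ⊓ pp ω W :=
      le_inf inf_le_right (inf_le_left.trans (ti_iff.mp h.tW))
    symm
    apply Submodule.eq_of_le_of_finrank_eq h1
    have h2 : pp ω (U ⊔ pp ω W) = U ⊓ W := by
      rw [pp_sup, pp_pp hA hN, inf_comm, h.opp]
    have h3 := finrank_pp hA hN (U ⊔ pp ω W)
    rw [h2] at h3
    have h4 := Submodule.finrank_sup_add_finrank_inf_eq U (pp ω W)
    have h5 := finrank_pp hA hN W
    have h6 := h.dU
    have h7 := h.dW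
    rw [inf_comm W U]
    omega

theorem adj_cases (hA : ω.IsAlt) {U W : Submodule F V} (hU : finrank F U = k)
    (hW : finrank F W = k)
    (tU : TI ω U) (tW : TI ω W) (h : finrank F (U ⊓ W : Submodule F V) + 1 = k) :
    PerpAdj ω k U W ∨ OppMod ω k 1 U W := by
  by_cases h1 : W ⊓ pp ω U = U ⊓ W
  · exact Or.inr ⟨hU, hW, tU, tW, h, h1⟩
  · left
    refine ⟨hU, hW, tU, tW, h, ?_⟩
    have h2 : U ⊓ W ≤ W ⊓ pp ω U := le_inf inf_le_right (inf_le_left.trans (ti_iff.mp tU))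
    have h3 : finrank F (U ⊓ W : Submodule F V) < finrank F (W ⊓ pp ω U : Submodule F V) :=
      Submodule.finrank_lt_finrank_of_lt (lt_of_le_of_ne h2 (fun h => h1 h.symm))
    have h4 : finrank F (W ⊓ pp ω U : Submodule F V) ≤ finrank F W :=
      Submodule.finrank_mono inf_le_left
    have h5 : W ⊓ pp ω U = W := Submodule.eq_of_le_of_finrank_eq inf_le_left (by omega)
    have h6 : W ≤ pp ω U := inf_eq_left.mp h5
    exact (le_pp_iff hA).mp h6

section

variable [Finite F] [DecidableEq (Submodule F V)] {B : Finset (Finset (Submodule F V))}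
  {α s t μ : ℕ}

theorem coll_map (hB : SpInvariant ω B) {g : V ≃ₗ[F] V} (hg : Iso ω g)
    {U W : Submodule F V} (h : Coll B U W) :
    Coll B (U.map (g : V →ₗ[F] V)) (W.map (g : V →ₗ[F] V)) := by
  obtain ⟨hUW, l, hl, hU, hW⟩ := h
  exact ⟨fun h => hUW (map_inj' g h), _, hB g hg l hl, mem_image_of_mem _ hU,
    mem_image_of_mem _ hW⟩

theorem cl_of_line (hB : SpInvariant ω B) (hS : IsSPG (IsoGr ω k) B α s t μ)
    {l : Finset (Submodule F V)} (hl : l ∈ B) : Cl ω k l := by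
  refine ⟨?_, ?_, ?_⟩
  · intro U hU
    exact (mem_IsoGr.mp (hS.lines_sub l hl hU)).1
  · intro U hU
    exact (mem_IsoGr.mp (hS.lines_sub l hl hU)).2
  · intro g hg U hU W hW hUW hgU hgW T hT
    have h1 := hB g hg l hl
    have h2 : U ∈ l.image (fun U => U.map (g : V →ₗ[F] V)) := by
      rw [mem_image]
      exact ⟨U, hU, hgU⟩
    have h3 : W ∈ l.image (fun U => U.map (g : V →ₗ[F] V)) := by
      rw [mem_image]
      exact ⟨W, hW, hgW⟩
    have h4 := hS.two_points _ h1 l hl U W hUW h2 h3 hU hW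
    rw [← h4]
    exact mem_image_of_mem _ hT

theorem coll_perpAdj (hA : ω.IsAlt) (hN : ω.Nondegenerate) (hB : SpInvariant ω B)
    {U W U' W' : Submodule F V} (h : Coll B U W) (h1 : PerpAdj ω k U W)
    (h2 : PerpAdj ω k U' W') : Coll B U' W' := by
  obtain ⟨g, hg, h3, h4⟩ := trans_perp hA hN h1.tU h1.tW h2.tU h2.tW h1.perp h2.perp
    (by rw [h1.dU, h2.dU]) (by rw [h1.dW, h2.dW]) (by
      have h3 := h1.inf
      have h4 := h2.inf
      omega)
  rw [← h3, ← h4]
  exact coll_map hB hg h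

theorem coll_oppMod (hA : ω.IsAlt) (hN : ω.Nondegenerate) (hB : SpInvariant ω B) {j : ℕ}
    {U W U' W' : Submodule F V} (h : Coll B U W) (h1 : OppMod ω k j U W)
    (h2 : OppMod ω k j U' W') : Coll B U' W' := by
  obtain ⟨g, hg, h3, h4⟩ := trans_opp hA hN h1.tU h1.tW h2.tU h2.tW
    (by rw [h1.dU, h1.dW]) (by rw [h2.dU, h2.dW]) (by rw [h1.dU, h2.dU]) (by
      have h3 := h1.inf
      have h4 := h2.inf
      omega) h1.opp h2.opp
  rw [← h3, ← h4]
  exact coll_map hB hg h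

end

end Pool.Agent.Helper20.SI
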