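import Pool.Agent.Helper20.SI.Sp

/-!
# SI-06 Theta: symmetric maps between two totally isotropic subspaces of the same dimension

Put `E = U ⊓ W`, `J = U ⊓ W^⊥ ≥ E`, `J' = W ⊓ U^⊥ ≥ E`; `finrank J = finrank J'` (see SI-05). Choose complements:
`J = E ⊕ A`, `J' = E ⊕ A'`, `U = J ⊕ C`, `W = J' ⊕ C'`; `finrank A = finrank A'`, `finrank C = finrank C'`. The pairing
`C × C' → F` is perfect: if `c ∈ C`, `ω c c' = 0` for all `c' ∈ C'`, then `ω c` vanishes on `J'` too, so `c ∈ W^⊥`,
`c ∈ J ⊓ C = 0`. Let `b_i` be a basis of `C` and `b'_i` the dual basis of `C'`: `ω b_i b'_j = δ_ij`. Let `σ : A ≃ A'` be any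
linear bijection, `τ : C ≃ C'`, `b_i ↦ b'_i`. Put `θ = 0 ⊕ σ ⊕ τ : U = E ⊕ A ⊕ C → W`, `θ' = 0 ⊕ σ⁻¹ ⊕ τ⁻¹ : W → U`.
Symmetry: `ω u (θ u')` with `u = e + a + c`, `u' = e' + a' + c'` is `ω c (τ c')` (`e, a ∈ W^⊥`, `σ a' ∈ U^⊥`), and
`ω b_i (τ b_j) = δ_ij` is symmetric. For `θ'`: `ω w (θ' w') = ω (τ c₁) c₂ = - ω c₂ (τ c₁)`, symmetric too.
Last item: `u = e + a + c`, `w = e + σ a + τ c`: `u + θ u = w + θ' w`.
-/

open Module Submodule Finset

set_option linter.unusedSectionVars false

namespace Pool.Agent.Helper20.SI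

open Pool.Agent.Helper29.FT Pool.Agent.Helper29.FT2

variable {F V : Type*} [Field F] [AddCommGroup V] [Module F V] [FiniteDimensional F V]
variable {ω : LinearMap.BilinForm F V}

/-- a linear bijection `J ≃ J'` fixing `J ∩ J'`, and a projection of `J` with kernel `J ∩ J'` -/
private theorem Theta_exists_g {J J' : Submodule F V} (h : finrank F J = finrank F J') :
    ∃ (g : J ≃ₗ[F] J') (q : J →ₗ[F] J), (∀ x : J, (x : V) ∈ J' → ((g x : J') : V) = x) ∧
      (∀ x : J, (x : V) ∈ J' → q x = 0) ∧ ∀ x : J, (((x - q x : J) : J) : V) ∈ J' := by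
  obtain ⟨A, hA⟩ := Submodule.exists_isCompl (J'.comap J.subtype)
  obtain ⟨A', hA'⟩ := Submodule.exists_isCompl (J.comap J'.subtype)
  let e12 : (J'.comap J.subtype) ≃ₗ[F] (J.comap J'.subtype) :=
    { toFun := fun x => ⟨⟨((x : J) : V), x.2⟩, (x : J).2⟩
      map_add' := fun _ _ => rfl
      map_smul' := fun _ _ => rfl
      invFun := fun y => ⟨⟨((y : J') : V), y.2⟩, (y : J').2⟩
      left_inv := fun _ => rfl
      right_inv := fun _ => rfl }
  have h1 := Submodule.finrank_add_eq_of_isCompl hA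
  have h2 := Submodule.finrank_add_eq_of_isCompl hA'
  have h3 := e12.finrank_eq
  have hAA : finrank F A = finrank F A' := by omega
  let eA : A ≃ₗ[F] A' := LinearEquiv.ofFinrankEq _ _ hAA
  refine ⟨(Submodule.prodEquivOfIsCompl _ A hA).symm.trans
      ((LinearEquiv.prodCongr e12 eA).trans (Submodule.prodEquivOfIsCompl _ A' hA')),
    A.subtype ∘ₗ (LinearMap.snd F _ A) ∘ₗ
      (Submodule.prodEquivOfIsCompl _ A hA).symm.toLinearMap, ?_, ?_, ?_⟩
  · intro x hx
    have h4 := Submodule.prodEquivOfIsCompl_symm_apply_left _ A hA ⟨x, hx⟩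
    rw [LinearEquiv.trans_apply, LinearEquiv.trans_apply]
    change (Submodule.prodEquivOfIsCompl _ A hA).symm x = _ at h4
    rw [h4]
    have h5 : (LinearEquiv.prodCongr e12 eA) ((⟨x, hx⟩ : (J'.comap J.subtype)), (0 : A)) =
        (e12 ⟨x, hx⟩, (0 : A')) := by
      rw [LinearEquiv.prodCongr_apply, map_zero]
    rw [h5, Submodule.coe_prodEquivOfIsCompl']
    simp only [ZeroMemClass.coe_zero, add_zero]
    rfl
  · intro x hx
    have h4 := Submodule.prodEquivOfIsCompl_symm_apply_left _ A hA ⟨x, hx⟩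
    change (Submodule.prodEquivOfIsCompl _ A hA).symm x = _ at h4
    change ((((Submodule.prodEquivOfIsCompl _ A hA).symm x).2 : A) : J) = 0
    rw [h4]
    rfl
  · intro x
    have h5 : x - ((((Submodule.prodEquivOfIsCompl _ A hA).symm x).2 : A) : J) =
        ((((Submodule.prodEquivOfIsCompl _ A hA).symm x).1 : (J'.comap J.subtype)) : J) := by
      rw [sub_eq_iff_eq_add]
      have h6 := Submodule.coe_prodEquivOfIsCompl' _ A hA
        ((Submodule.prodEquivOfIsCompl _ A hA).symm x)
      rw [LinearEquiv.apply_symm_apply] at h6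
      exact h6
    have h7 := ((Submodule.prodEquivOfIsCompl _ A hA).symm x).1.2
    change ((x - ((((Submodule.prodEquivOfIsCompl _ A hA).symm x).2 : A) : J) : J) : V) ∈ J'
    rw [h5]
    exact h7

/-- linearly independent functionals are jointly onto -/
private theorem Theta_surj {W : Type*} [AddCommGroup W] [Module F W] {m : ℕ}
    (f : Fin m → Module.Dual F W) (hf : LinearIndependent F f) (x : Fin m → F) :
    ∃ w : W, ∀ i, f i w = x i := by
  have hs : LinearMap.range (LinearMap.pi f) = ⊤ := by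
    by_contra hne
    obtain ⟨φ, hφ, hle⟩ := Submodule.exists_le_ker_of_lt_top _ (lt_top_iff_ne_top.mpr hne)
    apply hφ
    have h1 : ∑ i, (φ (Pi.single i 1)) • f i = 0 := by
      ext w
      have h2 : φ (LinearMap.pi f w) = 0 := hle ⟨w, rfl⟩
      have h3 : LinearMap.pi f w = ∑ i, (f i w) • (Pi.single i (1 : F) : Fin m → F) := by
        funext j
        rw [Finset.sum_apply]
        simp [Pi.single_apply]
      rw [h3, map_sum] at h2
      rw [LinearMap.sum_apply, LinearMap.zero_apply, ← h2]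
      refine Finset.sum_congr rfl fun i _ => ?_
      rw [map_smul, LinearMap.smul_apply, smul_eq_mul, smul_eq_mul, mul_comm]
    have h4 := Fintype.linearIndependent_iff.mp hf _ h1
    refine LinearMap.pi_ext' fun i => ?_
    ext
    simpa using h4 i
  obtain ⟨w, hw⟩ := LinearMap.range_eq_top.mp hs x
  exact ⟨w, fun i => congrFun hw i⟩

/-- a basis of a subspace -/
private theorem Theta_basis {D : Type*} [AddCommGroup D] [Module F D] (R : Submodule F D)
    [FiniteDimensional F R] :
    ∃ f : Fin (finrank F R) → D, LinearIndependent F f ∧ (∀ i, f i ∈ R) ∧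
      ∀ x ∈ R, ∃ a : Fin (finrank F R) → F, x = ∑ i, a i • f i := by
  have b := Module.finBasis F R
  refine ⟨fun i => ((b i : R) : D), ?_, fun i => (b i).2, fun x hx => ?_⟩
  · rw [Fintype.linearIndependent_iff]
    intro a ha
    have h1 : ∑ i, a i • b i = 0 := by
      apply Subtype.ext
      rw [AddSubmonoidClass.coe_finsetSum, ZeroMemClass.coe_zero, ← ha]
      rfl
    exact Fintype.linearIndependent_iff.mp b.linearIndependent a h1
  · refine ⟨b.repr ⟨x, hx⟩, ?_⟩
    have h1 : (⟨x, hx⟩ : R) = ∑ i, b.repr ⟨x, hx⟩ i • b i := (b.sum_repr _).symm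
    have h2 := congrArg (fun y : R => (y : D)) h1
    simp only [AddSubmonoidClass.coe_finsetSum, SetLike.val_smul] at h2
    exact h2

/-- dual systems for a pairing -/
private theorem Theta_dual {U W : Type*} [AddCommGroup U] [Module F U] [AddCommGroup W]
    [Module F W] [FiniteDimensional F U] [FiniteDimensional F W] (T : U →ₗ[F] Module.Dual F W) :
    ∃ (m : ℕ) (c : Fin m → U) (c' : Fin m → W),
      (∀ i j, T (c i) (c' j) = if i = j then 1 else 0) ∧
      (∀ u w, (∀ i, T (c i) w = 0) → T u w = 0) ∧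
      m + finrank F (LinearMap.ker T) = finrank F U ∧
      m + finrank F (LinearMap.ker T.flip) = finrank F W := by
  obtain ⟨f, hf, hfm, hfs⟩ := Theta_basis (LinearMap.range T)
  choose c hc using hfm
  have hfli : LinearIndependent F (fun i => T (c i)) := by
    have h1 : (fun i => T (c i)) = f := funext hc
    rw [h1]
    exact hf
  have hc' := fun j => Theta_surj (fun i => T (c i)) hfli (fun i => if i = j then 1 else 0)
  choose c' hc' using hc'
  have hcomb : ∀ u w, (∀ i, T (c i) w = 0) → T u w = 0 := by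
    intro u w hw
    obtain ⟨a, ha⟩ := hfs (T u) ⟨u, rfl⟩
    rw [ha, LinearMap.sum_apply]
    refine Finset.sum_eq_zero fun i _ => ?_
    rw [LinearMap.smul_apply, ← hc i, hw i, smul_zero]
  refine ⟨_, c, c', fun i j => hc' j i, hcomb, ?_, ?_⟩
  · exact LinearMap.finrank_range_add_finrank_ker T
  · have h4 := LinearMap.finrank_range_add_finrank_ker (LinearMap.pi (fun i => T (c i)))
    have h5 : LinearMap.range (LinearMap.pi (fun i => T (c i))) = ⊤ := by
      rw [LinearMap.range_eq_top]
      intro x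
      obtain ⟨w, hw⟩ := Theta_surj (fun i => T (c i)) hfli x
      exact ⟨w, funext hw⟩
    have h6 : LinearMap.ker (LinearMap.pi (fun i => T (c i))) = LinearMap.ker T.flip := by
      ext w
      rw [LinearMap.mem_ker, LinearMap.mem_ker]
      constructor
      · intro h
        ext u
        exact hcomb u w (fun i => congrFun h i)
      · intro h
        funext i
        exact congrArg (fun z : Module.Dual F U => z (c i)) h
    rw [h5, h6, finrank_top, Module.finrank_fin_fun] at h4
    exact h4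

theorem exists_theta (hA : ω.IsAlt) (hN : ω.Nondegenerate) {U W : Submodule F V}
    (hU : TI ω U) (hW : TI ω W) (hd : finrank F U = finrank F W) :
    ∃ (θ : U →ₗ[F] W) (θ' : W →ₗ[F] U),
      (∀ u : U, (u : V) ∈ W → θ u = 0) ∧ (∀ w : W, (w : V) ∈ U → θ' w = 0) ∧
      (∀ u u' : U, ω (u : V) (θ u' : V) = ω (u' : V) (θ u : V)) ∧
      (∀ w w' : W, ω (w : V) (θ' w' : V) = ω (w' : V) (θ' w : V)) ∧
      ∀ u : U, ∃ w : W, (u : V) + (θ u : V) = (w : V) + (θ' w : V) := by
  let T : U →ₗ[F] Module.Dual F W := (Module.Dual.transpose W.subtype) ∘ₗ ω ∘ₗ U.subtype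
  have hT : ∀ (u : U) (w : W), T u w = ω (u : V) (w : V) := fun u w => rfl
  obtain ⟨m, c, c', hdual', hcomb', hd1, hd2⟩ := Theta_dual T
  have hdual : ∀ i j, ω (c i : V) (c' j : V) = if i = j then 1 else 0 := hdual'
  have hcomb : ∀ (u : U) (w : W), (∀ i, ω (c i : V) (w : V) = 0) → ω (u : V) (w : V) = 0 :=
    hcomb'
  -- the two projections
  have hPmem : ∀ u : U, (u : V) - ∑ i, ω (u : V) (c' i : V) • (c i : V) ∈ U ⊓ pp ω W := by
    intro u
    have hUm : (u : V) - ∑ i, ω (u : V) (c' i : V) • (c i : V) ∈ U :=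
      U.sub_mem u.2 (U.sum_mem fun i _ => U.smul_mem _ (c i).2)
    refine ⟨hUm, (mem_pp' hA).mpr ?_⟩
    intro w hw
    have h1 : ∀ j, ω ((u : V) - ∑ i, ω (u : V) (c' i : V) • (c i : V)) (c' j : V) = 0 := by
      intro j
      rw [map_sub, LinearMap.sub_apply, map_sum, LinearMap.sum_apply]
      simp only [map_smul, LinearMap.smul_apply, smul_eq_mul, hdual]
      simp
    have h2 : ω ((u : V) - ∑ i, ω (u : V) (c' i : V) • (c i : V))
        (w - ∑ i, ω (c i : V) w • (c' i : V)) = 0 := by
      have hWm : w - ∑ i, ω (c i : V) w • (c' i : V) ∈ W :=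
        W.sub_mem hw (W.sum_mem fun i _ => W.smul_mem _ (c' i).2)
      refine hcomb ⟨_, hUm⟩ ⟨_, hWm⟩ (fun j => ?_)
      show ω (c j : V) (w - ∑ i, ω (c i : V) w • (c' i : V)) = 0
      rw [map_sub, map_sum]
      simp only [map_smul, smul_eq_mul, hdual]
      simp
    rw [map_sub, map_sum] at h2
    simp only [map_smul, smul_eq_mul, h1, mul_zero, Finset.sum_const_zero, sub_zero] at h2
    exact h2
  have hPmem' : ∀ w : W, (w : V) - ∑ i, ω (c i : V) (w : V) • (c' i : V) ∈ W ⊓ pp ω U := by
    intro w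
    have hWm : (w : V) - ∑ i, ω (c i : V) (w : V) • (c' i : V) ∈ W :=
      W.sub_mem w.2 (W.sum_mem fun i _ => W.smul_mem _ (c' i).2)
    refine ⟨hWm, ?_⟩
    intro u hu
    refine hcomb ⟨u, hu⟩ ⟨_, hWm⟩ (fun j => ?_)
    show ω (c j : V) ((w : V) - ∑ i, ω (c i : V) (w : V) • (c' i : V)) = 0
    rw [map_sub, map_sum]
    simp only [map_smul, smul_eq_mul, hdual]
    simp
  -- dimensions
  have hdim : finrank F (U ⊓ pp ω W : Submodule F V) = finrank F (W ⊓ pp ω U : Submodule F V) := by
    have h1 : finrank F (LinearMap.ker T) = finrank F (U ⊓ pp ω W : Submodule F V) := by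
      have e : (LinearMap.ker T) ≃ₗ[F] (U ⊓ pp ω W : Submodule F V) :=
        { toFun := fun x => ⟨((x : U) : V), ⟨(x : U).2, (mem_pp' hA).mpr fun w hw =>
            congrArg (fun z : Module.Dual F W => z ⟨w, hw⟩) (LinearMap.mem_ker.mp x.2)⟩⟩
          map_add' := fun _ _ => rfl
          map_smul' := fun _ _ => rfl
          invFun := fun y => ⟨⟨(y : V), y.2.1⟩, by
            rw [LinearMap.mem_ker]
            ext w
            exact (mem_pp' hA).mp y.2.2 w w.2⟩
          left_inv := fun _ => rfl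
          right_inv := fun _ => rfl }
      exact e.finrank_eq
    have h2 : finrank F (LinearMap.ker T.flip) =
        finrank F (W ⊓ pp ω U : Submodule F V) := by
      have e : (LinearMap.ker T.flip) ≃ₗ[F] (W ⊓ pp ω U : Submodule F V) :=
        { toFun := fun x => ⟨((x : W) : V), ⟨(x : W).2, fun u hu =>
            congrArg (fun z : Module.Dual F U => z ⟨u, hu⟩) (LinearMap.mem_ker.mp x.2)⟩⟩
          map_add' := fun _ _ => rfl
          map_smul' := fun _ _ => rfl
          invFun := fun y => ⟨⟨(y : V), y.2.1⟩, by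
            rw [LinearMap.mem_ker]
            ext u
            exact y.2.2 u u.2⟩
          left_inv := fun _ => rfl
          right_inv := fun _ => rfl }
      exact e.finrank_eq
    omega
  obtain ⟨g, q, hg, hq, hgq⟩ := Theta_exists_g hdim
  have hEW : ∀ x : V, x ∈ U → x ∈ W → x ∈ (W ⊓ pp ω U : Submodule F V) := fun x hxU hxW =>
    ⟨hxW, ti_iff.mp hU hxU⟩
  -- linear versions
  let SP : U →ₗ[F] (U ⊓ pp ω W : Submodule F V) :=
    LinearMap.codRestrict _
      (U.subtype - ∑ i, ((ω.flip (c' i : V)).comp U.subtype).smulRight (c i : V))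
      (fun u => by
        have h := hPmem u
        simp only [LinearMap.sub_apply, Submodule.subtype_apply, LinearMap.sum_apply,
          LinearMap.smulRight_apply, LinearMap.comp_apply, LinearMap.flip_apply]
        exact h)
  have hSP : ∀ u : U, ((SP u : (U ⊓ pp ω W : Submodule F V)) : V) =
      (u : V) - ∑ i, ω (u : V) (c' i : V) • (c i : V) := by
    intro u
    simp only [SP, LinearMap.codRestrict_apply, LinearMap.sub_apply, Submodule.subtype_apply,
      LinearMap.sum_apply, LinearMap.smulRight_apply, LinearMap.comp_apply, LinearMap.flip_apply]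
    rfl
  let SP' : W →ₗ[F] (W ⊓ pp ω U : Submodule F V) :=
    LinearMap.codRestrict _
      (W.subtype - ∑ i, ((ω (c i : V)).comp W.subtype).smulRight (c' i : V))
      (fun w => by
        have h := hPmem' w
        simp only [LinearMap.sub_apply, Submodule.subtype_apply, LinearMap.sum_apply,
          LinearMap.smulRight_apply, LinearMap.comp_apply]
        exact h)
  have hSP' : ∀ w : W, ((SP' w : (W ⊓ pp ω U : Submodule F V)) : V) =
      (w : V) - ∑ i, ω (c i : V) (w : V) • (c' i : V) := by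
    intro w
    simp only [SP', LinearMap.codRestrict_apply, LinearMap.sub_apply, Submodule.subtype_apply,
      LinearMap.sum_apply, LinearMap.smulRight_apply, LinearMap.comp_apply]
  let θ : U →ₗ[F] W :=
    (Submodule.inclusion (inf_le_left : W ⊓ pp ω U ≤ W)) ∘ₗ (g : _ →ₗ[F] _) ∘ₗ q ∘ₗ SP +
      ∑ i, ((ω.flip (c' i : V)).comp U.subtype).smulRight (c' i)
  have hθ : ∀ u : U, (θ u : V) = ((g (q (SP u)) : (W ⊓ pp ω U : Submodule F V)) : V) +
      ∑ i, ω (u : V) (c' i : V) • (c' i : V) := by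
    intro u
    simp only [θ, LinearMap.add_apply, LinearMap.comp_apply, LinearMap.sum_apply,
      LinearMap.smulRight_apply, LinearMap.flip_apply, Submodule.subtype_apply,
      Submodule.coe_add, AddSubmonoidClass.coe_finsetSum, SetLike.val_smul,
      Submodule.coe_inclusion, LinearEquiv.coe_coe]
    rfl
  let θ' : W →ₗ[F] U :=
    (Submodule.inclusion (inf_le_left : U ⊓ pp ω W ≤ U)) ∘ₗ q ∘ₗ (g.symm : _ →ₗ[F] _) ∘ₗ SP' +
      ∑ i, ((ω (c i : V)).comp W.subtype).smulRight (c i)
  have hθ' : ∀ w : W, (θ' w : V) = ((q (g.symm (SP' w)) : (U ⊓ pp ω W : Submodule F V)) : V) +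
      ∑ i, ω (c i : V) (w : V) • (c i : V) := by
    intro w
    simp only [θ', LinearMap.add_apply, LinearMap.comp_apply, LinearMap.sum_apply,
      LinearMap.smulRight_apply, Submodule.subtype_apply,
      Submodule.coe_add, AddSubmonoidClass.coe_finsetSum, SetLike.val_smul,
      Submodule.coe_inclusion, LinearEquiv.coe_coe]
  refine ⟨θ, θ', ?_, ?_, ?_, ?_, ?_⟩
  · intro u hu
    apply Subtype.ext
    have h0 : ∀ i, ω (u : V) (c' i : V) = 0 := fun i => hW _ hu _ (c' i).2
    have h1 : ((SP u : (U ⊓ pp ω W : Submodule F V)) : V) = u := by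
      rw [hSP]
      simp [h0]
    rw [hθ, hq (SP u) (by rw [h1]; exact hEW _ u.2 hu), map_zero]
    simp [h0]
  · intro w hw
    apply Subtype.ext
    have h0 : ∀ i, ω (c i : V) (w : V) = 0 := fun i => hU _ (c i).2 _ hw
    have h1 : ((SP' w : (W ⊓ pp ω U : Submodule F V)) : V) = w := by
      rw [hSP']
      simp [h0]
    have h2 : g.symm (SP' w) = ⟨(w : V), hw, ti_iff.mp hW w.2⟩ := by
      rw [LinearEquiv.symm_apply_eq]
      apply Subtype.ext
      rw [h1, hg _ (hEW _ hw w.2)]
    rw [hθ', h2, hq _ (hEW _ hw w.2)]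
    simp [h0]
  · have key : ∀ u u' : U, ω (u : V) (θ u' : V) =
        ∑ i, ω (u' : V) (c' i : V) * ω (u : V) (c' i : V) := by
      intro u u'
      rw [hθ, map_add, (g (q (SP u'))).2.2 u u.2, zero_add, map_sum]
      simp only [map_smul, smul_eq_mul]
    intro u u'
    rw [key, key]
    exact Finset.sum_congr rfl fun i _ => mul_comm _ _
  · have key : ∀ w w' : W, ω (w : V) (θ' w' : V) =
        - ∑ i, ω (c i : V) (w' : V) * ω (c i : V) (w : V) := by
      intro w w'
      rw [hθ', map_add, (q (g.symm (SP' w'))).2.2 w w.2, zero_add, map_sum,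
        ← Finset.sum_neg_distrib]
      refine Finset.sum_congr rfl fun i _ => ?_
      rw [map_smul, smul_eq_mul, swap hA (w : V) (c i : V)]
      ring
    intro w w'
    rw [key, key]
    congr 1
    exact Finset.sum_congr rfl fun i _ => mul_comm _ _
  · intro u
    have hw0 : ((g (SP u) : (W ⊓ pp ω U : Submodule F V)) : V) +
        ∑ i, ω (u : V) (c' i : V) • (c' i : V) ∈ W :=
      W.add_mem (g (SP u)).2.1 (W.sum_mem fun i _ => W.smul_mem _ (c' i).2)
    have h1 : ∀ j, ω (c j : V) (((g (SP u) : (W ⊓ pp ω U : Submodule F V)) : V) +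
        ∑ i, ω (u : V) (c' i : V) • (c' i : V)) = ω (u : V) (c' j : V) := by
      intro j
      rw [map_add, (g (SP u)).2.2 (c j) (c j).2, zero_add, map_sum]
      simp only [map_smul, smul_eq_mul, hdual]
      simp
    refine ⟨⟨_, hw0⟩, ?_⟩
    have h2 : SP' ⟨_, hw0⟩ = g (SP u) := by
      apply Subtype.ext
      rw [hSP']
      show ((g (SP u) : (W ⊓ pp ω U : Submodule F V)) : V) +
        ∑ i, ω (u : V) (c' i : V) • (c' i : V) - ∑ i, ω (c i : V)
          (((g (SP u) : (W ⊓ pp ω U : Submodule F V)) : V) +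
        ∑ i, ω (u : V) (c' i : V) • (c' i : V)) • (c' i : V) = _
      simp only [h1]
      rw [add_sub_cancel_right]
    rw [hθ, hθ', h2, LinearEquiv.symm_apply_apply]
    show (u : V) + (((g (q (SP u)) : (W ⊓ pp ω U : Submodule F V)) : V) +
      ∑ i, ω (u : V) (c' i : V) • (c' i : V)) =
      (((g (SP u) : (W ⊓ pp ω U : Submodule F V)) : V) +
        ∑ i, ω (u : V) (c' i : V) • (c' i : V)) +
      (((q (SP u) : (U ⊓ pp ω W : Submodule F V)) : V) +
        ∑ i, ω (c i : V) (((g (SP u) : (W ⊓ pp ω U : Submodule F V)) : V) +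
        ∑ i, ω (u : V) (c' i : V) • (c' i : V)) • (c i : V))
    simp only [h1]
    have h3 := hg (SP u - q (SP u)) (hgq (SP u))
    rw [map_sub] at h3
    have h4 : ((g (SP u) : (W ⊓ pp ω U : Submodule F V)) : V) -
        ((g (q (SP u)) : (W ⊓ pp ω U : Submodule F V)) : V) =
        ((SP u : (U ⊓ pp ω W : Submodule F V)) : V) -
        ((q (SP u) : (U ⊓ pp ω W : Submodule F V)) : V) := h3
    rw [hSP] at h4
    have h5 : (u : V) = ((g (SP u) : (W ⊓ pp ω U : Submodule F V)) : V) -
        ((g (q (SP u)) : (W ⊓ pp ω U : Submodule F V)) : V) +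
        ((q (SP u) : (U ⊓ pp ω W : Submodule F V)) : V) +
        ∑ i, ω (u : V) (c' i : V) • (c i : V) := by
      rw [h4]
      abel
    generalize (∑ i, ω (u : V) (c' i : V) • (c' i : V)) = S'
    generalize (∑ i, ω (u : V) (c' i : V) • (c i : V)) = S at h5 ⊢
    rw [h5]
    abel

end Pool.Agent.Helper20.SI
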