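import Pool.Agent.Helper20.SI.Theta
import Pool.Agent.Helper20.SI.SpB
import Pool.Agent.Helper29.FT.Excl

/-!
# SI-07 Tri: lines have at least three points

`exists_shear`: let `θ : U → W` vanish on `U ⊓ W` with `ω u (θ u')` symmetric, `U`, `W` totally isotropic. There is an isometry
`g` with `g u = u + θ u` (`u ∈ U`), `g w = w` (`w ∈ W`): choose `C` with `U = (U ⊓ W) ⊕ C`; `C ⊓ W = 0`, so there is `D ≥ W`
with `V = C ⊕ D`; `Θ = θ ∘ (projection to C along D)`: `Θ = θ` on `U`, `Θ = 0` on `W`. `f = 1 + Θ` on `X = U ⊔ W` is injective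
(`u + w + θ u = 0` gives `u ∈ W`, so `θ u = 0`, so `u + w = 0`) and isometric:
`ω (u + θ u) (u' + θ u') = ω u (θ u') + ω (θ u) u' = ω u (θ u') - ω u' (θ u) = 0`, `ω (u + θ u) w = ω u w`. Use `witt`.
`exists_tri`: `exists_theta`; `T = (U).map g` for `g` of `exists_shear θ`: `U ↦ T`, `W ↦ W`. `h` of `exists_shear θ'` (roles of `U`, `W`
exchanged): `h` fixes `U`, and maps `W` to `{w + θ' w} ⊇ {u + θ u} = T`, equality by dimension.
`two_le_s`: if `s = 1` take collinear `U, W` (`NonLinear` gives a point, `exists_line`, a second point on it), `T` of `exists_tri`;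
`Coll B T W`, `Coll B U T` by `coll_map`; `no_triangle` (Helper29.FT.Excl; needs `s = 1`).
-/

open Module Submodule Finset

set_option linter.unusedSectionVars false

namespace Pool.Agent.Helper20.SI

open Pool.Agent.Helper29.FT Pool.Agent.Helper29.FT2

variable {F V : Type*} [Field F] [AddCommGroup V] [Module F V] [FiniteDimensional F V]
variable {ω : LinearMap.BilinForm F V}

theorem exists_shear (hA : ω.IsAlt) (hN : ω.Nondegenerate) {U W : Submodule F V}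
    (hU : TI ω U) (hW : TI ω W) (θ : U →ₗ[F] W) (h0 : ∀ u : U, (u : V) ∈ W → θ u = 0)
    (hs : ∀ u u' : U, ω (u : V) (θ u' : V) = ω (u' : V) (θ u : V)) :
    ∃ g : V ≃ₗ[F] V, Iso ω g ∧ (∀ u : U, g (u : V) = u + θ u) ∧ ∀ w ∈ W, g w = w := by
  obtain ⟨C, D, hC, hCD, hD, -⟩ := exists_decomp W U
  have hCU : C ≤ U := by
    rw [← hC]
    exact le_sup_right
  obtain ⟨Θ₀, hΘ₀⟩ := LinearMap.exists_extend (W.subtype ∘ₗ θ)
  have hΘ₀' : ∀ u : U, Θ₀ (u : V) = (θ u : V) := by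
    intro u
    have := LinearMap.congr_fun hΘ₀ u
    simpa using this
  -- the projection to `D` along `W`
  obtain ⟨Pr, hPr1, hPr2⟩ : ∃ Pr : V →ₗ[F] V, (∀ w ∈ W, Pr w = 0) ∧ ∀ d ∈ D, Pr d = d := by
    refine ⟨D.subtype ∘ₗ D.projectionOnto W hD.symm, ?_, ?_⟩
    · intro w hw
      simp [Submodule.projectionOnto_apply_of_mem_right, hw]
    · intro d hd
      simp [Submodule.projectionOnto_apply_of_mem_left, hd]
  have hΘW : ∀ w ∈ W, (Θ₀ ∘ₗ Pr) w = 0 := by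
    intro w hw
    rw [LinearMap.comp_apply, hPr1 w hw, map_zero]
  have hΘU : ∀ u : U, (Θ₀ ∘ₗ Pr) (u : V) = (θ u : V) := by
    intro u
    have hu : (u : V) ∈ W ⊓ U ⊔ C := by
      rw [hC]
      exact u.2
    obtain ⟨i, hi, c, hc, hic⟩ := mem_sup.mp hu
    have h1 : u = (⟨i, hi.2⟩ : U) + ⟨c, hCU hc⟩ := Subtype.ext hic.symm
    have h2 : θ ⟨i, hi.2⟩ = 0 := h0 ⟨i, hi.2⟩ hi.1
    rw [LinearMap.comp_apply, ← hic, map_add, hPr1 i hi.1, hPr2 c (hCD hc), zero_add,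
      h1, map_add, h2, zero_add]
    exact hΘ₀' ⟨c, hCU hc⟩
  let f : (U ⊔ W : Submodule F V) →ₗ[F] V :=
    (LinearMap.id + Θ₀ ∘ₗ Pr) ∘ₗ (U ⊔ W).subtype
  have hf : ∀ (u : U) (w : W), ∀ hx : (u : V) + (w : V) ∈ U ⊔ W,
      f ⟨(u : V) + (w : V), hx⟩ = u + θ u + w := by
    intro u w hx
    show ((u : V) + (w : V)) + (Θ₀ ∘ₗ Pr) ((u : V) + (w : V)) = _
    rw [map_add, hΘU, hΘW w w.2, add_zero]
    abel
  have hsplit : ∀ x : (U ⊔ W : Submodule F V), ∃ (u : U) (w : W), (x : V) = u + w := by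
    intro x
    obtain ⟨u, hu, w, hw, huw⟩ := mem_sup.mp x.2
    exact ⟨⟨u, hu⟩, ⟨w, hw⟩, huw.symm⟩
  have hfx : ∀ (x : (U ⊔ W : Submodule F V)) (u : U) (w : W), (x : V) = u + w →
      f x = u + θ u + w := by
    rintro ⟨x, hx⟩ u w h
    have h' : x = (u : V) + (w : V) := h
    subst h'
    exact hf u w hx
  obtain ⟨g, hg, hgf⟩ := witt hA hN (U ⊔ W) f (by
    rw [← LinearMap.ker_eq_bot, LinearMap.ker_eq_bot']
    intro x hx
    obtain ⟨u, w, huw⟩ := hsplit x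
    rw [hfx x u w huw] at hx
    have h1 : (u : V) ∈ W := by
      have h2 : (u : V) = - ((θ u : V) + (w : V)) := by
        rw [eq_neg_iff_add_eq_zero, ← hx]
        abel
      rw [h2]
      exact W.neg_mem (W.add_mem (θ u).2 w.2)
    rw [h0 u h1] at hx
    apply Subtype.ext
    rw [huw]
    simpa using hx) (by
    intro x y
    obtain ⟨u, w, hx⟩ := hsplit x
    obtain ⟨u', w', hy⟩ := hsplit y
    rw [hfx x u w hx, hfx y u' w' hy, hx, hy]
    have e1 := hU u u.2 u' u'.2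
    have e2 := hW w w.2 w' w'.2
    have e3 := hW _ (θ u).2 _ (θ u').2
    have e4 := hW _ (θ u).2 w' w'.2
    have e5 := hW w w.2 _ (θ u').2
    have e6 : ω (θ u : V) (u' : V) = - ω (u : V) (θ u' : V) := by
      rw [hs u u']
      exact swap hA _ _
    simp only [map_add, LinearMap.add_apply, e1, e2, e3, e4, e5, e6]
    ring)
  refine ⟨g, hg, ?_, ?_⟩
  · intro u
    have hx : (u : V) ∈ U ⊔ W := le_sup_left (a := U) u.2
    rw [hgf ⟨u, hx⟩, hfx ⟨u, hx⟩ u 0 (by simp)]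
    simp
  · intro w hw
    have hx : w ∈ U ⊔ W := le_sup_right (a := U) hw
    rw [hgf ⟨w, hx⟩, hfx ⟨w, hx⟩ 0 ⟨w, hw⟩ (by simp)]
    simp

theorem exists_tri (hA : ω.IsAlt) (hN : ω.Nondegenerate) {U W : Submodule F V}
    (hU : TI ω U) (hW : TI ω W) (hd : finrank F U = finrank F W) :
    ∃ (T : Submodule F V) (g h : V ≃ₗ[F] V), Iso ω g ∧ Iso ω h ∧
      U.map (g : V →ₗ[F] V) = T ∧ W.map (g : V →ₗ[F] V) = W ∧
      U.map (h : V →ₗ[F] V) = U ∧ W.map (h : V →ₗ[F] V) = T := by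
  obtain ⟨θ, θ', h0, h0', hs, hs', hT⟩ := exists_theta hA hN hU hW hd
  obtain ⟨g, hg, hgU, hgW⟩ := exists_shear hA hN hU hW θ h0 hs
  obtain ⟨h, hh, hhW, hhU⟩ := exists_shear hA hN hW hU θ' h0' hs'
  refine ⟨U.map (g : V →ₗ[F] V), g, h, hg, hh, rfl, map_fix hgW, map_fix hhU, ?_⟩
  symm
  apply Submodule.eq_of_le_of_finrank_eq
  · rintro _ ⟨u, hu, rfl⟩
    obtain ⟨w, hw⟩ := hT ⟨u, hu⟩
    show g u ∈ _
    have h1 : g u = h w := by
      rw [hhW w, ← hw]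
      exact hgU ⟨u, hu⟩
    rw [h1]
    exact Submodule.mem_map_of_mem w.2
  · rw [finrank_map', finrank_map', hd]

theorem two_le_s [Finite F] [DecidableEq (Submodule F V)]
    {B : Finset (Finset (Submodule F V))} {k α s t μ : ℕ} (hA : ω.IsAlt)
    (hN : ω.Nondegenerate) (hB : SpInvariant ω B) (hS : IsSPG (IsoGr ω k) B α s t μ)
    (hNL : NonLinear (IsoGr ω k) B) : 2 ≤ s := by
  by_contra hcon
  have hs1 : s = 1 := by
    have := hS.s_pos
    omega
  obtain ⟨a, ha, -⟩ := id hNL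
  obtain ⟨l, hl, hal⟩ := hS.exists_line ha
  have h1 : 1 < #l := by
    rw [hS.line_card l hl]
    omega
  obtain ⟨b, hb, hba⟩ := exists_mem_ne h1 a
  have hab : Coll B a b := ⟨hba.symm, l, hl, hal, hb⟩
  have ha' := mem_IsoGr.mp ha
  have hb' := mem_IsoGr.mp (hS.lines_sub l hl hb)
  obtain ⟨T, g, h, hg, hh, h2, h3, h4, h5⟩ := exists_tri hA hN ha'.2 hb'.2
    (ha'.1.trans hb'.1.symm)
  have h6 := coll_map hB hg hab
  rw [h2, h3] at h6
  have h7 := coll_map hB hh hab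
  rw [h4, h5] at h7
  exact no_triangle hS hs1 hNL hab h6.symm h7

end Pool.Agent.Helper20.SI
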