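import Pool.Agent.Helper20.SI.Sp

/-!
# SI-01 Witt: Witt's theorem for symplectic spaces

`witt_step`: `v = y - x ∈ M^⊥`. If `ω x y ≠ 0`: the transvection `sv hA c v` with `c = (ω v x)⁻¹` (`ω v x = ω y x ≠ 0`) fixes
`M` pointwise and maps `x` to `x + v = y`. If `ω x y = 0` (and `x ≠ y`; for `x = y` take `1`): there is `w ∈ M^⊥` with
`ω x w ≠ 0` and `ω y w ≠ 0` (`M^⊥` is not contained in `x^⊥` as `x ∉ M = M^⊥⊥`, `exists_pp`, nor in `y^⊥`: take
`w₁, w₂ ∈ M^⊥` with `ω w₁ x = 1`, `ω w₂ y = 1`; one of `w₁, w₂, w₁ + w₂` works). Put `z = x + w`: `ω x z = ω x w ≠ 0`,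
`ω z y = ω w y ≠ 0`, `z - x, y - z ∈ M^⊥`: compose the two transvections `x ↦ z ↦ y` of the first case
(`z ∉ M` is not needed there).
`witt`: by induction on `j ≤ finrank X`: there are a subspace `Y ≤ X` with `finrank Y = j` (start `⊥`) and an isometry `g`
with `g y = f y` for all `y ∈ Y`. Step: `x ∈ X`, `x ∉ Y`; put `M = Y.map g`, `x' = g x ∉ M`, `y' = f x ∉ M` (`f` injective,
`g = f` on `Y`), `y' - x' ∈ M^⊥`: for `m = g y = f y`: `ω m y' = ω (f y) (f x) = ω y x = ω (g y) (g x) = ω m x'`.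
`witt_step` gives `h`, and `h * g` agrees with `f` on `Y ⊔ span {x}`. At `j = finrank X`: `Y = X`.
-/

open Module Submodule Finset

set_option linter.unusedSectionVars false

namespace Pool.Agent.Helper20.SI

open Pool.Agent.Helper29.FT Pool.Agent.Helper29.FT2

variable {F V : Type*} [Field F] [AddCommGroup V] [Module F V] [FiniteDimensional F V]
variable {ω : LinearMap.BilinForm F V}

theorem Witt_aux (hA : ω.IsAlt) {M : Submodule F V} {x y : V} (h0 : ω x y ≠ 0)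
    (h : y - x ∈ pp ω M) :
    ∃ g : V ≃ₗ[F] V, Iso ω g ∧ (∀ m ∈ M, g m = m) ∧ g x = y := by
  have h1 : ω (y - x) x = ω y x := by
    rw [map_sub, LinearMap.sub_apply, self0 hA, sub_zero]
  have h2 : ω (y - x) x ≠ 0 := by
    rw [h1]
    exact fun h3 => h0 (swap0 hA h3)
  refine ⟨sv hA (ω (y - x) x)⁻¹ (y - x), iso_sv hA _ _, ?_, ?_⟩
  · intro m hm
    rw [sv_apply, (mem_pp' hA).mp h m hm, mul_zero, zero_smul, add_zero]
  · rw [sv_apply, inv_mul_cancel₀ h2, one_smul, add_sub_cancel]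

/-- one step of Witt's theorem -/
theorem witt_step (hA : ω.IsAlt) (hN : ω.Nondegenerate) {M : Submodule F V} {x y : V}
    (hx : x ∉ M) (hy : y ∉ M) (h : y - x ∈ pp ω M) :
    ∃ g : V ≃ₗ[F] V, Iso ω g ∧ (∀ m ∈ M, g m = m) ∧ g x = y := by
  by_cases h0 : ω x y = 0
  swap
  · exact Witt_aux hA h0 h
  obtain ⟨w₁, hw₁, hw₁x⟩ := exists_pp hA hN hx
  obtain ⟨w₂, hw₂, hw₂y⟩ := exists_pp hA hN hy
  have hw : ∃ w ∈ pp ω M, ω w x ≠ 0 ∧ ω w y ≠ 0 := by
    by_cases h1 : ω w₁ y = 0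
    · by_cases h2 : ω w₂ x = 0
      · refine ⟨w₁ + w₂, (pp ω M).add_mem hw₁ hw₂, ?_, ?_⟩
        · rw [map_add, LinearMap.add_apply, hw₁x, h2, add_zero]
          exact one_ne_zero
        · rw [map_add, LinearMap.add_apply, hw₂y, h1, zero_add]
          exact one_ne_zero
      · exact ⟨w₂, hw₂, h2, by rw [hw₂y]; exact one_ne_zero⟩
    · exact ⟨w₁, hw₁, by rw [hw₁x]; exact one_ne_zero, h1⟩
  obtain ⟨w, hw, hwx, hwy⟩ := hw
  obtain ⟨g, hg, hgM, hgx⟩ := Witt_aux hA (M := M) (x := x) (y := x + w)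
    (by
      rw [map_add, self0 hA, zero_add]
      exact fun h3 => hwx (swap0 hA h3))
    (by rwa [add_sub_cancel_left])
  obtain ⟨g', hg', hgM', hgx'⟩ := Witt_aux hA (M := M) (x := x + w) (y := y)
    (by
      rw [map_add, LinearMap.add_apply, h0, zero_add]
      exact hwy)
    (by
      rw [← sub_sub]
      exact (pp ω M).sub_mem h hw)
  refine ⟨g' * g, hg'.mul hg, ?_, ?_⟩
  · intro m hm
    show g' (g m) = m
    rw [hgM m hm, hgM' m hm]
  · show g' (g x) = y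
    rw [hgx, hgx']

theorem Witt_ind (hA : ω.IsAlt) (hN : ω.Nondegenerate) (X : Submodule F V) (f : X →ₗ[F] V)
    (hf : Function.Injective f) (h : ∀ x y : X, ω (f x) (f y) = ω (x : V) (y : V)) (j : ℕ)
    (hj : j ≤ finrank F X) :
    ∃ Y : Submodule F V, Y ≤ X ∧ finrank F Y = j ∧
      ∃ g : V ≃ₗ[F] V, Iso ω g ∧ ∀ x : X, (x : V) ∈ Y → g (x : V) = f x := by
  induction j with
  | zero =>
    refine ⟨⊥, bot_le, finrank_bot F V, 1, Iso.one, ?_⟩
    intro x hx
    have hx0 : x = 0 := by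
      apply Subtype.ext
      exact (Submodule.mem_bot F).mp hx
    rw [hx0, map_zero]
    exact map_zero _
  | succ j ih =>
    obtain ⟨Y, hYX, hYj, g, hg, hgf⟩ := ih (by omega)
    have hne : ¬ X ≤ Y := by
      intro hle
      have := Submodule.finrank_mono hle
      omega
    obtain ⟨x, hxX, hxY⟩ := SetLike.not_le_iff_exists.mp hne
    have h1 : g x ∉ Y.map (g : V →ₗ[F] V) := by
      rw [mem_map_iff]
      exact hxY
    have h2 : f ⟨x, hxX⟩ ∉ Y.map (g : V →ₗ[F] V) := by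
      rintro ⟨y, hy, hyx⟩
      have h3 : g y = f ⟨y, hYX hy⟩ := hgf ⟨y, hYX hy⟩ hy
      have h4 : f ⟨y, hYX hy⟩ = f ⟨x, hxX⟩ := h3.symm.trans hyx
      have h5 : y = x := congrArg Subtype.val (hf h4)
      rw [h5] at hy
      exact hxY hy
    have h3 : f ⟨x, hxX⟩ - g x ∈ pp ω (Y.map (g : V →ₗ[F] V)) := by
      rintro _ ⟨y, hy, rfl⟩
      show ω (g y) (f ⟨x, hxX⟩ - g x) = 0
      rw [map_sub, hg]
      have h4 : g y = f ⟨y, hYX hy⟩ := hgf ⟨y, hYX hy⟩ hy
      rw [h4, h, sub_self]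
    obtain ⟨k, hk, hkY, hkx⟩ := witt_step hA hN h1 h2 h3
    refine ⟨Y ⊔ span F {x}, sup_le hYX ((span_singleton_le_iff_mem _ _).mpr hxX), ?_,
      k * g, hk.mul hg, ?_⟩
    · rw [← hYj]
      have h5 := Submodule.finrank_sup_add_finrank_inf_eq Y (span F {x})
      have hx0 : x ≠ 0 := by
        rintro rfl
        exact hxY Y.zero_mem
      have h6 : Y ⊓ span F {x} = ⊥ := by
        rw [← disjoint_iff, Submodule.disjoint_span_singleton' hx0]
        exact hxY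
      rw [h6, finrank_bot, finrank_span_singleton hx0] at h5
      omega
    · intro z hz
      obtain ⟨y, hy, w, hw, hyw⟩ := mem_sup.mp hz
      obtain ⟨c, rfl⟩ := mem_span_singleton.mp hw
      have h5 : z = ⟨y, hYX hy⟩ + c • ⟨x, hxX⟩ := Subtype.ext hyw.symm
      have h6 : g y = f ⟨y, hYX hy⟩ := hgf ⟨y, hYX hy⟩ hy
      show k (g (z : V)) = f z
      rw [← hyw, map_add, map_smul, map_add, map_smul, hkx,
        hkY (g y) (Submodule.mem_map_of_mem hy), h6, h5, map_add, map_smul]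

/-- Witt's theorem for symplectic spaces -/
theorem witt (hA : ω.IsAlt) (hN : ω.Nondegenerate) (X : Submodule F V) (f : X →ₗ[F] V)
    (hf : Function.Injective f) (h : ∀ x y : X, ω (f x) (f y) = ω (x : V) (y : V)) :
    ∃ g : V ≃ₗ[F] V, Iso ω g ∧ ∀ x : X, g (x : V) = f x := by
  obtain ⟨Y, hYX, hY, g, hg, hgf⟩ := Witt_ind hA hN X f hf h (finrank F X) le_rfl
  have hYX' : Y = X := Submodule.eq_of_le_of_finrank_eq hYX hY
  exact ⟨g, hg, fun x => hgf x (by rw [hYX']; exact x.2)⟩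

end Pool.Agent.Helper20.SI
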